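import Mathlib

open MeasureTheory Filter Topology Set

namespace Helper96.WI

/-- The Fejér kernel, as the Fourier transform of the triangle function. -/
noncomputable def fej (v : ℝ) : ℝ := ∫ t in (-1:ℝ)..1, (1 - |t|) * Real.cos (t * v)

/-- Complex version. -/
noncomputable def fejC (v : ℝ) : ℂ :=
  ∫ t in (-1:ℝ)..1, ((1 - |t| : ℝ) : ℂ) * Complex.exp ((t * v : ℝ) * Complex.I)

lemma fejC_eq (v : ℝ) : fejC v = (fej v : ℂ) := by
  unfold fejC fej
  have h1 : ∀ t : ℝ, ((1 - |t| : ℝ) : ℂ) * Complex.exp ((t * v : ℝ) * Complex.I)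
      = (((1 - |t|) * Real.cos (t * v) : ℝ) : ℂ) + (((1 - |t|) * Real.sin (t * v) : ℝ) : ℂ) * Complex.I := by
    intro t
    rw [Complex.exp_mul_I]
    push_cast
    ring
  simp_rw [h1]
  rw [intervalIntegral.integral_add]
  · rw [intervalIntegral.integral_mul_const, intervalIntegral.integral_ofReal,
      intervalIntegral.integral_ofReal]
    have h2 : ∫ t in (-1:ℝ)..1, (1 - |t|) * Real.sin (t * v) = 0 := by
      have h3 := intervalIntegral.integral_comp_neg (a := -1) (b := 1)
        (fun t : ℝ => (1 - |t|) * Real.sin (t * v))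
      simp only [abs_neg, neg_mul, Real.sin_neg, mul_neg, intervalIntegral.integral_neg,
        neg_neg] at h3
      linarith
    rw [h2]
    simp
  · apply Continuous.intervalIntegrable
    fun_prop
  · apply Continuous.intervalIntegrable
    fun_prop

lemma fej_eq_two (v : ℝ) : fej v = 2 * ∫ t in (0:ℝ)..1, (1 - t) * Real.cos (t * v) := by
  unfold fej
  have hc : Continuous (fun t : ℝ => (1 - |t|) * Real.cos (t * v)) := by fun_prop
  rw [← intervalIntegral.integral_add_adjacent_intervals (b := 0)
    (hc.intervalIntegrable _ _) (hc.intervalIntegrable _ _)]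
  have h3 := intervalIntegral.integral_comp_neg (a := 0) (b := 1)
        (fun t : ℝ => (1 - |t|) * Real.cos (t * v))
  simp only [abs_neg, neg_mul, Real.cos_neg, neg_zero] at h3
  rw [← h3, two_mul]
  congr 1 <;>
  · apply intervalIntegral.integral_congr
    intro t ht
    rw [uIcc_of_le (by norm_num)] at ht
    simp only [abs_of_nonneg ht.1]

lemma fej_formula {v : ℝ} (hv : v ≠ 0) : fej v = 2 * (1 - Real.cos v) / v ^ 2 := by
  rw [fej_eq_two]
  have h : ∫ t in (0:ℝ)..1, (1 - t) * Real.cos (t * v) =
      ((1 - 1) * Real.sin (1 * v) / v - Real.cos (1 * v) / v ^ 2) -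
      ((1 - 0) * Real.sin (0 * v) / v - Real.cos (0 * v) / v ^ 2) := by
    apply intervalIntegral.integral_eq_sub_of_hasDerivAt
      (f := fun t : ℝ => (1 - t) * Real.sin (t * v) / v - Real.cos (t * v) / v ^ 2)
    · intro t _
      have h1 : HasDerivAt (fun t : ℝ => t * v) v t := by
        simpa using (hasDerivAt_id t).mul_const v
      have h2 : HasDerivAt (fun t : ℝ => Real.sin (t * v)) (Real.cos (t * v) * v) t := h1.sin
      have h3 : HasDerivAt (fun t : ℝ => Real.cos (t * v)) (-Real.sin (t * v) * v) t := h1.cos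
      have h4 : HasDerivAt (fun t : ℝ => 1 - t) (-1) t := by
        simpa using (hasDerivAt_id t).const_sub 1
      have h5 := ((h4.mul h2).div_const v).sub (h3.div_const (v ^ 2))
      refine h5.congr_deriv ?_
      field_simp
      ring
    · apply Continuous.intervalIntegrable
      fun_prop
  rw [h]
  simp
  field_simp
  ring

lemma fej_zero : fej 0 = 1 := by
  rw [fej_eq_two]
  simp
  rw [intervalIntegral.integral_sub] <;> simp
  norm_num

lemma fej_nonneg (v : ℝ) : 0 ≤ fej v := by
  rcases eq_or_ne v 0 with rfl | hv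
  · rw [fej_zero]; norm_num
  · rw [fej_formula hv]
    have := Real.cos_le_one v
    apply div_nonneg
    · linarith
    · positivity

lemma fej_le_one (v : ℝ) : fej v ≤ 1 := by
  rcases eq_or_ne v 0 with rfl | hv
  · rw [fej_zero]
  · rw [fej_formula hv, div_le_one (by positivity)]
    have := Real.one_sub_sq_div_two_le_cos (x := v)
    linarith

lemma fej_le (v : ℝ) : fej v ≤ 5 * (1 + v ^ 2)⁻¹ := by
  rw [← div_eq_mul_inv, le_div_iff₀ (by positivity)]
  have h1 := fej_le_one v
  have h2 : fej v * v ^ 2 ≤ 4 := by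
    rcases eq_or_ne v 0 with rfl | hv
    · simp
    · rw [fej_formula hv, div_mul_cancel₀ _ (by positivity)]
      have := Real.neg_one_le_cos v
      linarith
  nlinarith

lemma fej_neg (v : ℝ) : fej (-v) = fej v := by
  unfold fej
  simp [mul_neg]

lemma continuous_fej : Continuous fej := by
  unfold fej
  apply intervalIntegral.continuous_parametric_intervalIntegral_of_continuous'
  fun_prop

lemma integrable_fej : Integrable fej := by
  refine (integrable_inv_one_add_sq.const_mul 5).mono' continuous_fej.aestronglyMeasurable ?_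
  filter_upwards with v
  rw [Real.norm_eq_abs, abs_of_nonneg (fej_nonneg v)]
  exact fej_le v

noncomputable def mass : ℝ := ∫ v, fej v

lemma mass_pos : 0 < mass := by
  unfold mass
  rw [integral_pos_iff_support_of_nonneg fej_nonneg integrable_fej]
  refine (continuous_fej.isOpen_support).measure_pos volume ?_
  refine ⟨0, ?_⟩
  rw [Function.mem_support, fej_zero]
  norm_num

/-- Fubini step. -/
lemma fubini_step {b : ℝ → ℝ} (hb : Measurable b) {C : ℝ} (hC : ∀ u, |b u| ≤ C) {ε : ℝ}
    (hε : 0 < ε) (l y : ℝ) :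
    ∫ u in Ioi (0:ℝ), (b u : ℂ) * Complex.exp (-(ε * u : ℝ)) * (fej (l * (y - u)) : ℂ) =
    ∫ t in (-1:ℝ)..1, ((1 - |t| : ℝ) : ℂ) * Complex.exp ((t * (l * y) : ℝ) * Complex.I) *
      ∫ u in Ioi (0:ℝ), (b u : ℂ) * Complex.exp (-(ε + (l * t : ℝ) * Complex.I) * u) := by
  simp_rw [← fejC_eq]
  unfold fejC
  have e1 : ∀ u : ℝ, (b u : ℂ) * Complex.exp (-(ε * u : ℝ)) *
      (∫ t in (-1:ℝ)..1, ((1 - |t| : ℝ) : ℂ) * Complex.exp ((t * (l * (y - u)) : ℝ) * Complex.I))
      = ∫ t in (-1:ℝ)..1, (b u : ℂ) * Complex.exp (-(ε * u : ℝ)) *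
      (((1 - |t| : ℝ) : ℂ) * Complex.exp ((t * (l * (y - u)) : ℝ) * Complex.I)) := by
    intro u
    rw [intervalIntegral.integral_const_mul]
  have e2 : ∀ t : ℝ, ((1 - |t| : ℝ) : ℂ) * Complex.exp ((t * (l * y) : ℝ) * Complex.I) *
      (∫ u in Ioi (0:ℝ), (b u : ℂ) * Complex.exp (-(ε + (l * t : ℝ) * Complex.I) * u))
      = ∫ u in Ioi (0:ℝ), ((1 - |t| : ℝ) : ℂ) * Complex.exp ((t * (l * y) : ℝ) * Complex.I) *
      ((b u : ℂ) * Complex.exp (-(ε + (l * t : ℝ) * Complex.I) * u)) := by
    intro t
    rw [integral_const_mul]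
  simp_rw [e1, e2]
  rw [← intervalIntegral_integral_swap]
  · apply intervalIntegral.integral_congr
    intro t _
    simp only
    congr 1
    ext u
    have : Complex.exp (-(ε * u : ℝ)) * Complex.exp ((t * (l * (y - u)) : ℝ) * Complex.I)
      = Complex.exp ((t * (l * y) : ℝ) * Complex.I) * Complex.exp (-(ε + (l * t : ℝ) * Complex.I) * u) := by
      rw [← Complex.exp_add, ← Complex.exp_add]
      congr 1
      push_cast
      ring
    linear_combination ((b u : ℂ) * ((1 - |t| : ℝ) : ℂ)) * this
  · have h1 : Integrable (fun u : ℝ => C * Real.exp (-ε * u)) (volume.restrict (Ioi 0)) :=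
      (integrableOn_exp_mul_Ioi (a := -ε) (by linarith) 0).const_mul C
    have h2 : Integrable (fun _ : ℝ => (1 : ℝ)) (volume.restrict (uIoc (-1:ℝ) 1)) := by
      rw [uIoc_of_le (by norm_num)]
      exact integrable_const _
    have h3 := h2.mul_prod h1
    refine h3.mono' ?_ ?_
    · apply Measurable.aestronglyMeasurable
      unfold Function.uncurry
      have : Measurable (fun a : ℝ × ℝ => (b a.2 : ℂ)) :=
        Complex.measurable_ofReal.comp (hb.comp measurable_snd)
      fun_prop
    · rw [Measure.prod_restrict]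
      rw [ae_restrict_iff' (measurableSet_uIoc.prod measurableSet_Ioi)]
      filter_upwards with ⟨t, u⟩ ⟨ht, hu⟩
      simp only [Function.uncurry] at *
      rw [uIoc_of_le (by norm_num)] at ht
      rw [norm_mul, norm_mul, norm_mul, Complex.norm_exp_ofReal_mul_I, Complex.norm_exp,
        Complex.norm_real, Complex.norm_real, Real.norm_eq_abs, Real.norm_eq_abs]
      have h4 : abs (1 - abs t) ≤ 1 := by
        rw [abs_le]
        have h41 := abs_nonneg t
        have h42 : |t| ≤ 1 := abs_le.mpr ⟨ht.1.le, ht.2⟩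
        constructor <;> linarith
      have h5 : (-((ε * u : ℝ) : ℂ)).re = -ε * u := by
        rw [← Complex.ofReal_neg, Complex.ofReal_re]; ring
      rw [h5]
      have h6 := Real.exp_pos (-ε * u)
      have h7 := hC u
      have h8 : |b u| * Real.exp (-ε * u) ≤ C * Real.exp (-ε * u) := by gcongr
      calc |b u| * Real.exp (-ε * u) * (abs (1 - abs t) * 1) ≤ |b u| * Real.exp (-ε * u) * 1 := by
            rw [mul_one]
            gcongr
        _ ≤ 1 * (C * Real.exp (-ε * u)) := by linarith


/-- The limit identity. -/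
lemma limit_identity {b : ℝ → ℝ} (hb : Measurable b) {C : ℝ} (hC : ∀ u, |b u| ≤ C) {H : ℂ → ℂ}
    (hH : ContinuousOn H {s | 0 ≤ s.re})
    (hHb : ∀ s : ℂ, 0 < s.re → H s = ∫ u in Ioi (0:ℝ), (b u : ℂ) * Complex.exp (-s * u))
    {l : ℝ} (hl : 0 < l) (y : ℝ) :
    ∫ u in Ioi (0:ℝ), (b u : ℂ) * (fej (l * (y - u)) : ℂ) =
    ∫ t in (-1:ℝ)..1, ((1 - |t| : ℝ) : ℂ) * Complex.exp ((t * (l * y) : ℝ) * Complex.I) *
      H ((l * t : ℝ) * Complex.I) := by
  have hC0 : 0 ≤ C := (abs_nonneg _).trans (hC 0)
  -- left side limit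
  have hL : Tendsto (fun ε : ℝ => ∫ u in Ioi (0:ℝ), (b u : ℂ) * Complex.exp (-(ε * u : ℝ)) *
      (fej (l * (y - u)) : ℂ)) (𝓝[>] 0) (𝓝 (∫ u in Ioi (0:ℝ), (b u : ℂ) * (fej (l * (y - u)) : ℂ))) := by
    apply tendsto_integral_filter_of_dominated_convergence (fun u => C * fej (l * (y - u)))
    · filter_upwards with ε
      apply Measurable.aestronglyMeasurable
      have h1 : Measurable (fun a : ℝ => (b a : ℂ)) := Complex.measurable_ofReal.comp hb
      have h2 : Measurable (fun a : ℝ => (fej (l * (y - a)) : ℂ)) :=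
        Complex.measurable_ofReal.comp (continuous_fej.measurable.comp (by fun_prop))
      fun_prop
    · filter_upwards [self_mem_nhdsWithin] with ε hε
      rw [ae_restrict_iff' measurableSet_Ioi]
      filter_upwards with u hu
      rw [norm_mul, norm_mul, Complex.norm_exp, Complex.norm_real, Complex.norm_real,
        Real.norm_eq_abs, Real.norm_eq_abs, abs_of_nonneg (fej_nonneg _)]
      have h5 : (-((ε * u : ℝ) : ℂ)).re = -(ε * u) := by
        rw [← Complex.ofReal_neg, Complex.ofReal_re]
      rw [h5]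
      have h6 : Real.exp (-(ε * u)) ≤ 1 := by
        rw [Real.exp_le_one_iff]
        have : 0 < ε * u := mul_pos hε hu
        linarith
      have h7 := Real.exp_pos (-(ε * u))
      have h8 := hC u
      have h9 : |b u| * Real.exp (-(ε * u)) ≤ C * 1 := by gcongr
      have h10 := fej_nonneg (l * (y - u))
      calc _ ≤ (C * 1) * fej (l * (y - u)) := by gcongr
        _ = _ := by ring
    · apply Integrable.integrableOn
      apply Integrable.const_mul
      have := (integrable_fej.comp_mul_left' hl.ne').comp_sub_left y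
      exact this
    · filter_upwards with u
      have : Tendsto (fun ε : ℝ => (b u : ℂ) * Complex.exp (-(ε * u : ℝ)) *
        (fej (l * (y - u)) : ℂ)) (𝓝 0) (𝓝 ((b u : ℂ) * Complex.exp (-((0:ℝ) * u : ℝ)) *
        (fej (l * (y - u)) : ℂ))) := by
        apply Continuous.tendsto
        fun_prop
      simp only [zero_mul, Complex.ofReal_zero, neg_zero, Complex.exp_zero, mul_one] at this
      exact this.mono_left nhdsWithin_le_nhds
  -- right side limit
  have hR : Tendsto (fun ε : ℝ => ∫ t in (-1:ℝ)..1, ((1 - |t| : ℝ) : ℂ) *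
      Complex.exp ((t * (l * y) : ℝ) * Complex.I) * H (ε + (l * t : ℝ) * Complex.I)) (𝓝[>] 0)
      (𝓝 (∫ t in (-1:ℝ)..1, ((1 - |t| : ℝ) : ℂ) * Complex.exp ((t * (l * y) : ℝ) * Complex.I) *
      H ((l * t : ℝ) * Complex.I))) := by
    have hφ : Continuous (fun p : ℝ × ℝ => (p.1 : ℂ) + (l * p.2 : ℝ) * Complex.I) := by fun_prop
    have hre : ∀ p : ℝ × ℝ, ((p.1 : ℂ) + (l * p.2 : ℝ) * Complex.I).re = p.1 := by
      intro p
      simp
    have hHφ : ContinuousOn (fun p : ℝ × ℝ => H ((p.1 : ℂ) + (l * p.2 : ℝ) * Complex.I))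
        (Icc 0 1 ×ˢ Icc (-1) 1) := by
      apply hH.comp hφ.continuousOn
      intro p hp
      show 0 ≤ ((p.1 : ℂ) + (l * p.2 : ℝ) * Complex.I).re
      rw [hre]
      exact hp.1.1
    obtain ⟨D, hD⟩ := (isCompact_Icc.prod isCompact_Icc).exists_bound_of_continuousOn hHφ
    have hmem : ∀ᶠ ε : ℝ in 𝓝[>] 0, ε ∈ Ioc (0:ℝ) 1 := by
      apply Ioc_mem_nhdsGT
      norm_num
    apply intervalIntegral.tendsto_integral_filter_of_dominated_convergence (fun _ => D)
    · filter_upwards [hmem] with ε hε
      apply ContinuousOn.aestronglyMeasurable _ measurableSet_uIoc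
      apply ContinuousOn.mul (by fun_prop)
      have : ContinuousOn (fun t : ℝ => (fun p : ℝ × ℝ => H ((p.1 : ℂ) + (l * p.2 : ℝ) * Complex.I)) (ε, t))
          (uIoc (-1) 1) := by
        apply hHφ.comp (by fun_prop)
        intro t ht
        rw [uIoc_of_le (by norm_num)] at ht
        exact ⟨⟨hε.1.le, hε.2⟩, ⟨ht.1.le, ht.2⟩⟩
      exact this
    · filter_upwards [hmem] with ε hε
      filter_upwards with t ht
      rw [uIoc_of_le (by norm_num)] at ht
      rw [norm_mul, norm_mul, Complex.norm_exp_ofReal_mul_I, Complex.norm_real, Real.norm_eq_abs, mul_one]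
      have h4 : abs (1 - abs t) ≤ 1 := by
        rw [abs_le]
        have h41 := abs_nonneg t
        have h42 : |t| ≤ 1 := abs_le.mpr ⟨ht.1.le, ht.2⟩
        constructor <;> linarith
      have h5 := hD (ε, t) ⟨⟨hε.1.le, hε.2⟩, ⟨ht.1.le, ht.2⟩⟩
      simp only at h5
      have h6 : 0 ≤ D := (norm_nonneg _).trans h5
      calc _ ≤ 1 * D := by gcongr
        _ = D := one_mul D
    · simp
    · filter_upwards with t ht
      rw [uIoc_of_le (by norm_num)] at ht
      apply Tendsto.const_mul
      have h1 : ContinuousWithinAt (fun p : ℝ × ℝ => H ((p.1 : ℂ) + (l * p.2 : ℝ) * Complex.I))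
        (Icc 0 1 ×ˢ Icc (-1) 1) (0, t) := hHφ _ ⟨⟨le_refl _, zero_le_one⟩, ⟨ht.1.le, ht.2⟩⟩
      have h2 : Tendsto (fun ε : ℝ => (ε, t)) (𝓝[>] 0) (𝓝[Icc 0 1 ×ˢ Icc (-1) 1] ((0:ℝ), t)) := by
        apply tendsto_nhdsWithin_of_tendsto_nhds_of_eventually_within
        · have : Tendsto (fun ε : ℝ => (ε, t)) (𝓝 0) (𝓝 ((0:ℝ), t)) := by
            apply Continuous.tendsto
            fun_prop
          exact this.mono_left nhdsWithin_le_nhds
        · filter_upwards [hmem] with ε hε
          exact ⟨⟨hε.1.le, hε.2⟩, ⟨ht.1.le, ht.2⟩⟩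
      have h3 := h1.tendsto.comp h2
      simpa [Function.comp_def] using h3
  refine tendsto_nhds_unique hL (hR.congr' ?_)
  filter_upwards [self_mem_nhdsWithin] with ε hε
  rw [fubini_step hb hC hε]
  apply intervalIntegral.integral_congr
  intro t _
  simp only
  rw [hHb]
  simp only [Complex.add_re, Complex.ofReal_re, Complex.mul_re, Complex.I_re, Complex.ofReal_im,
    Complex.I_im]
  simpa using hε


/-- First conclusion: the smoothed average tends to zero. -/
lemma smoothed_tendsto_zero {b : ℝ → ℝ} (hb : Measurable b) {C : ℝ} (hC : ∀ u, |b u| ≤ C) {H : ℂ → ℂ}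
    (hH : ContinuousOn H {s | 0 ≤ s.re})
    (hHb : ∀ s : ℂ, 0 < s.re → H s = ∫ u in Ioi (0:ℝ), (b u : ℂ) * Complex.exp (-s * u))
    {l : ℝ} (hl : 0 < l) :
    Tendsto (fun y : ℝ => ∫ u in Ioi (0:ℝ), b u * fej (l * (y - u))) atTop (𝓝 0) := by
  set g : ℝ → ℂ := (Ioc (-1) 1).indicator
    (fun t => ((1 - |t| : ℝ) : ℂ) * H ((l * t : ℝ) * Complex.I)) with hg
  have h1 := Real.tendsto_integral_exp_smul_cocompact g
  have h2 : Tendsto (fun y : ℝ => -(l * y) / (2 * Real.pi)) atTop (cocompact ℝ) := by
    rw [cocompact_eq_atBot_atTop]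
    apply Tendsto.mono_right _ le_sup_left
    apply Tendsto.atBot_div_const (by positivity)
    apply tendsto_neg_atTop_atBot.comp
    exact tendsto_id.const_mul_atTop hl
  have h3 := h1.comp h2
  have h4 : Tendsto (fun y : ℝ => ((∫ u in Ioi (0:ℝ), b u * fej (l * (y - u)) : ℝ) : ℂ)) atTop (𝓝 ((0:ℝ):ℂ)) := by
    rw [Complex.ofReal_zero]
    refine h3.congr ?_
    intro y
    rw [← integral_complex_ofReal]
    push_cast
    rw [limit_identity hb hC hH hHb hl y]
    simp only [Function.comp_apply]
    rw [intervalIntegral.integral_of_le (by norm_num), ← integral_indicator measurableSet_Ioc]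
    apply integral_congr_ae
    filter_upwards with t
    by_cases ht : t ∈ Ioc (-1:ℝ) 1
    · simp only [hg, indicator_of_mem ht]
      rw [Circle.smul_def, Real.fourierChar_apply, smul_eq_mul]
      have : (((2 * Real.pi * -(t * (-(l * y) / (2 * Real.pi))) : ℝ) : ℂ) * Complex.I) =
        ((t * (l * y) : ℝ) : ℂ) * Complex.I := by
        congr 2
        field_simp
      rw [this]
      push_cast
      ring
    · simp only [hg, indicator_of_notMem ht]
      simp
  exact (Complex.continuous_re.tendsto _).comp h4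


/-! ### The Tauberian part -/

/-- truncated kernel -/
noncomputable def tk (R v : ℝ) : ℝ := if |v| < R then fej v else 0

noncomputable def m (R : ℝ) : ℝ := ∫ v, tk R v

lemma tk_nonneg (R v : ℝ) : 0 ≤ tk R v := by
  unfold tk; split_ifs; exacts [fej_nonneg v, le_refl _]

lemma tk_le (R v : ℝ) : tk R v ≤ fej v := by
  unfold tk; split_ifs; exacts [le_refl _, fej_nonneg v]

lemma measurable_tk (R : ℝ) : Measurable (tk R) := by
  unfold tk
  exact Measurable.ite (measurableSet_lt continuous_abs.measurable measurable_const)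
    continuous_fej.measurable measurable_const

lemma integrable_tk (R : ℝ) : Integrable (tk R) := by
  refine integrable_fej.mono' (measurable_tk R).aestronglyMeasurable ?_
  filter_upwards with v
  rw [Real.norm_eq_abs, abs_of_nonneg (tk_nonneg R v)]
  exact tk_le R v

lemma m_le (R : ℝ) : m R ≤ mass := integral_mono (integrable_tk R) integrable_fej (tk_le R)

lemma m_tendsto : Tendsto m atTop (𝓝 mass) := by
  unfold m mass
  apply tendsto_integral_filter_of_dominated_convergence fej
  · filter_upwards with R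
    exact (measurable_tk R).aestronglyMeasurable
  · filter_upwards with R
    filter_upwards with v
    rw [Real.norm_eq_abs, abs_of_nonneg (tk_nonneg R v)]
    exact tk_le R v
  · exact integrable_fej
  · filter_upwards with v
    apply tendsto_const_nhds.congr'
    filter_upwards [eventually_gt_atTop |v|] with R hR
    simp [tk, hR]

lemma comp_integrable {f : ℝ → ℝ} (hf : Integrable f) {l : ℝ} (hl : 0 < l) (y : ℝ) :
    Integrable (fun u => f (l * (y - u))) :=
  (hf.comp_mul_left' hl.ne').comp_sub_left y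

lemma comp_integral (f : ℝ → ℝ) {l : ℝ} (hl : 0 < l) (y : ℝ) :
    ∫ u, f (l * (y - u)) = (∫ v, f v) / l := by
  rw [integral_sub_left_eq_self (fun v => f (l * v)) volume y, Measure.integral_comp_mul_left,
    abs_of_pos (inv_pos.mpr hl), smul_eq_mul]
  field_simp

lemma half_tendsto {l : ℝ} (hl : 0 < l) :
    Tendsto (fun y : ℝ => ∫ u in Ioi (0:ℝ), fej (l * (y - u))) atTop (𝓝 (mass / l)) := by
  have h1 : ∀ y : ℝ, ∫ u in Ioi (0:ℝ), fej (l * (y - u)) = ∫ v, (Iio y).indicator (fun v => fej (l * v)) v := by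
    intro y
    rw [← integral_indicator measurableSet_Ioi,
      ← integral_sub_left_eq_self (fun v => (Iio y).indicator (fun v => fej (l * v)) v) volume y]
    congr 1
    ext u
    by_cases hu : 0 < u
    · rw [indicator_of_mem (show u ∈ Ioi 0 from hu), indicator_of_mem]
      show y - u < y
      linarith
    · rw [indicator_of_notMem (show u ∉ Ioi 0 from hu), indicator_of_notMem]
      show ¬ (y - u < y)
      linarith
  have h2 : mass / l = ∫ v, fej (l * v) := by
    rw [Measure.integral_comp_mul_left, abs_of_pos (inv_pos.mpr hl), smul_eq_mul]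
    unfold mass
    field_simp
  simp_rw [h1]
  rw [h2]
  have hi : Integrable (fun v => fej (l * v)) := integrable_fej.comp_mul_left' hl.ne'
  apply tendsto_integral_filter_of_dominated_convergence (fun v => fej (l * v))
  · filter_upwards with y
    exact (hi.indicator measurableSet_Iio).aestronglyMeasurable
  · filter_upwards with y
    filter_upwards with v
    rw [Real.norm_eq_abs, abs_of_nonneg (indicator_nonneg (fun _ _ => fej_nonneg _) _)]
    exact indicator_le_self' (fun _ _ => fej_nonneg _) v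
  · exact hi
  · filter_upwards with v
    apply tendsto_const_nhds.congr'
    filter_upwards [eventually_gt_atTop v] with y hy
    rw [indicator_of_mem (show v ∈ Iio y from hy)]

section taub

variable {a : ℝ → ℝ} (ha : Measurable a) {C : ℝ} (ha0 : ∀ u, 0 ≤ a u) (haC : ∀ u, a u ≤ C)
  (hmono : ∀ u v, 0 < u → u ≤ v → a u * Real.exp u ≤ a v * Real.exp v)

include ha ha0 haC in
lemma F_integrable {f : ℝ → ℝ} (hf : Integrable f) {l : ℝ} (hl : 0 < l) (y : ℝ) :
    Integrable (fun u => a u * f (l * (y - u))) := by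
  refine (comp_integrable hf hl y).bdd_mul (c := C) ha.aestronglyMeasurable ?_
  filter_upwards with u
  rw [Real.norm_eq_abs, abs_of_nonneg (ha0 u)]
  exact haC u

include ha ha0 haC in
lemma F_tendsto {A : ℝ} {l : ℝ} (hl : 0 < l)
    (h : Tendsto (fun y : ℝ => ∫ u in Ioi (0:ℝ), (a u - A) * fej (l * (y - u))) atTop (𝓝 0)) :
    Tendsto (fun y : ℝ => l * ∫ u in Ioi (0:ℝ), a u * fej (l * (y - u))) atTop (𝓝 (A * mass)) := by
  have h1 : ∀ y : ℝ, ∫ u in Ioi (0:ℝ), a u * fej (l * (y - u)) =
      (∫ u in Ioi (0:ℝ), (a u - A) * fej (l * (y - u))) + A * ∫ u in Ioi (0:ℝ), fej (l * (y - u)) := by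
    intro y
    simp_rw [sub_mul]
    rw [integral_sub, integral_const_mul]
    · ring
    · exact (F_integrable ha ha0 haC integrable_fej hl y).integrableOn
    · exact ((comp_integrable integrable_fej hl y).const_mul A).integrableOn
  simp_rw [h1]
  have h2 := (h.add ((half_tendsto hl).const_mul A)).const_mul l
  have h3 : l * (0 + A * (mass / l)) = A * mass := by
    field_simp
    ring
  rwa [h3] at h2

include ha ha0 haC hmono in
lemma upper_ineq {δ R : ℝ} (hδ : 0 < δ) (hR : 0 < R) {y : ℝ} (hy : δ < y) :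
    a (y - δ) * Real.exp (-(2 * δ)) * m R ≤
      (R / δ) * ∫ u in Ioi (0:ℝ), a u * fej ((R / δ) * (y - u)) := by
  have hl : 0 < R / δ := div_pos hR hδ
  have h1 : ∫ u in Ioi (0:ℝ), tk R ((R / δ) * (y - u)) = m R / (R / δ) := by
    rw [show m R = ∫ v, tk R v from rfl, ← comp_integral (tk R) hl y]
    apply setIntegral_eq_integral_of_forall_compl_eq_zero
    intro u hu
    have hu' : u ≤ 0 := not_lt.mp hu
    unfold tk
    rw [if_neg]
    rw [not_lt, abs_of_pos (mul_pos hl (by linarith)), div_mul_eq_mul_div, le_div_iff₀ hδ]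
    apply mul_le_mul_of_nonneg_left _ hR.le
    linarith
  have h2 : ∫ u in Ioi (0:ℝ), a (y - δ) * Real.exp (-(2 * δ)) * tk R ((R / δ) * (y - u)) ≤
      ∫ u in Ioi (0:ℝ), a u * fej ((R / δ) * (y - u)) := by
    apply setIntegral_mono_on
    · exact ((comp_integrable (integrable_tk R) hl y).const_mul _).integrableOn
    · exact (F_integrable ha ha0 haC integrable_fej hl y).integrableOn
    · exact measurableSet_Ioi
    · intro u hu
      have hu' : (0:ℝ) < u := hu
      unfold tk
      split_ifs with hc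
      · rw [abs_mul, abs_of_pos hl, div_mul_eq_mul_div, div_lt_iff₀ hδ] at hc
        have hc' : |y - u| < δ := lt_of_mul_lt_mul_left hc hR.le
        rw [abs_lt] at hc'
        have h3 := hmono (y - δ) u (by linarith) (by linarith)
        have h4 : a (y - δ) * Real.exp (-(2 * δ)) ≤ a u := by
          have h5 : a (y - δ) * Real.exp (-(2 * δ)) * Real.exp u ≤ a u * Real.exp u := by
            refine le_trans ?_ h3
            rw [mul_assoc, ← Real.exp_add]
            apply mul_le_mul_of_nonneg_left _ (ha0 _)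
            rw [Real.exp_le_exp]
            linarith
          exact le_of_mul_le_mul_right h5 (Real.exp_pos u)
        exact mul_le_mul_of_nonneg_right h4 (fej_nonneg _)
      · rw [mul_zero]
        exact mul_nonneg (ha0 _) (fej_nonneg _)
  rw [integral_const_mul, h1] at h2
  have h3 := mul_le_mul_of_nonneg_left h2 hl.le
  calc _ = R / δ * (a (y - δ) * Real.exp (-(2 * δ)) * (m R / (R / δ))) := by field_simp
    _ ≤ _ := h3

include ha ha0 haC hmono in
lemma lower_ineq {δ R : ℝ} (hδ : 0 < δ) (hR : 0 < R) (y : ℝ) :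
    (R / δ) * ∫ u in Ioi (0:ℝ), a u * fej ((R / δ) * (y - u)) ≤
     a (y + δ) * Real.exp (2 * δ) * m R + C * (mass - m R) := by
  have hl : 0 < R / δ := div_pos hR hδ
  have hC0 : 0 ≤ C := (ha0 0).trans (haC 0)
  set G : ℝ → ℝ := fun v => a (y + δ) * Real.exp (2 * δ) * tk R v + C * (fej v - tk R v) with hG
  have hGi : Integrable G := ((integrable_tk R).const_mul _).add ((integrable_fej.sub (integrable_tk R)).const_mul _)
  have hG0 : ∀ v, 0 ≤ G v := by
    intro v
    apply add_nonneg
    · exact mul_nonneg (mul_nonneg (ha0 _) (Real.exp_pos _).le) (tk_nonneg _ _)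
    · exact mul_nonneg hC0 (sub_nonneg.mpr (tk_le _ _))
  have hGint : ∫ v, G v = a (y + δ) * Real.exp (2 * δ) * m R + C * (mass - m R) := by
    simp only [hG]
    rw [integral_add, integral_const_mul, integral_const_mul, integral_sub]
    · rfl
    · exact integrable_fej
    · exact integrable_tk R
    · exact (integrable_tk R).const_mul _
    · exact (integrable_fej.sub (integrable_tk R)).const_mul _
  have h2 : ∫ u in Ioi (0:ℝ), a u * fej ((R / δ) * (y - u)) ≤ ∫ u in Ioi (0:ℝ), G ((R / δ) * (y - u)) := by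
    apply setIntegral_mono_on
    · exact (F_integrable ha ha0 haC integrable_fej hl y).integrableOn
    · exact (comp_integrable hGi hl y).integrableOn
    · exact measurableSet_Ioi
    · intro u hu
      have hu' : (0:ℝ) < u := hu
      simp only [hG]
      unfold tk
      split_ifs with hc
      · rw [abs_mul, abs_of_pos hl, div_mul_eq_mul_div, div_lt_iff₀ hδ] at hc
        have hc' : |y - u| < δ := lt_of_mul_lt_mul_left hc hR.le
        rw [abs_lt] at hc'
        have h3 := hmono u (y + δ) hu' (by linarith)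
        have h4 : a u ≤ a (y + δ) * Real.exp (2 * δ) := by
          have h5 : a u * Real.exp u ≤ a (y + δ) * Real.exp (2 * δ) * Real.exp u := by
            refine le_trans h3 ?_
            rw [mul_assoc, ← Real.exp_add]
            apply mul_le_mul_of_nonneg_left _ (ha0 _)
            rw [Real.exp_le_exp]
            linarith
          exact le_of_mul_le_mul_right h5 (Real.exp_pos u)
        rw [sub_self, mul_zero, add_zero]
        exact mul_le_mul_of_nonneg_right h4 (fej_nonneg _)
      · rw [mul_zero, zero_add, sub_zero]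
        exact mul_le_mul_of_nonneg_right (haC u) (fej_nonneg _)
  have h3 : ∫ u in Ioi (0:ℝ), G ((R / δ) * (y - u)) ≤ ∫ u, G ((R / δ) * (y - u)) := by
    apply setIntegral_le_integral (comp_integrable hGi hl y)
    filter_upwards with u
    exact hG0 _
  rw [comp_integral G hl y, hGint] at h3
  calc _ ≤ (R / δ) * ((a (y + δ) * Real.exp (2 * δ) * m R + C * (mass - m R)) / (R / δ)) := by
        apply mul_le_mul_of_nonneg_left (h2.trans h3) hl.le
    _ = _ := by field_simp

include ha ha0 haC hmono in
/-- The Tauberian theorem. -/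
theorem tauberian {A : ℝ}
    (h : ∀ l : ℝ, 0 < l → Tendsto (fun y : ℝ => ∫ u in Ioi (0:ℝ), (a u - A) * fej (l * (y - u))) atTop (𝓝 0)) :
    Tendsto a atTop (𝓝 A) := by
  have hinv : Tendsto (fun n : ℕ => 1 / (n : ℝ)) atTop (𝓝 0) := tendsto_one_div_atTop_nhds_zero_nat
  have hmn : Tendsto (fun n : ℕ => m n) atTop (𝓝 mass) := m_tendsto.comp tendsto_natCast_atTop_atTop
  have hmpos : ∀ᶠ n : ℕ in atTop, 0 < m n := hmn.eventually_const_lt mass_pos
  rw [tendsto_order]
  constructor
  · intro B hB
    -- lower bound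
    have h1 : Tendsto (fun n : ℕ => Real.exp (-(2 * (1 / (n:ℝ)))) * ((A * mass - C * (mass - m n)) / m n)) atTop
        (𝓝 (Real.exp (-(2 * 0)) * ((A * mass - C * (mass - mass)) / mass))) := by
      apply Tendsto.mul
      · exact (Real.continuous_exp.tendsto _).comp (hinv.const_mul 2).neg
      · exact ((tendsto_const_nhds.sub ((tendsto_const_nhds.sub hmn).const_mul C)).div hmn mass_pos.ne')
    have h2 : Real.exp (-(2 * 0)) * ((A * mass - C * (mass - mass)) / mass) = A := by
      have := mass_pos.ne'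
      simp
      field_simp
    rw [h2] at h1
    obtain ⟨n, hn1, hn2, hn3⟩ := ((h1.eventually_const_lt hB).and (hmpos.and (eventually_gt_atTop 0))).exists
    have hn3' : (0:ℝ) < n := by exact_mod_cast hn3
    have hδ : (0:ℝ) < 1 / n := by positivity
    have h3 := F_tendsto ha ha0 haC (div_pos hn3' hδ) (h (n / (1 / n)) (div_pos hn3' hδ))
    have h4 : Tendsto (fun y : ℝ => Real.exp (-(2 * (1 / (n:ℝ)))) * ((((n:ℝ) / (1 / n)) *
      (∫ u in Ioi (0:ℝ), a u * fej (((n:ℝ) / (1 / n)) * (y - u))) - C * (mass - m n)) / m n)) atTop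
        (𝓝 (Real.exp (-(2 * (1 / (n:ℝ)))) * ((A * mass - C * (mass - m n)) / m n))) :=
      ((h3.sub_const _).div_const _).const_mul _
    have h5 := (h4.eventually_const_lt hn1).and (eventually_gt_atTop 0)
    have h6 : Tendsto (fun y : ℝ => y - 1 / (n:ℝ)) atTop atTop := tendsto_atTop_add_const_right _ _ tendsto_id
    filter_upwards [h6.eventually h5] with y hy
    have h7 := lower_ineq ha ha0 haC hmono hδ hn3' (y - 1 / (n:ℝ))
    rw [sub_add_cancel] at h7
    refine hy.1.trans_le ?_
    rw [Real.exp_neg, inv_mul_le_iff₀ (Real.exp_pos _), div_le_iff₀ hn2]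
    linarith
  · intro B hB
    have h1 : Tendsto (fun n : ℕ => Real.exp (2 * (1 / (n:ℝ))) * ((A * mass) / m n)) atTop
        (𝓝 (Real.exp (2 * 0) * ((A * mass) / mass))) := by
      apply Tendsto.mul
      · exact (Real.continuous_exp.tendsto _).comp (hinv.const_mul 2)
      · exact (tendsto_const_nhds.div hmn mass_pos.ne')
    have h2 : Real.exp (2 * 0) * ((A * mass) / mass) = A := by
      have := mass_pos.ne'
      simp
      field_simp
    rw [h2] at h1
    obtain ⟨n, hn1, hn2, hn3⟩ := ((h1.eventually_lt_const hB).and (hmpos.and (eventually_gt_atTop 0))).exists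
    have hn3' : (0:ℝ) < n := by exact_mod_cast hn3
    have hδ : (0:ℝ) < 1 / n := by positivity
    have h3 := F_tendsto ha ha0 haC (div_pos hn3' hδ) (h (n / (1 / n)) (div_pos hn3' hδ))
    have h4 : Tendsto (fun y : ℝ => Real.exp (2 * (1 / (n:ℝ))) * ((((n:ℝ) / (1 / n)) *
      (∫ u in Ioi (0:ℝ), a u * fej (((n:ℝ) / (1 / n)) * (y - u)))) / m n)) atTop
        (𝓝 (Real.exp (2 * (1 / (n:ℝ))) * ((A * mass) / m n))) :=
      (h3.div_const _).const_mul _
    have h5 := (h4.eventually_lt_const hn1).and (eventually_gt_atTop (1 / (n:ℝ)))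
    have h6 : Tendsto (fun y : ℝ => y + 1 / (n:ℝ)) atTop atTop := tendsto_atTop_add_const_right _ _ tendsto_id
    filter_upwards [h6.eventually h5] with y hy
    have h7 := upper_ineq ha ha0 haC hmono hδ hn3' hy.2
    rw [add_sub_cancel_right] at h7
    refine lt_of_le_of_lt ?_ hy.1
    rw [← div_le_iff₀' (Real.exp_pos _), le_div_iff₀ hn2]
    rw [Real.exp_neg] at h7
    simpa [div_eq_mul_inv] using h7

end taub


/-! ### Wiener–Ikehara for Dirichlet series -/

/-- partial sums -/
noncomputable def S (f : ℕ → ℝ) (x : ℝ) : ℝ := ∑ k ∈ Finset.Icc 1 ⌊x⌋₊, f k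

lemma S_mono {f : ℕ → ℝ} (hf : ∀ n, 0 ≤ f n) : Monotone (S f) := by
  intro x y hxy
  unfold S
  apply Finset.sum_le_sum_of_subset_of_nonneg
  · exact Finset.Icc_subset_Icc_right (Nat.floor_mono hxy)
  · intro i _ _
    exact hf i

/-- Wiener–Ikehara with a Chebyshev bound. -/
theorem wiener_ikehara {f : ℕ → ℝ} (hf : ∀ n, 0 ≤ f n) {C : ℝ} (hC : ∀ n : ℕ, ∑ k ∈ Finset.Icc 1 n, f k ≤ C * n)
    {A : ℝ} {G : ℂ → ℂ} (hG : ContinuousOn G {s | 1 ≤ s.re})
    (hGf : ∀ s : ℂ, 1 < s.re → G s = LSeries (fun n => (f n : ℂ)) s - A / (s - 1)) :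
    Tendsto (fun n : ℕ => (∑ k ∈ Finset.Icc 1 n, f k) / n) atTop (𝓝 A) := by
  have hC0 : 0 ≤ C := by
    have := hC 1
    have h1 := hf 1
    simp at this
    linarith
  have hSC : ∀ x : ℝ, 0 ≤ x → S f x ≤ C * x := by
    intro x hx
    unfold S
    refine (hC _).trans ?_
    apply mul_le_mul_of_nonneg_left (Nat.floor_le hx) hC0
  have hS0 : ∀ x : ℝ, 0 ≤ S f x := fun x => Finset.sum_nonneg (fun i _ => hf i)
  set a : ℝ → ℝ := fun u => S f (Real.exp u) * Real.exp (-u) with hadef
  have ha : Measurable a := by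
    apply Measurable.mul
    · exact (S_mono hf).measurable.comp Real.measurable_exp
    · fun_prop
  have ha0 : ∀ u, 0 ≤ a u := fun u => mul_nonneg (hS0 _) (Real.exp_pos _).le
  have haC : ∀ u, a u ≤ C := by
    intro u
    have h1 := hSC (Real.exp u) (Real.exp_pos u).le
    simp only [hadef]
    rw [Real.exp_neg, ← div_eq_mul_inv, div_le_iff₀ (Real.exp_pos u)]
    exact h1
  have hmono : ∀ u v, 0 < u → u ≤ v → a u * Real.exp u ≤ a v * Real.exp v := by
    intro u v _ huv
    simp only [hadef]
    rw [mul_assoc, mul_assoc, ← Real.exp_add, ← Real.exp_add]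
    simp only [neg_add_cancel, Real.exp_zero, mul_one]
    exact S_mono hf (Real.exp_le_exp.mpr huv)
  have key : Tendsto a atTop (𝓝 A) := by
    apply tauberian ha ha0 haC hmono
    intro l hl
    set H : ℂ → ℂ := fun s => (G (s + 1) - A) / (s + 1) with hHdef
    apply smoothed_tendsto_zero (b := fun u => a u - A) (ha.sub_const A) (C := C + |A|) (H := H)
    · intro u
      calc |a u - A| ≤ |a u| + |A| := abs_sub _ _
        _ ≤ C + |A| := by rw [abs_of_nonneg (ha0 u)]; linarith [haC u]
    · apply ContinuousOn.div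
      · apply ContinuousOn.sub _ continuousOn_const
        apply hG.comp (by fun_prop)
        intro s hs
        show 1 ≤ (s + 1).re
        simp only [Complex.add_re, Complex.one_re]
        have : 0 ≤ s.re := hs
        linarith
      · fun_prop
      · intro s hs h0
        have : 0 ≤ s.re := hs
        have h1 := congrArg Complex.re h0
        simp only [Complex.add_re, Complex.one_re, Complex.zero_re] at h1
        linarith
    · intro s hs
      have hs1 : 1 < (s + 1).re := by
        simp only [Complex.add_re, Complex.one_re]; linarith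
      have hO : (fun n ↦ ∑ k ∈ Finset.Icc 1 n, f k) =O[atTop] fun n ↦ (n : ℝ) ^ (1:ℝ) := by
        apply Asymptotics.IsBigO.of_bound C
        filter_upwards with n
        rw [Real.rpow_one, Real.norm_eq_abs, Real.norm_eq_abs, abs_of_nonneg (Finset.sum_nonneg (fun i _ => hf i)),
          abs_of_nonneg (Nat.cast_nonneg n)]
        exact hC n
      have hL := LSeries_eq_mul_integral_of_nonneg f (zero_le_one) hs1 hO hf
      have himg : Real.exp '' (Ioi 0) = Ioi 1 := by
        ext x
        constructor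
        · rintro ⟨y, hy, rfl⟩
          exact Real.one_lt_exp_iff.mpr hy
        · intro hx
          have hx' : (1:ℝ) < x := hx
          exact ⟨Real.log x, Real.log_pos hx', Real.exp_log (by linarith)⟩
      have hcv := integral_image_eq_integral_abs_deriv_smul (s := Ioi (0:ℝ)) (f := Real.exp) (f' := Real.exp)
        measurableSet_Ioi (fun x _ => (Real.hasDerivAt_exp x).hasDerivWithinAt)
        (Real.exp_injective.injOn) (fun t : ℝ => (∑ k ∈ Finset.Icc 1 ⌊t⌋₊, (f k : ℂ)) * (t : ℂ) ^ (-((s + 1) + 1)))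
      rw [himg] at hcv
      rw [hcv] at hL
      have hint : ∫ u in Ioi (0:ℝ), ((a u - A : ℝ) : ℂ) * Complex.exp (-s * u) =
          (∫ u in Ioi (0:ℝ), |Real.exp u| • ((∑ k ∈ Finset.Icc 1 ⌊Real.exp u⌋₊, (f k : ℂ)) *
            ((Real.exp u : ℝ) : ℂ) ^ (-((s + 1) + 1)))) - A * (1 / s) := by
        have e1 : ∀ u : ℝ, |Real.exp u| • ((∑ k ∈ Finset.Icc 1 ⌊Real.exp u⌋₊, (f k : ℂ)) *
            ((Real.exp u : ℝ) : ℂ) ^ (-((s + 1) + 1))) = (a u : ℂ) * Complex.exp (-s * u) := by
          intro u
          simp only [hadef]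
          unfold S
          rw [abs_of_pos (Real.exp_pos u), Complex.real_smul,
            Complex.cpow_def_of_ne_zero (by exact_mod_cast (Real.exp_pos u).ne'),
            ← Complex.ofReal_log (Real.exp_pos u).le, Real.log_exp]
          push_cast
          have : Complex.exp u * Complex.exp (u * (-((s + 1) + 1))) = Complex.exp (-u) * Complex.exp (-s * u) := by
            rw [← Complex.exp_add, ← Complex.exp_add]
            congr 1
            ring
          linear_combination (∑ k ∈ Finset.Icc 1 ⌊Real.exp u⌋₊, (f k : ℂ)) * this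
        simp_rw [e1]
        have hre : (-s).re < 0 := by simpa using hs
        have hexp := integrableOn_exp_mul_complex_Ioi hre 0
        have e2 : ∫ u in Ioi (0:ℝ), (A : ℂ) * Complex.exp (-s * u) = A * (1 / s) := by
          rw [integral_const_mul, integral_exp_mul_complex_Ioi hre]
          simp
        rw [← e2, ← integral_sub]
        · congr 1
          ext u
          push_cast
          ring
        · refine Integrable.bdd_mul (c := C) hexp ?_ ?_
          · exact (Complex.measurable_ofReal.comp ha).aestronglyMeasurable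
          · filter_upwards with u
            rw [Complex.norm_real, Real.norm_eq_abs, abs_of_nonneg (ha0 u)]
            exact haC u
        · exact hexp.const_mul _
      rw [hint]
      simp only [hHdef]
      rw [hGf (s + 1) hs1, hL]
      have hs0 : s ≠ 0 := by
        rintro rfl
        simp at hs
      have hs2 : s + 1 ≠ 0 := by
        intro h0
        rw [h0] at hs1
        simp at hs1
        linarith
      have hs3 : s + 1 - 1 = s := by ring
      rw [hs3]
      field_simp
      ring
    · exact hl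
  have h1 : Tendsto (fun n : ℕ => a (Real.log n)) atTop (𝓝 A) :=
    key.comp (Real.tendsto_log_atTop.comp tendsto_natCast_atTop_atTop)
  refine h1.congr' ?_
  filter_upwards [eventually_gt_atTop 0] with n hn
  have hn' : (0:ℝ) < n := by exact_mod_cast hn
  simp only [hadef]
  rw [Real.exp_neg, Real.exp_log hn', div_eq_mul_inv]
  unfold S
  rw [Nat.floor_natCast]

end Helper96.WI
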