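import Mathlib
import Pool.Agent.Helper96.WienerIkehara

/-!
# The prime number theorem, and the prime number theorem in arithmetic progressions

From Wiener–Ikehara (`Helper96.WI.wiener_ikehara`) and the nonvanishing of Dirichlet L-functions on
`Re s = 1` (Mathlib).
-/

open Filter Topology Finset Real
open ArithmeticFunction (vonMangoldt)
open ArithmeticFunction.vonMangoldt (residueClass)
open scoped Chebyshev

namespace Helper96.PNT

variable {q : ℕ}

/-- `ψ(x; q, a)` -/
noncomputable def psiAP (a : ZMod q) (x : ℝ) : ℝ := ∑ k ∈ Icc 1 ⌊x⌋₊, residueClass a k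

open Classical in
/-- primes up to `x` in the residue class `a` mod `q` -/
noncomputable def primesAP (a : ZMod q) (x : ℝ) : Finset ℕ :=
  (Icc 1 ⌊x⌋₊).filter (fun p : ℕ => p.Prime ∧ (p : ZMod q) = a)

/-- `θ(x; q, a)` -/
noncomputable def thetaAP (a : ZMod q) (x : ℝ) : ℝ :=
  ∑ p ∈ primesAP a x, log (p : ℝ)

/-- `π(x; q, a)` -/
noncomputable def piAP (a : ZMod q) (x : ℝ) : ℕ := #(primesAP a x)

theorem psi_ap_nat [NeZero q] {a : ZMod q} (ha : IsUnit a) :
    Tendsto (fun n : ℕ => (∑ k ∈ Icc 1 n, residueClass a k) / (n : ℝ)) atTop (𝓝 ((q.totient : ℝ)⁻¹)) := by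
  refine Helper96.WI.wiener_ikehara (C := Real.log 4 + 4)
    (G := ArithmeticFunction.vonMangoldt.LFunctionResidueClassAux a) ?_ ?_ ?_ ?_
  · exact fun n => ArithmeticFunction.vonMangoldt.residueClass_nonneg a n
  · intro n
    calc ∑ k ∈ Icc 1 n, residueClass a k ≤ ∑ k ∈ Icc 1 n, vonMangoldt k :=
          sum_le_sum (fun k _ => ArithmeticFunction.vonMangoldt.residueClass_le a k)
      _ = ψ (n : ℝ) := by
          unfold Chebyshev.psi
          rw [Nat.floor_natCast]
          rfl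
      _ ≤ (Real.log 4 + 4) * n := Chebyshev.psi_le_const_mul_self (Nat.cast_nonneg n)
  · exact ArithmeticFunction.vonMangoldt.continuousOn_LFunctionResidueClassAux a
  · intro s hs
    have := ArithmeticFunction.vonMangoldt.eqOn_LFunctionResidueClassAux ha hs
    rw [this]
    push_cast
    rfl

theorem psi_ap [NeZero q] {a : ZMod q} (ha : IsUnit a) :
    Tendsto (fun x : ℝ => psiAP a x / x) atTop (𝓝 ((q.totient : ℝ)⁻¹)) := by
  have h1 := (psi_ap_nat ha).comp (tendsto_nat_floor_atTop (α := ℝ))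
  have h2 := tendsto_nat_floor_div_atTop (R := ℝ)
  have h3 := h1.mul h2
  rw [mul_one] at h3
  refine h3.congr' ?_
  filter_upwards [eventually_ge_atTop 1] with x hx
  have hx0 : 0 < x := by linarith
  have hfl : (0:ℝ) < ⌊x⌋₊ := by
    have : 0 < ⌊x⌋₊ := Nat.floor_pos.mpr hx
    exact_mod_cast this
  simp only [Function.comp_apply, psiAP]
  field_simp

lemma thetaAP_le_psiAP (a : ZMod q) (x : ℝ) : thetaAP a x ≤ psiAP a x := by
  classical
  unfold thetaAP primesAP psiAP
  rw [sum_filter]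
  apply sum_le_sum
  intro k hk
  split_ifs with h
  · unfold residueClass
    rw [Set.indicator_of_mem (show k ∈ {n : ℕ | (n : ZMod q) = a} from h.2)]
    rw [ArithmeticFunction.vonMangoldt_apply_prime h.1]
  · exact ArithmeticFunction.vonMangoldt.residueClass_nonneg a k

lemma psiAP_sub_thetaAP_le (a : ZMod q) (x : ℝ) : psiAP a x - thetaAP a x ≤ ψ x - θ x := by
  classical
  have hψ : ψ x = ∑ k ∈ Icc 1 ⌊x⌋₊, vonMangoldt k := rfl
  have hθ : θ x = ∑ k ∈ Icc 1 ⌊x⌋₊, if k.Prime then log k else 0 := by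
    rw [← sum_filter]
    rfl
  unfold thetaAP primesAP psiAP
  rw [sum_filter, hψ, hθ, ← sum_sub_distrib, ← sum_sub_distrib]
  apply sum_le_sum
  intro k hk
  by_cases h1 : k.Prime
  · have h2 := ArithmeticFunction.vonMangoldt_apply_prime h1
    by_cases h3 : (k : ZMod q) = a
    · rw [if_pos ⟨h1, h3⟩, if_pos h1]
      unfold residueClass
      rw [Set.indicator_of_mem (show k ∈ {n : ℕ | (n : ZMod q) = a} from h3)]
    · rw [if_neg (fun h => h3 h.2), if_pos h1]
      unfold residueClass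
      rw [Set.indicator_of_notMem (show k ∉ {n : ℕ | (n : ZMod q) = a} from h3)]
      rw [h2]
      simp
  · rw [if_neg (fun h => h1 h.1), if_neg h1]
    simp only [sub_zero]
    exact ArithmeticFunction.vonMangoldt.residueClass_le a k

lemma sqrt_log_tendsto : Tendsto (fun x : ℝ => 2 * √x * log x / x) atTop (𝓝 0) := by
  have h1 := (isLittleO_log_rpow_atTop (r := 1/2) (by norm_num)).tendsto_div_nhds_zero
  have h2 := h1.const_mul 2
  rw [mul_zero] at h2
  refine h2.congr' ?_
  filter_upwards [eventually_gt_atTop 0] with x hx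
  rw [← Real.sqrt_eq_rpow]
  have : √x * √x = x := Real.mul_self_sqrt hx.le
  have h3 : 0 < √x := Real.sqrt_pos.mpr hx
  field_simp
  rw [sq, this]

theorem theta_ap [NeZero q] {a : ZMod q} (ha : IsUnit a) :
    Tendsto (fun x : ℝ => thetaAP a x / x) atTop (𝓝 ((q.totient : ℝ)⁻¹)) := by
  have h1 := psi_ap ha
  have h2 := h1.sub sqrt_log_tendsto
  rw [sub_zero] at h2
  refine tendsto_of_tendsto_of_tendsto_of_le_of_le' h2 h1 ?_ ?_
  · filter_upwards [eventually_ge_atTop 1] with x hx
    have hx0 : 0 < x := by linarith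
    rw [← sub_div]
    apply div_le_div_of_nonneg_right _ hx0.le
    have h3 := psiAP_sub_thetaAP_le a x
    have h4 := Chebyshev.psi_sub_theta_le hx
    linarith
  · filter_upwards [eventually_ge_atTop 1] with x hx
    have hx0 : 0 < x := by linarith
    apply div_le_div_of_nonneg_right _ hx0.le
    exact thetaAP_le_psiAP a x

lemma thetaAP_le_piAP (a : ZMod q) {x : ℝ} (hx : 0 ≤ x) : thetaAP a x ≤ piAP a x * log x := by
  unfold thetaAP piAP
  rw [← nsmul_eq_mul]
  apply sum_le_card_nsmul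
  intro p hp
  rw [primesAP, mem_filter, mem_Icc] at hp
  apply log_le_log
  · exact_mod_cast hp.2.1.pos
  · exact (Nat.le_floor_iff hx).mp hp.1.2

lemma piAP_le (a : ZMod q) {x y : ℝ} (hy : 1 < y) :
    (piAP a x : ℝ) ≤ y + thetaAP a x / log y := by
  classical
  have hly : 0 < log y := log_pos hy
  unfold piAP
  have hsplit : primesAP a x ⊆
      Icc 1 ⌊y⌋₊ ∪ (primesAP a x).filter (fun p : ℕ => y < p) := by
    intro p hp
    rw [mem_union, mem_Icc, mem_filter]
    by_cases h : y < p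
    · right; exact ⟨hp, h⟩
    · left
      rw [primesAP, mem_filter] at hp
      refine ⟨hp.2.1.one_lt.le, ?_⟩
      rw [Nat.le_floor_iff (by linarith)]
      exact not_lt.mp h
  have h1 := (card_le_card hsplit).trans (card_union_le _ _)
  have h2 : ((#((primesAP a x).filter (fun p : ℕ => y < p)) : ℕ) : ℝ) * log y ≤ thetaAP a x := by
    unfold thetaAP
    rw [← nsmul_eq_mul]
    refine le_trans (card_nsmul_le_sum _ (fun p : ℕ => log p) _ ?_) ?_
    · intro p hp
      rw [mem_filter] at hp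
      exact log_le_log (by linarith) hp.2.le
    · apply sum_le_sum_of_subset_of_nonneg
      · exact filter_subset _ _
      · intro p hp _
        rw [primesAP, mem_filter, mem_Icc] at hp
        exact log_nonneg (by exact_mod_cast hp.1.1)
  have h3 : ((#((primesAP a x).filter (fun p : ℕ => y < p)) : ℕ) : ℝ) ≤ thetaAP a x / log y := by
    rw [le_div_iff₀ hly]; exact h2
  have h4 : ((#(Icc 1 ⌊y⌋₊) : ℕ) : ℝ) ≤ y := by
    rw [Nat.card_Icc]
    simp
    exact Nat.floor_le (by linarith)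
  have h5 : ((#(primesAP a x) : ℕ) : ℝ) ≤
      (#(Icc 1 ⌊y⌋₊) : ℕ) + ((#((primesAP a x).filter (fun p : ℕ => y < p)) : ℕ) : ℝ) := by
    exact_mod_cast h1
  linarith

/-- Prime number theorem in arithmetic progressions. -/
theorem pi_ap [NeZero q] {a : ZMod q} (ha : IsUnit a) :
    Tendsto (fun x : ℝ => piAP a x * log x / x) atTop (𝓝 ((q.totient : ℝ)⁻¹)) := by
  have hφ : (0:ℝ) < (q.totient : ℝ)⁻¹ := by
    have : 0 < q.totient := Nat.totient_pos.mpr (NeZero.pos q)
    positivity
  have hθ := theta_ap ha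
  rw [tendsto_order]
  constructor
  · intro B hB
    filter_upwards [hθ.eventually_const_lt hB, eventually_ge_atTop 1] with x hx hx1
    refine hx.trans_le ?_
    have hx0 : 0 < x := by linarith
    apply div_le_div_of_nonneg_right _ hx0.le
    exact thetaAP_le_piAP a hx0.le
  · intro B hB
    -- choose `r < 1` with `φ⁻¹ / r < B`
    obtain ⟨r, hr0, hr1, hrB⟩ : ∃ r : ℝ, 0 < r ∧ r < 1 ∧ (q.totient : ℝ)⁻¹ / r < B := by
      have h1 : Tendsto (fun r : ℝ => (q.totient : ℝ)⁻¹ / r) (𝓝[<] 1) (𝓝 ((q.totient : ℝ)⁻¹ / 1)) := by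
        apply Tendsto.mono_left _ nhdsWithin_le_nhds
        apply Tendsto.div tendsto_const_nhds tendsto_id one_ne_zero
      rw [div_one] at h1
      have h2 : ∀ᶠ r : ℝ in 𝓝[<] 1, r ∈ Set.Ioo (0:ℝ) 1 := Ioo_mem_nhdsLT (by norm_num)
      obtain ⟨r, hr1, hr2⟩ := ((h1.eventually_lt_const hB).and h2).exists
      exact ⟨r, hr2.1, hr2.2, hr1⟩
    have h1 : Tendsto (fun x : ℝ => x ^ r * log x / x + (thetaAP a x / x) / r) atTop
        (𝓝 (0 + (q.totient : ℝ)⁻¹ / r)) := by
      apply Tendsto.add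
      · have h2 := (isLittleO_log_rpow_atTop (r := 1 - r) (by linarith)).tendsto_div_nhds_zero
        refine h2.congr' ?_
        filter_upwards [eventually_gt_atTop 0] with x hx
        rw [Real.rpow_sub hx, Real.rpow_one]
        have : 0 < x ^ r := Real.rpow_pos_of_pos hx r
        field_simp
      · exact hθ.div_const r
    rw [zero_add] at h1
    filter_upwards [h1.eventually_lt_const hrB, eventually_gt_atTop 1] with x hx hx1
    refine lt_of_le_of_lt ?_ hx
    have hx0 : 0 < x := by linarith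
    have hlx : 0 < log x := log_pos hx1
    have hy : 1 < x ^ r := Real.one_lt_rpow hx1 hr0
    have h3 := piAP_le a (x := x) hy
    rw [Real.log_rpow hx0] at h3
    have h4 : (piAP a x : ℝ) * log x / x ≤ (x ^ r + thetaAP a x / (r * log x)) * log x / x := by
      apply div_le_div_of_nonneg_right _ hx0.le
      exact mul_le_mul_of_nonneg_right h3 hlx.le
    refine h4.trans (le_of_eq ?_)
    field_simp


/-! ### The modulus one case -/

lemma isUnit_zmod_one : IsUnit (1 : ZMod 1) := isUnit_one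

lemma primesAP_one (x : ℝ) : primesAP (1 : ZMod 1) x = Nat.primesLE ⌊x⌋₊ := by
  ext p
  rw [primesAP, mem_filter, mem_Icc, Nat.mem_primesLE]
  constructor
  · rintro ⟨⟨_, h⟩, h1, _⟩
    exact ⟨h, h1⟩
  · rintro ⟨h, h1⟩
    exact ⟨⟨h1.one_lt.le, h⟩, h1, Subsingleton.elim _ _⟩

/-- **Prime number theorem**: `θ(x) ~ x`. -/
theorem theta_tendsto : Tendsto (fun x : ℝ => θ x / x) atTop (𝓝 1) := by
  have h := theta_ap isUnit_zmod_one
  simp only [Nat.totient_one, Nat.cast_one, inv_one] at h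
  refine h.congr ?_
  intro x
  congr 1
  unfold thetaAP
  rw [primesAP_one, Chebyshev.theta_eq_sum_primesLE]

/-- **Prime number theorem**: `ψ(x) ~ x`. -/
theorem psi_tendsto : Tendsto (fun x : ℝ => ψ x / x) atTop (𝓝 1) := by
  have h1 := theta_tendsto
  have h2 := h1.add sqrt_log_tendsto
  rw [add_zero] at h2
  refine tendsto_of_tendsto_of_tendsto_of_le_of_le' h1 h2 ?_ ?_
  · filter_upwards [eventually_ge_atTop 1] with x hx
    have hx0 : 0 < x := by linarith
    apply div_le_div_of_nonneg_right _ hx0.le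
    exact Chebyshev.theta_le_psi x
  · filter_upwards [eventually_ge_atTop 1] with x hx
    have hx0 : 0 < x := by linarith
    rw [← add_div]
    apply div_le_div_of_nonneg_right _ hx0.le
    have h4 := Chebyshev.psi_sub_theta_le hx
    linarith

open scoped Nat.Prime in
/-- **Prime number theorem**: `π(x) ~ x / log x`. -/
theorem pi_tendsto : Tendsto (fun x : ℝ => (π ⌊x⌋₊ : ℝ) * log x / x) atTop (𝓝 1) := by
  have h := pi_ap isUnit_zmod_one
  simp only [Nat.totient_one, Nat.cast_one, inv_one] at h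
  refine h.congr ?_
  intro x
  unfold piAP
  rw [primesAP_one]
  congr 3
  rw [Nat.primeCounting, Nat.primeCounting', Nat.count_eq_card_filter_range]
  rfl

/-! ### Primes in short intervals `((1-c)x, x]` -/

open Classical in
/-- primes in `(y, x]` in a residue class -/
noncomputable def primesIoc (a : ZMod q) (y x : ℝ) : Finset ℕ :=
  (primesAP a x).filter (fun p : ℕ => y < p)

/-- For `0 < c ≤ 1`, `θ(x;q,a) - θ((1-c)x;q,a) ~ c x / φ(q)`. -/
theorem theta_short [NeZero q] {a : ZMod q} (ha : IsUnit a) {c : ℝ} (hc1 : c < 1) :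
    Tendsto (fun x : ℝ => (thetaAP a x - thetaAP a ((1 - c) * x)) / x) atTop (𝓝 (c * (q.totient : ℝ)⁻¹)) := by
  have h := theta_ap ha
  have h1 : Tendsto (fun x : ℝ => (1 - c) * x) atTop atTop := tendsto_id.const_mul_atTop (by linarith)
  have h2 := (h.comp h1).const_mul (1 - c)
  have h3 := h.sub h2
  have h4 : (q.totient : ℝ)⁻¹ - (1 - c) * (q.totient : ℝ)⁻¹ = c * (q.totient : ℝ)⁻¹ := by ring
  rw [h4] at h3
  refine h3.congr' ?_
  filter_upwards [eventually_gt_atTop 0] with x hx
  simp only [Function.comp_apply]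
  have : 1 - c ≠ 0 := by linarith
  field_simp


lemma mem_primesAP {a : ZMod q} {x : ℝ} (hx : 0 ≤ x) {p : ℕ} :
    p ∈ primesAP a x ↔ (p : ℝ) ≤ x ∧ p.Prime ∧ (p : ZMod q) = a := by
  rw [primesAP, mem_filter, mem_Icc]
  constructor
  · rintro ⟨⟨_, h⟩, h1⟩
    exact ⟨(Nat.le_floor_iff hx).mp h, h1⟩
  · rintro ⟨h, h1⟩
    exact ⟨⟨h1.1.one_lt.le, (Nat.le_floor_iff hx).mpr h⟩, h1⟩

lemma mem_primesIoc {a : ZMod q} {x y : ℝ} (hx : 0 ≤ x) {p : ℕ} :
    p ∈ primesIoc a y x ↔ y < p ∧ (p : ℝ) ≤ x ∧ p.Prime ∧ (p : ZMod q) = a := by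
  rw [primesIoc, mem_filter, mem_primesAP hx]
  tauto

lemma theta_sub_eq (a : ZMod q) {x y : ℝ} (hy : 0 ≤ y) (hyx : y ≤ x) :
    thetaAP a x - thetaAP a y = ∑ p ∈ primesIoc a y x, log (p : ℝ) := by
  have hsub : primesAP a y ⊆ primesAP a x := by
    intro p hp
    rw [mem_primesAP hy] at hp
    rw [mem_primesAP (hy.trans hyx)]
    exact ⟨hp.1.trans hyx, hp.2⟩
  unfold thetaAP
  rw [← sum_sdiff hsub, add_sub_cancel_right]
  apply sum_congr _ (fun _ _ => rfl)
  ext p
  rw [Finset.mem_sdiff, mem_primesAP hy, mem_primesAP (hy.trans hyx), mem_primesIoc (hy.trans hyx)]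
  constructor
  · rintro ⟨h1, h2⟩
    refine ⟨?_, h1⟩
    by_contra h3
    exact h2 ⟨not_lt.mp h3, h1.2⟩
  · rintro ⟨h1, h2⟩
    exact ⟨h2, fun h3 => absurd h3.1 (not_le.mpr h1)⟩

/-- PNT in short intervals `((1-c)x, x]` and arithmetic progressions:
`#{p ∈ ((1-c)x, x] : p ≡ a (q)} ~ c x / (φ(q) log x)`. -/
theorem primesIoc_tendsto [NeZero q] {a : ZMod q} (ha : IsUnit a) {c : ℝ} (hc0 : 0 ≤ c) (hc1 : c < 1) :
    Tendsto (fun x : ℝ => (#(primesIoc a ((1 - c) * x) x) : ℝ) * log x / x) atTop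
      (𝓝 (c * (q.totient : ℝ)⁻¹)) := by
  have h := theta_short ha hc1
  have hlog : Tendsto (fun x : ℝ => log x / log ((1 - c) * x)) atTop (𝓝 1) := by
    have h1 : Tendsto (fun x : ℝ => log (1 - c) / log x) atTop (𝓝 0) :=
      tendsto_const_nhds.div_atTop tendsto_log_atTop
    have h2 : Tendsto (fun x : ℝ => (log (1 - c) / log x + 1)⁻¹) atTop (𝓝 ((0 + 1)⁻¹)) :=
      (h1.add_const 1).inv₀ (by norm_num)
    rw [zero_add, inv_one] at h2
    refine h2.congr' ?_
    filter_upwards [eventually_gt_atTop 1] with x hx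
    have hlx : 0 < log x := log_pos hx
    rw [Real.log_mul (by linarith) (by linarith)]
    rw [← inv_div]
    field_simp
  have h3 := h.mul hlog
  rw [mul_one] at h3
  refine tendsto_of_tendsto_of_tendsto_of_le_of_le' h h3 ?_ ?_
  · filter_upwards [eventually_gt_atTop 1] with x hx
    have hx0 : 0 < x := by linarith
    apply div_le_div_of_nonneg_right _ hx0.le
    rw [theta_sub_eq a (mul_nonneg (by linarith) hx0.le) (by nlinarith), ← nsmul_eq_mul]
    apply sum_le_card_nsmul
    intro p hp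
    rw [mem_primesIoc hx0.le] at hp
    exact log_le_log (by exact_mod_cast hp.2.2.1.pos) hp.2.1
  · have h5 : Tendsto (fun x : ℝ => (1 - c) * x) atTop atTop := tendsto_id.const_mul_atTop (by linarith)
    filter_upwards [eventually_gt_atTop 1, h5.eventually_gt_atTop 1] with x hx hx2
    have hx0 : 0 < x := by linarith
    have hlx : 0 < log x := log_pos hx
    have hly : 0 < log ((1 - c) * x) := log_pos hx2
    have h6 : (#(primesIoc a ((1 - c) * x) x) : ℝ) * log ((1 - c) * x) ≤ thetaAP a x - thetaAP a ((1 - c) * x) := by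
      rw [theta_sub_eq a (mul_nonneg (by linarith) hx0.le) (by nlinarith), ← nsmul_eq_mul]
      apply card_nsmul_le_sum
      intro p hp
      rw [mem_primesIoc hx0.le] at hp
      exact log_le_log (by linarith) hp.1.le
    have h7 : (#(primesIoc a ((1 - c) * x) x) : ℝ) ≤ (thetaAP a x - thetaAP a ((1 - c) * x)) / log ((1 - c) * x) := by
      rw [le_div_iff₀ hly]; exact h6
    calc _ ≤ ((thetaAP a x - thetaAP a ((1 - c) * x)) / log ((1 - c) * x)) * log x / x := by
          apply div_le_div_of_nonneg_right _ hx0.le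
          exact mul_le_mul_of_nonneg_right h7 hlx.le
      _ = _ := by field_simp

/-- For every `0 < c < 1` and all large `x` there are at least `c x / (2 log x)` primes in
`((1-c)x, x]`. -/
theorem eventually_primes_short {c : ℝ} (hc0 : 0 < c) (hc1 : c < 1) :
    ∀ᶠ x : ℝ in atTop, c / 2 * x / log x ≤
      (#((Icc 1 ⌊x⌋₊).filter (fun p : ℕ => p.Prime ∧ (1 - c) * x < p)) : ℝ) := by
  have h := primesIoc_tendsto isUnit_zmod_one hc0.le hc1
  simp only [Nat.totient_one, Nat.cast_one, inv_one, mul_one] at h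
  filter_upwards [h.eventually_const_lt (show c / 2 < c by linarith), eventually_gt_atTop 1] with x hx hx1
  have hx0 : 0 < x := by linarith
  have hlx : 0 < log x := log_pos hx1
  rw [div_le_iff₀ hlx, ← le_div_iff₀ hx0]
  refine hx.le.trans (le_of_eq ?_)
  congr 4
  ext p
  rw [mem_primesIoc hx0.le, mem_filter, mem_Icc, Nat.le_floor_iff hx0.le]
  constructor
  · rintro ⟨h1, h2, h3, _⟩
    exact ⟨⟨h3.one_lt.le, h2⟩, h3, h1⟩
  · rintro ⟨⟨_, h2⟩, h3, h1⟩
    exact ⟨h1, h2, h3, Subsingleton.elim _ _⟩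

/-- For every `0 < c < 1`, every residue class `a` coprime to `q` and all large `x` there is a prime
`p ≡ a (mod q)` in `((1-c)x, x]`. -/
theorem eventually_exists_prime [NeZero q] {a : ZMod q} (ha : IsUnit a) {c : ℝ} (hc0 : 0 < c)
    (hc1 : c < 1) :
    ∀ᶠ x : ℝ in atTop, ∃ p : ℕ, p.Prime ∧ (p : ZMod q) = a ∧ (1 - c) * x < p ∧ (p : ℝ) ≤ x := by
  have h := primesIoc_tendsto ha hc0.le hc1
  have hφ : (0:ℝ) < (q.totient : ℝ)⁻¹ := by
    have : 0 < q.totient := Nat.totient_pos.mpr (NeZero.pos q)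
    positivity
  filter_upwards [h.eventually_const_lt (show 0 < c * (q.totient : ℝ)⁻¹ by positivity),
    eventually_gt_atTop 1] with x hx hx1
  have hx0 : 0 < x := by linarith
  have hne : (primesIoc a ((1 - c) * x) x).Nonempty := by
    rw [nonempty_iff_ne_empty]
    intro h0
    rw [h0] at hx
    simp at hx
  obtain ⟨p, hp⟩ := hne
  rw [mem_primesIoc hx0.le] at hp
  exact ⟨p, hp.2.2.1, hp.2.2.2, hp.1, hp.2.1⟩

end Helper96.PNT
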