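import Mathlib

/-!
# Harmonic sums over `B`-rough squarefree numbers
-/

open Finset

namespace Helper96.D6

/-- sum comparison along an injection into a finite set with nonnegative weights -/
lemma sum_le_sum_inj {α β : Type*} [DecidableEq β] {s : Finset α} {t : Finset β} {f : α → ℝ} {g : β → ℝ}
    (e : α → β) (he : ∀ a ∈ s, e a ∈ t) (hinj : Set.InjOn e s) (hg : ∀ b ∈ t, 0 ≤ g b)
    (hfg : ∀ a ∈ s, f a ≤ g (e a)) : ∑ a ∈ s, f a ≤ ∑ b ∈ t, g b := by
  calc ∑ a ∈ s, f a ≤ ∑ a ∈ s, g (e a) := sum_le_sum hfg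
    _ = ∑ b ∈ s.image e, g b := (sum_image (fun a ha b hb h => hinj ha hb h)).symm
    _ ≤ ∑ b ∈ t, g b := by
        apply sum_le_sum_of_subset_of_nonneg
        · intro b hb
          obtain ⟨a, ha, rfl⟩ := mem_image.mp hb
          exact he a ha
        · intro b hb _
          exact hg b hb

open Classical in
/-- `B`-rough squarefree numbers up to `X`. -/
noncomputable def roughSqf (B X : ℕ) : Finset ℕ :=
  (Icc 1 X).filter (fun k => Squarefree k ∧ ∀ q : ℕ, q.Prime → q ∣ k → B < q)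

lemma mem_roughSqf {B X k : ℕ} : k ∈ roughSqf B X ↔
    (1 ≤ k ∧ k ≤ X) ∧ Squarefree k ∧ ∀ q : ℕ, q.Prime → q ∣ k → B < q := by
  simp only [roughSqf, mem_filter, mem_Icc]

/-- primes up to `B` -/
def primesUpTo (B : ℕ) : Finset ℕ := (Icc 1 B).filter Nat.Prime

lemma mem_primesUpTo {B p : ℕ} : p ∈ primesUpTo B ↔ p ≤ B ∧ p.Prime := by
  unfold primesUpTo
  rw [mem_filter, mem_Icc]
  constructor
  · rintro ⟨⟨_, h⟩, h1⟩; exact ⟨h, h1⟩
  · rintro ⟨h, h1⟩; exact ⟨⟨h1.one_lt.le, h⟩, h1⟩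

lemma sum_inv_sq_le (X : ℕ) : ∑ t ∈ Icc 1 X, (1 : ℝ) / (t : ℝ) ^ 2 ≤ 2 := by
  have h : ∀ X : ℕ, 1 ≤ X → ∑ t ∈ Icc 1 X, (1 : ℝ) / (t : ℝ) ^ 2 ≤ 2 - 1 / X := by
    intro X hX
    induction X, hX using Nat.le_induction with
    | base => norm_num
    | succ n hn ih =>
      rw [sum_Icc_succ_top (by omega)]
      have hn' : (0:ℝ) < n := by exact_mod_cast hn
      have : (1 : ℝ) / ((n + 1 : ℕ) : ℝ) ^ 2 ≤ 1 / n - 1 / ((n + 1 : ℕ) : ℝ) := by
        push_cast
        rw [div_sub_div _ _ (by positivity) (by positivity), div_le_div_iff₀ (by positivity) (by positivity)]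
        nlinarith
      linarith
  rcases Nat.eq_zero_or_pos X with rfl | hX
  · simp
  · have h1 := h X hX
    have : (0:ℝ) ≤ 1 / X := by positivity
    linarith

/-- The basic decomposition: `H(X) ≤ 2 ∏_{p ≤ B} (1 + 1/p) ∑_{k ≤ X, B-rough sqfree} 1/k`. -/
theorem harmonic_le (B X : ℕ) :
    ∑ n ∈ Icc 1 X, (1 : ℝ) / n ≤
      2 * (∏ p ∈ primesUpTo B, (1 + 1 / (p : ℝ))) * ∑ k ∈ roughSqf B X, (1 : ℝ) / k := by
  classical
  -- the decomposition
  have hdec : ∀ n ∈ Icc 1 X, ∃ x : ℕ × Finset ℕ × ℕ,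
      x ∈ (Icc 1 X) ×ˢ ((primesUpTo B).powerset ×ˢ roughSqf B X) ∧
      n = x.1 ^ 2 * ((∏ p ∈ x.2.1, p) * x.2.2) := by
    intro n hn
    rw [mem_Icc] at hn
    obtain ⟨s, t, hs0, ht0, hst, hsq⟩ := Nat.sq_mul_squarefree_of_pos (show 0 < n by omega)
    set S := s.primeFactors.filter (fun p => p ≤ B) with hS
    set k := ∏ p ∈ s.primeFactors.filter (fun p => ¬ p ≤ B), p with hk
    have hsk : s = (∏ p ∈ S, p) * k := by
      rw [hS, hk, prod_filter_mul_prod_filter_not, Nat.prod_primeFactors_of_squarefree hsq]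
    have hk0 : 0 < k := by
      rcases Nat.eq_zero_or_pos k with h | h
      · rw [h, mul_zero] at hsk; omega
      · exact h
    have hS0 : 0 < ∏ p ∈ S, p := by
      rcases Nat.eq_zero_or_pos (∏ p ∈ S, p) with h | h
      · rw [h, zero_mul] at hsk; omega
      · exact h
    have hsn : s ≤ n := by
      rw [← hst]
      exact Nat.le_mul_of_pos_left _ (by positivity)
    have htn : t ≤ n := by
      rw [← hst]
      calc t ≤ t ^ 2 := Nat.le_self_pow (by norm_num) t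
        _ ≤ t ^ 2 * s := Nat.le_mul_of_pos_right _ hs0
    have hks : k ≤ s := by
      rw [hsk]
      exact Nat.le_mul_of_pos_left _ hS0
    refine ⟨(t, S, k), ?_, ?_⟩
    · rw [mem_product, mem_product, mem_powerset, mem_Icc, mem_roughSqf]
      have hkX : k ≤ X := by omega
      refine ⟨⟨ht0, by omega⟩, ?_, ⟨hk0, hkX⟩, ?_, ?_⟩
      · intro p hp
        rw [hS, mem_filter] at hp
        rw [mem_primesUpTo]
        exact ⟨hp.2, Nat.prime_of_mem_primeFactors hp.1⟩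
      · exact hsq.squarefree_of_dvd (by rw [hsk]; exact Dvd.intro_left _ rfl)
      · intro q hq hqk
        rw [hk, Prime.dvd_finsetProd_iff hq.prime] at hqk
        obtain ⟨p, hp, hqp⟩ := hqk
        rw [mem_filter] at hp
        rw [(Nat.prime_dvd_prime_iff_eq hq (Nat.prime_of_mem_primeFactors hp.1)).mp hqp]
        omega
    · simp only
      rw [← hsk, hst]
  choose! e he hen using hdec
  have h1 : ∑ n ∈ Icc 1 X, (1 : ℝ) / n ≤
      ∑ x ∈ (Icc 1 X) ×ˢ ((primesUpTo B).powerset ×ˢ roughSqf B X),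
        (1 / (x.1 : ℝ) ^ 2) * ((∏ p ∈ x.2.1, (1 / (p : ℝ))) * (1 / (x.2.2 : ℝ))) := by
    apply sum_le_sum_inj e he
    · intro a ha b hb hab
      rw [hen a ha, hen b hb, hab]
    · intro b _
      positivity
    · intro n hn
      have := hen n hn
      conv_lhs => rw [this]
      push_cast
      rw [prod_div_distrib]
      simp only [prod_const_one]
      rw [one_div_mul_one_div, one_div_mul_one_div]
  refine h1.trans ?_
  have h2 : ∑ x ∈ (Icc 1 X) ×ˢ ((primesUpTo B).powerset ×ˢ roughSqf B X),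
        (1 / (x.1 : ℝ) ^ 2) * ((∏ p ∈ x.2.1, (1 / (p : ℝ))) * (1 / (x.2.2 : ℝ))) =
      (∑ t ∈ Icc 1 X, (1 : ℝ) / (t : ℝ) ^ 2) * ((∏ p ∈ primesUpTo B, (1 + 1 / (p : ℝ))) *
        ∑ k ∈ roughSqf B X, (1 : ℝ) / k) := by
    rw [prod_one_add, sum_mul_sum, sum_product]
    simp_rw [← mul_sum]
    rw [← sum_mul]
    congr 1
    rw [sum_product]
    apply sum_congr rfl
    intro x _
    rw [mul_sum]
  rw [h2]
  have h3 := sum_inv_sq_le X
  have h4 : 0 ≤ (∏ p ∈ primesUpTo B, (1 + 1 / (p : ℝ))) * ∑ k ∈ roughSqf B X, (1 : ℝ) / k := by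
    positivity
  calc _ ≤ 2 * ((∏ p ∈ primesUpTo B, (1 + 1 / (p : ℝ))) * ∑ k ∈ roughSqf B X, (1 : ℝ) / k) :=
        mul_le_mul_of_nonneg_right h3 h4
    _ = _ := by ring

/-- Consequence with logarithms. -/
theorem log_le (B X : ℕ) :
    Real.log (X + 1) ≤
      2 * (∏ p ∈ primesUpTo B, (1 + 1 / (p : ℝ))) * ∑ k ∈ roughSqf B X, (1 : ℝ) / k := by
  refine le_trans ?_ (harmonic_le B X)
  have h := log_add_one_le_harmonic X
  push_cast at h
  refine h.trans (le_of_eq ?_)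
  rw [harmonic_eq_sum_Icc]
  push_cast
  simp [one_div]


/-! ### The product over small primes -/

lemma sum_inv_primes_le (B : ℕ) (hB : 1 ≤ B) :
    ∑ p ∈ primesUpTo B, 1 / (p : ℝ) ≤ 2 + 12 / 35 * Real.log B := by
  classical
  -- primes are `2`, `3` or `≡ ±1 mod 6`
  set J := B / 6 + 1 with hJ
  set T1 : Finset ℕ := (Icc 1 J).image (fun j : ℕ => 6 * j - 1) with hT1
  set T2 : Finset ℕ := (Icc 1 J).image (fun j : ℕ => 6 * j + 1) with hT2
  have hsub : primesUpTo B ⊆ ({2, 3} : Finset ℕ) ∪ (T1 ∪ T2) := by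
    intro p hp
    rw [mem_primesUpTo] at hp
    obtain ⟨hpB, hp⟩ := hp
    rw [mem_union, mem_union]
    by_cases h2 : p = 2
    · left; simp [h2]
    by_cases h3 : p = 3
    · left; simp [h3]
    right
    have hp2 : ¬ 2 ∣ p := by
      intro h
      rcases (Nat.dvd_prime hp).mp h with h | h <;> omega
    have hp3 : ¬ 3 ∣ p := by
      intro h
      rcases (Nat.dvd_prime hp).mp h with h | h <;> omega
    have h1 := hp.one_lt
    have h6 : p % 6 = 1 ∨ p % 6 = 5 := by omega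
    rcases h6 with h | h
    · right
      rw [hT2, mem_image]
      refine ⟨p / 6, ?_, by omega⟩
      rw [mem_Icc]
      omega
    · left
      rw [hT1, mem_image]
      refine ⟨p / 6 + 1, ?_, by omega⟩
      rw [mem_Icc]
      omega
  have h1 : ∑ p ∈ primesUpTo B, 1 / (p : ℝ) ≤ ∑ p ∈ ({2, 3} : Finset ℕ), 1 / (p : ℝ) +
      (∑ p ∈ T1, 1 / (p : ℝ) + ∑ p ∈ T2, 1 / (p : ℝ)) := by
    refine (sum_le_sum_of_subset_of_nonneg hsub (fun _ _ _ => by positivity)).trans ?_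
    have e1 := sum_union_inter (s₁ := ({2, 3} : Finset ℕ)) (s₂ := T1 ∪ T2) (f := fun p : ℕ => 1 / (p : ℝ))
    have e2 := sum_union_inter (s₁ := T1) (s₂ := T2) (f := fun p : ℕ => 1 / (p : ℝ))
    have e3 : 0 ≤ ∑ p ∈ ({2, 3} : Finset ℕ) ∩ (T1 ∪ T2), 1 / (p : ℝ) :=
      sum_nonneg (fun _ _ => by positivity)
    have e4 : 0 ≤ ∑ p ∈ T1 ∩ T2, 1 / (p : ℝ) :=
      sum_nonneg (fun _ _ => by positivity)
    linarith
  have h2 : ∑ p ∈ T1, 1 / (p : ℝ) + ∑ p ∈ T2, 1 / (p : ℝ) ≤ 12 / 35 * ∑ j ∈ Icc 1 J, 1 / (j : ℝ) := by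
    rw [hT1, hT2, sum_image (fun a ha b hb h => by
      simp only [coe_Icc, Set.mem_Icc] at ha hb
      omega), sum_image (fun a _ b _ h => by
      omega), ← sum_add_distrib, mul_sum]
    apply sum_le_sum
    intro j hj
    rw [mem_Icc] at hj
    have hj1 : (1:ℝ) ≤ j := by exact_mod_cast hj.1
    have hc1 : ((6 * j - 1 : ℕ) : ℝ) = 6 * j - 1 := by
      rw [Nat.cast_sub (by omega)]
      push_cast
      ring
    rw [hc1]
    push_cast
    rw [div_add_div _ _ (by linarith) (by linarith), div_mul_div_comm, div_le_div_iff₀ (by nlinarith) (by positivity)]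
    nlinarith
  have h3 : ∑ j ∈ Icc 1 J, 1 / (j : ℝ) ≤ 1 + Real.log J := by
    have := harmonic_le_one_add_log J
    rw [harmonic_eq_sum_Icc] at this
    push_cast at this
    simpa [one_div] using this
  have h4 : Real.log J ≤ Real.log B + Real.log 2 := by
    rw [← Real.log_mul (by exact_mod_cast (by omega : B ≠ 0)) (by norm_num)]
    apply Real.log_le_log
    · exact_mod_cast (by omega : 0 < J)
    · exact_mod_cast (by omega : J ≤ B * 2)
  have h5 : ∑ p ∈ ({2, 3} : Finset ℕ), 1 / (p : ℝ) = 5 / 6 := by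
    rw [sum_pair (by norm_num)]
    norm_num
  have h6 : Real.log 2 ≤ 1 := by
    have := Real.log_two_lt_d9
    linarith
  linarith

/-- `∏_{p ≤ B} (1 + 1/p) ≤ 8 B^(12/35)`. -/
lemma prod_primes_le (B : ℕ) (hB : 1 ≤ B) :
    ∏ p ∈ primesUpTo B, (1 + 1 / (p : ℝ)) ≤ 8 * (B : ℝ) ^ (12 / 35 : ℝ) := by
  have hB' : (0:ℝ) < B := by exact_mod_cast hB
  have h1 := Real.prod_one_add_le_exp_sum (primesUpTo B) (f := fun p : ℕ => 1 / (p : ℝ)) (fun _ => by positivity)
  refine h1.trans ?_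
  have h2 := Real.exp_le_exp.mpr (sum_inv_primes_le B hB)
  refine h2.trans ?_
  rw [Real.exp_add, Real.rpow_def_of_pos hB', mul_comm (Real.log (B:ℝ))]
  apply mul_le_mul_of_nonneg_right _ (Real.exp_pos _).le
  have h3 : Real.exp 2 = Real.exp 1 * Real.exp 1 := by rw [← Real.exp_add]; norm_num
  rw [h3]
  have := Real.exp_one_lt_d9
  have := Real.exp_pos 1
  nlinarith

end Helper96.D6
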