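import Mathlib
import Pool.Agent.Helper96.PNT
import Pool.Agent.Helper96.D6A

/-!
# Lower bound for the number of `m = k P` in `(N/2, N]`
-/

open Finset Filter

namespace Helper96.D6

/-- Property (a). -/
def PropA (B G m : ℕ) : Prop := ∃ k P : ℕ, m = k * P ∧ P.Prime ∧ 2 ≤ k ∧ k < G ∧ Squarefree k ∧
    (∀ q : ℕ, q.Prime → q ∣ k → B < q)

open Classical in
noncomputable def setA (B G N : ℕ) : Finset ℕ := (Ioc (N / 2) N).filter (fun m => PropA B G m)

/-- primes `P` with `N/2 < k P ≤ N` -/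
def primesK (N k : ℕ) : Finset ℕ := (Icc 1 N).filter (fun p => p.Prime ∧ N < 2 * (k * p) ∧ k * p ≤ N)

lemma card_setA_ge (B G N : ℕ) (hG : 2 ≤ G) (hGN : 2 * G ^ 2 ≤ N)
    (hpr : ∀ k : ℕ, 1 ≤ k → k < G → (N : ℝ) / (4 * Real.log N) * (1 / k) ≤ #(primesK N k)) :
    (N : ℝ) / (4 * Real.log N) * (∑ k ∈ roughSqf B (G - 1), (1 : ℝ) / k - 1) ≤ #(setA B G N) := by
  classical
  set K := (roughSqf B (G - 1)).erase 1 with hK
  have h1mem : 1 ∈ roughSqf B (G - 1) := by
    rw [mem_roughSqf]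
    refine ⟨⟨le_refl _, by omega⟩, squarefree_one, ?_⟩
    intro q hq hq1
    exact absurd (Nat.dvd_one.mp hq1) hq.one_lt.ne'
  have hsum : ∑ k ∈ roughSqf B (G - 1), (1 : ℝ) / k - 1 = ∑ k ∈ K, (1 : ℝ) / k := by
    rw [← add_sum_erase _ _ h1mem]
    simp [hK]
  rw [hsum, mul_sum]
  have h2 : ∑ k ∈ K, (N : ℝ) / (4 * Real.log N) * (1 / k) ≤ ∑ k ∈ K, (#(primesK N k) : ℝ) := by
    apply sum_le_sum
    intro k hk
    rw [hK, mem_erase, mem_roughSqf] at hk
    exact hpr k hk.2.1.1 (by omega)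
  refine h2.trans ?_
  have h3 : #(K.sigma (fun k => primesK N k)) ≤ #(setA B G N) := by
    apply card_le_card_of_injOn (fun x : (_ : ℕ) × ℕ => x.1 * x.2)
    · rintro ⟨k, p⟩ hx
      rw [mem_coe, mem_sigma, hK, mem_erase, mem_roughSqf, primesK, mem_filter, mem_Icc] at hx
      obtain ⟨⟨hk1, ⟨hk2, hk3⟩, hsq, hr⟩, ⟨hp1, hp2⟩, hp, hN1, hN2⟩ := hx
      simp only at *
      rw [setA, coe_filter]
      refine ⟨?_, k, p, rfl, hp, by omega, by omega, hsq, hr⟩
      rw [mem_Ioc]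
      omega
    · rintro ⟨k, p⟩ hx ⟨k', p'⟩ hx' heq
      rw [mem_coe, mem_sigma, hK, mem_erase, mem_roughSqf, primesK, mem_filter, mem_Icc] at hx hx'
      obtain ⟨⟨hk1, ⟨hk2, hk3⟩, hsq, hr⟩, ⟨hp1, hp2⟩, hp, hN1, hN2⟩ := hx
      obtain ⟨⟨hk1', ⟨hk2', hk3'⟩, hsq', hr'⟩, ⟨hp1', hp2'⟩, hp', hN1', hN2'⟩ := hx'
      simp only at *
      have hpG : G < p := by
        by_contra hcon
        have h5 : k * p ≤ (G - 1) * G := Nat.mul_le_mul hk3 (by omega)
        have h6 : (G - 1) * G ≤ G ^ 2 := by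
          rw [sq]
          exact Nat.mul_le_mul_right _ (by omega)
        omega
      have hpp : p = p' := by
        by_contra hne
        have h7 : p ∣ k' * p' := by rw [← heq]; exact Dvd.intro_left _ rfl
        rcases (Nat.Prime.dvd_mul hp).mp h7 with h8 | h8
        · have := Nat.le_of_dvd (by omega) h8
          omega
        · exact hne ((Nat.prime_dvd_prime_iff_eq hp hp').mp h8)
      subst hpp
      have hkk : k = k' := Nat.eq_of_mul_eq_mul_right hp.pos heq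
      subst hkk
      rfl
  rw [card_sigma] at h3
  exact_mod_cast h3

/-- The prime count, uniformly for `k < G`, when `G^4 ≤ N`. -/
lemma primesK_ge : ∃ N₀ : ℕ, ∀ N : ℕ, N₀ ≤ N → ∀ k : ℕ, 1 ≤ k → k ^ 2 ≤ N →
    (N : ℝ) / (4 * Real.log N) * (1 / k) ≤ #(primesK N k) := by
  have h := Helper96.PNT.eventually_primes_short (c := 1 / 2) (by norm_num) (by norm_num)
  rw [eventually_atTop] at h
  obtain ⟨x0, hx0⟩ := h
  refine ⟨⌈max x0 2⌉₊ ^ 2 + 4, ?_⟩
  intro N hN k hk hkN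
  have hk' : (0:ℝ) < k := by exact_mod_cast hk
  have hN' : (0:ℝ) < N := by exact_mod_cast (by omega : 0 < N)
  set M := ⌈max x0 2⌉₊ with hM
  have hM2 : max x0 2 ≤ M := Nat.le_ceil _
  -- `N / k ≥ sqrt N ≥ M`
  have hx : (M : ℝ) ≤ N / k := by
    rw [le_div_iff₀ hk']
    have h1 : (M * k) ^ 2 ≤ N ^ 2 := by
      rw [mul_pow]
      calc M ^ 2 * k ^ 2 ≤ N * N := Nat.mul_le_mul (by omega) hkN
        _ = N ^ 2 := by ring
    have h2 : M * k ≤ N := (Nat.pow_le_pow_iff_left (by norm_num)).mp h1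
    exact_mod_cast h2
  have hx2 : (2:ℝ) ≤ N / k := (le_max_right _ _).trans (hM2.trans hx)
  have h3 := hx0 (N / k) ((le_max_left _ _).trans (hM2.trans hx))
  have h4 : (#((Icc 1 ⌊(N:ℝ) / k⌋₊).filter (fun p : ℕ => p.Prime ∧ (1 - 1 / 2) * ((N:ℝ) / k) < p)) : ℝ) ≤
      #(primesK N k) := by
    apply Nat.cast_le.mpr
    apply card_le_card
    intro p hp
    rw [mem_filter, mem_Icc] at hp
    obtain ⟨⟨hp1, hp2⟩, hp3, hp4⟩ := hp
    rw [Nat.le_floor_iff (by positivity), le_div_iff₀ hk'] at hp2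
    have hp5 : k * p ≤ N := by
      have : ((k * p : ℕ) : ℝ) ≤ N := by push_cast; linarith
      exact_mod_cast this
    rw [primesK, mem_filter, mem_Icc]
    refine ⟨⟨hp1, ?_⟩, hp3, ?_, hp5⟩
    · calc p ≤ k * p := Nat.le_mul_of_pos_left _ (by omega)
        _ ≤ N := hp5
    · have h5 : (1 - 1 / 2) * ((N:ℝ) / k) = N / (2 * k) := by field_simp; ring
      rw [h5, div_lt_iff₀ (by positivity)] at hp4
      have : (N : ℝ) < ((2 * (k * p) : ℕ) : ℝ) := by push_cast; linarith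
      exact_mod_cast this
  refine le_trans ?_ (h3.trans h4)
  have hlog1 : 0 < Real.log (N / k) := Real.log_pos (by linarith)
  have hlog2 : Real.log (N / k) ≤ Real.log N := by
    apply Real.log_le_log (by positivity)
    apply div_le_self hN'.le
    exact_mod_cast hk
  have e1 : (N : ℝ) / (4 * Real.log N) * (1 / k) = (1 / 4 * (N / k)) / Real.log N := by
    have : Real.log N ≠ 0 := by linarith
    field_simp
  have e2 : 1 / 2 / 2 * ((N:ℝ) / k) / Real.log (N / k) = (1 / 4 * (N / k)) / Real.log (N / k) := by ring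
  rw [e1, e2]
  apply div_le_div_of_nonneg_left (by positivity) hlog1 hlog2

end Helper96.D6
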