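import Mathlib
import Pool.Agent.Helper96.D6A

/-!
# Smooth numbers: a second moment bound
-/

open Finset

namespace Helper96.D6

/-- The number of multiples of `d ≥ 1` in `[1, N]`. -/
lemma card_multiples (N d : ℕ) : #((Icc 1 N).filter (fun n => d ∣ n)) = N / d := by
  have := Nat.Ioc_filter_dvd_card_eq_div N d
  rw [← this]
  rfl

lemma card_multiples_le (N d : ℕ) : (#((Icc 1 N).filter (fun n => d ∣ n)) : ℝ) ≤ N / d := by
  rw [card_multiples]
  exact Nat.cast_div_le

/-- sum of `log p` over the primes `p ≤ y` dividing `n` -/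
noncomputable def X1 (y n : ℕ) : ℝ := ∑ p ∈ (primesUpTo y).filter (fun p => p ∣ n), Real.log p

lemma X1_nonneg (y n : ℕ) : 0 ≤ X1 y n :=
  sum_nonneg (fun p _ => Real.log_natCast_nonneg p)

lemma X1_le_log (y n : ℕ) (hn : 0 < n) : X1 y n ≤ Real.log n := by
  unfold X1
  have h1 : ∏ p ∈ n.primeFactors, p ∣ n := Nat.prod_primeFactors_dvd n
  have h2 : Real.log ((∏ p ∈ n.primeFactors, p : ℕ) : ℝ) ≤ Real.log n := by
    apply Real.log_le_log
    · have : 0 < ∏ p ∈ n.primeFactors, p := Nat.pos_of_dvd_of_pos h1 hn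
      exact_mod_cast this
    · exact_mod_cast Nat.le_of_dvd hn h1
  have h3 : Real.log ((∏ p ∈ n.primeFactors, p : ℕ) : ℝ) = ∑ p ∈ n.primeFactors, Real.log p := by
    push_cast
    rw [Real.log_prod]
    intro p hp
    exact_mod_cast (Nat.prime_of_mem_primeFactors hp).ne_zero
  rw [h3] at h2
  refine le_trans ?_ h2
  apply sum_le_sum_of_subset_of_nonneg
  · intro p hp
    rw [mem_filter, mem_primesUpTo] at hp
    rw [Nat.mem_primeFactors]
    exact ⟨hp.1.2, hp.2, hn.ne'⟩
  · intro p _ _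
    exact Real.log_natCast_nonneg p

lemma sum_X1 (y N : ℕ) : ∑ n ∈ Icc 1 N, X1 y n =
    ∑ p ∈ primesUpTo y, Real.log p * (#((Icc 1 N).filter (fun n => p ∣ n)) : ℝ) := by
  unfold X1
  simp_rw [sum_filter]
  rw [sum_comm]
  apply sum_congr rfl
  intro p _
  rw [← sum_filter, sum_const, nsmul_eq_mul, mul_comm]

/-- `∑_{p ≤ y} log p / p ≤ log y + log 4`. -/
lemma mertens_upper (y : ℕ) (hy : 1 ≤ y) :
    ∑ p ∈ primesUpTo y, Real.log p / p ≤ Real.log y + Real.log 4 := by
  have hy' : (0:ℝ) < y := by exact_mod_cast hy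
  have h1 : ∑ n ∈ Icc 1 y, X1 y n ≤ y * Real.log y := by
    calc ∑ n ∈ Icc 1 y, X1 y n ≤ ∑ n ∈ Icc 1 y, Real.log y := by
          apply sum_le_sum
          intro n hn
          rw [mem_Icc] at hn
          refine (X1_le_log y n hn.1).trans ?_
          apply Real.log_le_log
          · exact_mod_cast hn.1
          · exact_mod_cast hn.2
      _ = y * Real.log y := by
          rw [sum_const, Nat.card_Icc, nsmul_eq_mul]
          simp
  rw [sum_X1] at h1
  have h2 : ∑ p ∈ primesUpTo y, Real.log p * ((y : ℝ) / p - 1) ≤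
      ∑ p ∈ primesUpTo y, Real.log p * (#((Icc 1 y).filter (fun n => p ∣ n)) : ℝ) := by
    apply sum_le_sum
    intro p hp
    rw [mem_primesUpTo] at hp
    apply mul_le_mul_of_nonneg_left _ (Real.log_natCast_nonneg p)
    rw [card_multiples]
    have hp0 : (0:ℝ) < p := by exact_mod_cast hp.2.pos
    have h3 : (y : ℝ) / p < (y / p : ℕ) + 1 := by
      rw [div_lt_iff₀ hp0]
      have := Nat.lt_mul_div_succ y hp.2.pos
      have h4 : (y : ℝ) < (p : ℝ) * ((y / p : ℕ) + 1) := by exact_mod_cast this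
      linarith
    linarith
  have h3 : ∑ p ∈ primesUpTo y, Real.log p * ((y : ℝ) / p - 1) =
      y * ∑ p ∈ primesUpTo y, Real.log p / p - ∑ p ∈ primesUpTo y, Real.log p := by
    rw [mul_sum, ← sum_sub_distrib]
    apply sum_congr rfl
    intro p _
    ring
  have h4 : ∑ p ∈ primesUpTo y, Real.log p ≤ Real.log 4 * y := by
    have := Chebyshev.theta_le_log4_mul_x (x := y) hy'.le
    refine le_trans (le_of_eq ?_) this
    unfold Chebyshev.theta
    rw [Nat.floor_natCast]
    rfl
  have h5 : y * ∑ p ∈ primesUpTo y, Real.log p / p ≤ y * (Real.log y + Real.log 4) := by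
    linarith
  exact le_of_mul_le_mul_left h5 hy'

/-- second moment -/
lemma sum_X1_sq (y N : ℕ) (hy : 4 ≤ y) : ∑ n ∈ Icc 1 N, (X1 y n) ^ 2 ≤ 6 * N * (Real.log y) ^ 2 := by
  have hy' : (0:ℝ) < y := by exact_mod_cast (by omega : 0 < y)
  set L := ∑ p ∈ primesUpTo y, Real.log p / p with hL
  have hly : Real.log 4 ≤ Real.log y := Real.log_le_log (by norm_num) (by exact_mod_cast hy)
  have hL2 : L ≤ 2 * Real.log y := by
    have := mertens_upper y (by omega)
    linarith
  have hL0 : 0 ≤ L := sum_nonneg (fun p _ => div_nonneg (Real.log_natCast_nonneg p) (Nat.cast_nonneg p))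
  -- expand
  have h1 : ∑ n ∈ Icc 1 N, (X1 y n) ^ 2 = ∑ p ∈ primesUpTo y, ∑ q ∈ primesUpTo y,
      Real.log p * Real.log q * (#((Icc 1 N).filter (fun n => p ∣ n ∧ q ∣ n)) : ℝ) := by
    unfold X1
    simp_rw [sum_filter, sq, sum_mul_sum]
    rw [sum_comm]
    apply sum_congr rfl
    intro p _
    rw [sum_comm]
    apply sum_congr rfl
    intro q _
    rw [card_filter]
    push_cast
    rw [mul_sum]
    apply sum_congr rfl
    intro n _
    by_cases hp : p ∣ n <;> by_cases hq : q ∣ n <;> simp [hp, hq]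
  rw [h1]
  have h2 : ∀ p ∈ primesUpTo y, ∑ q ∈ primesUpTo y,
      Real.log p * Real.log q * (#((Icc 1 N).filter (fun n => p ∣ n ∧ q ∣ n)) : ℝ) ≤
      N * (Real.log p / p) * L + N * Real.log y * (Real.log p / p) := by
    intro p hp
    rw [← add_sum_erase _ _ hp]
    rw [mem_primesUpTo] at hp
    have hp0 : (0:ℝ) < p := by exact_mod_cast hp.2.pos
    have hlp := Real.log_natCast_nonneg p
    have hlpy : Real.log p ≤ Real.log y := Real.log_le_log hp0 (by exact_mod_cast hp.1)
    have e1 : Real.log p * Real.log p * (#((Icc 1 N).filter (fun n => p ∣ n ∧ p ∣ n)) : ℝ) ≤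
        N * Real.log y * (Real.log p / p) := by
      have : (#((Icc 1 N).filter (fun n => p ∣ n ∧ p ∣ n)) : ℝ) ≤ N / p := by
        simp only [and_self]
        exact card_multiples_le N p
      calc _ ≤ Real.log p * Real.log y * (N / p) := by gcongr
        _ = _ := by ring
    have e2 : ∑ q ∈ (primesUpTo y).erase p,
      Real.log p * Real.log q * (#((Icc 1 N).filter (fun n => p ∣ n ∧ q ∣ n)) : ℝ) ≤
        N * (Real.log p / p) * L := by
      calc _ ≤ ∑ q ∈ (primesUpTo y).erase p, N * (Real.log p / p) * (Real.log q / q) := by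
            apply sum_le_sum
            intro q hq
            rw [mem_erase, mem_primesUpTo] at hq
            have hq0 : (0:ℝ) < q := by exact_mod_cast hq.2.2.pos
            have hlq := Real.log_natCast_nonneg q
            have hcop : Nat.Coprime p q := (Nat.coprime_primes hp.2 hq.2.2).mpr (Ne.symm hq.1)
            have : (#((Icc 1 N).filter (fun n => p ∣ n ∧ q ∣ n)) : ℝ) ≤ N / ((p * q : ℕ) : ℝ) := by
              refine le_trans ?_ (card_multiples_le N (p * q))
              apply Nat.cast_le.mpr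
              apply card_le_card
              intro n hn
              rw [mem_filter] at hn ⊢
              exact ⟨hn.1, hcop.mul_dvd_of_dvd_of_dvd hn.2.1 hn.2.2⟩
            push_cast at this
            calc _ ≤ Real.log p * Real.log q * (N / (p * q)) := by gcongr
              _ = _ := by field_simp
        _ ≤ ∑ q ∈ primesUpTo y, N * (Real.log p / p) * (Real.log q / q) := by
            apply sum_le_sum_of_subset_of_nonneg (erase_subset _ _)
            intro q _ _
            have hlq := Real.log_natCast_nonneg q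
            positivity
        _ = _ := by rw [← mul_sum]
    linarith
  refine (sum_le_sum h2).trans ?_
  rw [sum_add_distrib, ← sum_mul, ← mul_sum, ← mul_sum, ← hL]
  have hN : (0:ℝ) ≤ N := Nat.cast_nonneg N
  have hly0 : 0 ≤ Real.log y := Real.log_natCast_nonneg y
  nlinarith [mul_nonneg hN hL0, mul_nonneg hN hly0, mul_le_mul hL2 hL2 hL0 (by linarith : (0:ℝ) ≤ 2 * Real.log y),
    mul_le_mul_of_nonneg_left (mul_le_mul hL2 hL2 hL0 (by linarith : (0:ℝ) ≤ 2 * Real.log y)) hN,
    mul_le_mul_of_nonneg_left (mul_le_mul_of_nonneg_left hL2 hly0) hN]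


lemma sum_inv_sq_tail (T M : ℕ) (hT : 1 ≤ T) : ∑ t ∈ Icc T M, (1 : ℝ) / (t : ℝ) ^ 2 ≤ 2 / T := by
  have h : ∀ M : ℕ, T ≤ M → ∑ t ∈ Icc T M, (1 : ℝ) / (t : ℝ) ^ 2 ≤ 2 / T - 1 / M := by
    intro M hM
    have hT' : (1:ℝ) ≤ T := by exact_mod_cast hT
    induction M, hM using Nat.le_induction with
    | base =>
      rw [Icc_self, sum_singleton]
      have : (1:ℝ) / (T : ℝ) ^ 2 ≤ 1 / T := by
        apply one_div_le_one_div_of_le (by linarith)
        nlinarith
      have h2 : (2:ℝ) / T = 1 / T + 1 / T := by ring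
      linarith
    | succ n hn ih =>
      rw [sum_Icc_succ_top (by omega)]
      have hn' : (0:ℝ) < n := by exact_mod_cast (by omega : 0 < n)
      have : (1 : ℝ) / ((n + 1 : ℕ) : ℝ) ^ 2 ≤ 1 / n - 1 / ((n + 1 : ℕ) : ℝ) := by
        push_cast
        rw [div_sub_div _ _ (by positivity) (by positivity), div_le_div_iff₀ (by positivity) (by positivity)]
        nlinarith
      linarith
  rcases lt_or_ge M T with hX | hX
  · rw [Icc_eq_empty (by omega), sum_empty]
    positivity
  · have h1 := h M hX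
    have : (0:ℝ) ≤ 1 / M := by positivity
    linarith

open Classical in
/-- multiples of a large square -/
lemma card_square_multiples (N T : ℕ) (hT : 1 ≤ T) :
    (#((Icc 1 N).filter (fun n => ∃ t, T ≤ t ∧ t ^ 2 ∣ n)) : ℝ) ≤ 2 * N / T := by
  have h1 : (Icc 1 N).filter (fun n => ∃ t, T ≤ t ∧ t ^ 2 ∣ n) ⊆
      (Icc T N).biUnion (fun t => (Icc 1 N).filter (fun n => t ^ 2 ∣ n)) := by
    intro n hn
    rw [mem_filter, mem_Icc] at hn
    obtain ⟨⟨hn1, hn2⟩, t, ht, htn⟩ := hn
    rw [mem_biUnion]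
    refine ⟨t, ?_, ?_⟩
    · rw [mem_Icc]
      refine ⟨ht, ?_⟩
      calc t ≤ t ^ 2 := Nat.le_self_pow (by norm_num) t
        _ ≤ n := Nat.le_of_dvd (by omega) htn
        _ ≤ N := hn2
    · rw [mem_filter, mem_Icc]
      exact ⟨⟨hn1, hn2⟩, htn⟩
  have h2 := (card_le_card h1).trans card_biUnion_le
  have h3 : (#((Icc 1 N).filter (fun n => ∃ t, T ≤ t ∧ t ^ 2 ∣ n)) : ℝ) ≤
      ∑ t ∈ Icc T N, (#((Icc 1 N).filter (fun n => t ^ 2 ∣ n)) : ℝ) := by
    exact_mod_cast h2
  refine h3.trans ?_
  calc _ ≤ ∑ t ∈ Icc T N, (N : ℝ) * (1 / (t : ℝ) ^ 2) := by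
        apply sum_le_sum
        intro t _
        have := card_multiples_le N (t ^ 2)
        push_cast at this
        refine this.trans (le_of_eq ?_)
        ring
    _ = N * ∑ t ∈ Icc T N, (1 : ℝ) / (t : ℝ) ^ 2 := by rw [mul_sum]
    _ ≤ N * (2 / T) := by
        apply mul_le_mul_of_nonneg_left (sum_inv_sq_tail T N hT) (Nat.cast_nonneg N)
    _ = _ := by ring

open Classical in
/-- Smooth numbers are rare. -/
theorem smooth_count (y N T : ℕ) (hy : 4 ≤ y) (hT : 1 ≤ T)
    (hL : 0 < Real.log N - Real.log 4 - 2 * Real.log T) :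
    (#((Icc 1 N).filter (fun n => N ≤ 4 * n ∧ ∀ p : ℕ, p.Prime → p ∣ n → p ≤ y)) : ℝ) ≤
      2 * N / T + 6 * N * (Real.log y) ^ 2 / (Real.log N - Real.log 4 - 2 * Real.log T) ^ 2 := by
  set L := Real.log N - Real.log 4 - 2 * Real.log T with hLdef
  have h1 : (Icc 1 N).filter (fun n => N ≤ 4 * n ∧ ∀ p : ℕ, p.Prime → p ∣ n → p ≤ y) ⊆
      (Icc 1 N).filter (fun n => ∃ t, T ≤ t ∧ t ^ 2 ∣ n) ∪ (Icc 1 N).filter (fun n => L ≤ X1 y n) := by
    intro n hn
    rw [mem_filter, mem_Icc] at hn
    obtain ⟨⟨hn1, hn2⟩, hn4, hsm⟩ := hn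
    rw [mem_union, mem_filter, mem_filter, mem_Icc]
    obtain ⟨s, t, hs0, ht0, hst, hsq⟩ := Nat.sq_mul_squarefree_of_pos (show 0 < n by omega)
    by_cases htT : T ≤ t
    · left
      exact ⟨⟨hn1, hn2⟩, t, htT, Dvd.intro _ hst⟩
    · right
      refine ⟨⟨hn1, hn2⟩, ?_⟩
      have hsn : s ∣ n := Dvd.intro_left _ hst
      have e1 : Real.log s = ∑ p ∈ s.primeFactors, Real.log p := by
        conv_lhs => rw [← Nat.prod_primeFactors_of_squarefree hsq]
        push_cast
        rw [Real.log_prod]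
        intro p hp
        exact_mod_cast (Nat.prime_of_mem_primeFactors hp).ne_zero
      have e2 : Real.log s ≤ X1 y n := by
        rw [e1]
        unfold X1
        apply sum_le_sum_of_subset_of_nonneg
        · intro p hp
          have hpp := Nat.prime_of_mem_primeFactors hp
          have hpn := (Nat.dvd_of_mem_primeFactors hp).trans hsn
          rw [mem_filter, mem_primesUpTo]
          exact ⟨⟨hsm p hpp hpn, hpp⟩, hpn⟩
        · intro p _ _
          exact Real.log_natCast_nonneg p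
      refine le_trans ?_ e2
      have hs0' : (0:ℝ) < s := by exact_mod_cast hs0
      have ht0' : (0:ℝ) < t := by exact_mod_cast ht0
      have hn0' : (0:ℝ) < n := by exact_mod_cast (by omega : 0 < n)
      have hN0' : (0:ℝ) < N := by exact_mod_cast (by omega : 0 < N)
      have e3 : Real.log n = 2 * Real.log t + Real.log s := by
        rw [← hst]
        push_cast
        rw [Real.log_mul (by positivity) (by positivity), Real.log_pow]
        norm_num
      have e4 : Real.log N ≤ Real.log 4 + Real.log n := by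
        rw [← Real.log_mul (by norm_num) hn0'.ne']
        apply Real.log_le_log hN0'
        exact_mod_cast hn4
      have e5 : Real.log t ≤ Real.log T := Real.log_le_log ht0' (by exact_mod_cast (by omega : t ≤ T))
      rw [hLdef]
      linarith
  have h2 := (card_le_card h1).trans (card_union_le _ _)
  have h3 : (#((Icc 1 N).filter (fun n => L ≤ X1 y n)) : ℝ) * L ^ 2 ≤ 6 * N * (Real.log y) ^ 2 := by
    refine le_trans ?_ (sum_X1_sq y N hy)
    rw [← nsmul_eq_mul]
    refine (card_nsmul_le_sum _ (fun n => (X1 y n) ^ 2) _ ?_).trans ?_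
    · intro n hn
      rw [mem_filter] at hn
      exact pow_le_pow_left₀ hL.le hn.2 2
    · apply sum_le_sum_of_subset_of_nonneg (filter_subset _ _)
      intro n _ _
      positivity
  have h4 : (#((Icc 1 N).filter (fun n => L ≤ X1 y n)) : ℝ) ≤ 6 * N * (Real.log y) ^ 2 / L ^ 2 := by
    rw [le_div_iff₀ (by positivity)]
    exact h3
  have h5 := card_square_multiples N T hT
  have h6 : (#((Icc 1 N).filter (fun n => N ≤ 4 * n ∧ ∀ p : ℕ, p.Prime → p ∣ n → p ≤ y)) : ℝ) ≤
    (#((Icc 1 N).filter (fun n => ∃ t, T ≤ t ∧ t ^ 2 ∣ n)) : ℝ) + (#((Icc 1 N).filter (fun n => L ≤ X1 y n)) : ℝ) := by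
    exact_mod_cast h2
  linarith

end Helper96.D6
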