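import Mathlib
import Pool.Agent.Helper96.D6A
import Pool.Agent.Helper96.PNT

/-!
# Failure of (d): structure of `k k' z! = square`
-/

open Finset Filter

namespace Helper96.D6

lemma even_factorization_of_isSquare {n : ℕ} (h : IsSquare n) (p : ℕ) : Even (n.factorization p) := by
  obtain ⟨r, rfl⟩ := h
  rcases Nat.eq_zero_or_pos r with rfl | hr
  · simp
  · rw [Nat.factorization_mul hr.ne' hr.ne']
    exact ⟨r.factorization p, by simp⟩

/-- primes in `(z/2, z]` -/
def upperPrimes (z : ℕ) : Finset ℕ := (Icc 1 z).filter (fun p => p.Prime ∧ z < 2 * p)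

lemma factorization_factorial_upper {z p : ℕ} (hp : p ∈ upperPrimes z) : (z.factorial).factorization p = 1 := by
  rw [upperPrimes, mem_filter, mem_Icc] at hp
  obtain ⟨⟨hp1, hpz⟩, hpp, hz⟩ := hp
  have h2 := hpp.two_le
  have hlog : Nat.log p z < 2 := by
    apply Nat.log_lt_of_lt_pow (by omega)
    nlinarith
  rw [Nat.factorization_factorial hpp hlog]
  simp
  apply Nat.div_eq_of_lt_le <;> omega

lemma square_struct {k k' z : ℕ} (hk : Squarefree k) (hk1 : 1 ≤ k') (hkk : k' < k)
    (hsq : IsSquare (k * k' * z.factorial)) :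
    ∃ u, u ∣ k ∧ 1 < u ∧ (∀ q : ℕ, q.Prime → q ∣ u → q ≤ z) ∧ ∏ p ∈ upperPrimes z, p < u ^ 2 := by
  set e := Nat.gcd k k' with he
  have he0 : 0 < e := Nat.gcd_pos_of_pos_left _ (by omega)
  obtain ⟨u, hu⟩ : e ∣ k := Nat.gcd_dvd_left _ _
  obtain ⟨v, hv⟩ : e ∣ k' := Nat.gcd_dvd_right _ _
  have hcop : Nat.Coprime u v := by
    have h1 : Nat.gcd (e * u) (e * v) = e * Nat.gcd u v := Nat.gcd_mul_left e u v
    rw [← hu, ← hv, ← he] at h1
    have h2 : e * 1 = e * Nat.gcd u v := by rw [mul_one]; exact h1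
    exact (Nat.eq_of_mul_eq_mul_left he0 h2).symm
  have hvu : v < u := by
    rw [hu, hv] at hkk
    exact lt_of_mul_lt_mul_left hkk (Nat.zero_le _)
  have hv0 : 0 < v := by
    rcases Nat.eq_zero_or_pos v with h | h
    · rw [h] at hv; omega
    · exact h
  have hu0 : 0 < u := by omega
  have husq : Squarefree u := hk.squarefree_of_dvd (by rw [hu]; exact Dvd.intro_left _ rfl)
  have hz0 := Nat.factorial_ne_zero z
  have hpar : ∀ p : ℕ, Even (u.factorization p + v.factorization p + (z.factorial).factorization p) := by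
    intro p
    have h1 := even_factorization_of_isSquare hsq p
    rw [hu, hv, Nat.factorization_mul (by positivity) hz0,
      Nat.factorization_mul (by positivity) (by positivity),
      Nat.factorization_mul (by positivity) (by positivity), Nat.factorization_mul (by positivity) (by positivity)] at h1
    simp only [Finsupp.coe_add, Pi.add_apply] at h1
    rw [Nat.even_iff] at h1 ⊢
    omega
  refine ⟨u, by rw [hu]; exact Dvd.intro_left _ rfl, by omega, ?_, ?_⟩
  · intro q hq hqu
    have h1 : u.factorization q = 1 := by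
      have h2 := (Nat.squarefree_iff_factorization_le_one (by omega : u ≠ 0)).mp husq q
      have h3 := (hq.dvd_iff_one_le_factorization (by omega : u ≠ 0)).mp hqu
      omega
    have h2 : v.factorization q = 0 := by
      apply Nat.factorization_eq_zero_of_not_dvd
      intro h
      have := Nat.dvd_gcd hqu h
      rw [hcop] at this
      exact hq.one_lt.ne' (Nat.dvd_one.mp this)
    have h3 := hpar q
    rw [h1, h2, Nat.even_iff] at h3
    have h4 : (z.factorial).factorization q ≠ 0 := by omega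
    have h5 : q ∣ z.factorial := Nat.dvd_of_factorization_pos h4
    exact (hq.dvd_factorial).mp h5
  · have h1 : ∏ p ∈ upperPrimes z, p ∣ u * v := by
      apply Finset.prod_primes_dvd
      · intro p hp
        rw [upperPrimes, mem_filter] at hp
        exact hp.2.1.prime
      · intro p hp
        have h2 := factorization_factorial_upper hp
        have h3 := hpar p
        rw [h2] at h3
        rw [upperPrimes, mem_filter] at hp
        rw [Nat.even_iff] at h3
        have h4 : (u * v).factorization p ≠ 0 := by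
          rw [Nat.factorization_mul (by omega) (by omega)]
          simp only [Finsupp.coe_add, Pi.add_apply]
          omega
        exact Nat.dvd_of_factorization_pos h4
    calc ∏ p ∈ upperPrimes z, p ≤ u * v := Nat.le_of_dvd (by positivity) h1
      _ < u * u := Nat.mul_lt_mul_of_pos_left hvu (by omega)
      _ = u ^ 2 := by ring

/-- By the prime number theorem, `∏_{z/2 < p ≤ z} p ≥ exp (z/4)` for large `z`. -/
lemma upperPrimes_prod_ge : ∃ z₀ : ℕ, ∀ z : ℕ, z₀ ≤ z →
    Real.exp ((z : ℝ) / 4) ≤ ((∏ p ∈ upperPrimes z, p : ℕ) : ℝ) := by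
  have h := Helper96.PNT.theta_short Helper96.PNT.isUnit_zmod_one (c := 1 / 2) (by norm_num)
  simp only [Nat.totient_one, Nat.cast_one, inv_one, mul_one] at h
  have h1 := h.eventually_const_lt (show (1:ℝ) / 4 < 1 / 2 by norm_num)
  rw [eventually_atTop] at h1
  obtain ⟨x0, hx0⟩ := h1
  refine ⟨⌈x0⌉₊ + 1, ?_⟩
  intro z hz
  have hz0 : (0:ℝ) < z := by exact_mod_cast (by omega : 0 < z)
  have hzx : x0 ≤ z := (Nat.le_ceil x0).trans (by exact_mod_cast (by omega : ⌈x0⌉₊ ≤ z))
  have h2 := hx0 z hzx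
  rw [lt_div_iff₀ hz0, Helper96.PNT.theta_sub_eq _ (by positivity) (by linarith)] at h2
  have h3 : Helper96.PNT.primesIoc (1 : ZMod 1) ((1 - 1 / 2) * (z:ℝ)) z = upperPrimes z := by
    ext p
    rw [Helper96.PNT.mem_primesIoc hz0.le, upperPrimes, mem_filter, mem_Icc]
    constructor
    · rintro ⟨h4, h5, h6, _⟩
      refine ⟨⟨h6.one_lt.le, by exact_mod_cast h5⟩, h6, ?_⟩
      have : (z : ℝ) < ((2 * p : ℕ) : ℝ) := by push_cast; linarith
      exact_mod_cast this
    · rintro ⟨⟨_, h5⟩, h6, h4⟩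
      refine ⟨?_, by exact_mod_cast h5, h6, Subsingleton.elim _ _⟩
      have : (z : ℝ) < ((2 * p : ℕ) : ℝ) := by exact_mod_cast h4
      push_cast at this
      linarith
  rw [h3] at h2
  have h4 : ∑ p ∈ upperPrimes z, Real.log (p:ℝ) = Real.log ((∏ p ∈ upperPrimes z, p : ℕ) : ℝ) := by
    push_cast
    rw [Real.log_prod]
    intro p hp
    rw [upperPrimes, mem_filter] at hp
    exact_mod_cast hp.2.1.ne_zero
  rw [h4] at h2
  have hpos : (0:ℝ) < ((∏ p ∈ upperPrimes z, p : ℕ) : ℝ) := by
    have : 0 < ∏ p ∈ upperPrimes z, p := by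
      apply Finset.prod_pos
      intro p hp
      rw [upperPrimes, mem_filter] at hp
      exact hp.2.1.pos
    exact_mod_cast this
  rw [← Real.le_log_iff_exp_le hpos]
  linarith


/-- `π(z) log 2 ≤ z / 16` for large `z`. -/
lemma card_primesUpTo_le : ∃ z₀ : ℕ, ∀ z : ℕ, z₀ ≤ z →
    (#(primesUpTo z) : ℝ) * Real.log 2 ≤ (z : ℝ) / 16 := by
  have h := Helper96.PNT.pi_tendsto
  have h1 := h.eventually_lt_const (show (1:ℝ) < 2 by norm_num)
  have h2 : ∀ᶠ x : ℝ in atTop, 32 * Real.log 2 ≤ Real.log x := Real.tendsto_log_atTop.eventually_ge_atTop _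
  rw [eventually_atTop] at h1 h2
  obtain ⟨x0, hx0⟩ := h1
  obtain ⟨x1, hx1⟩ := h2
  refine ⟨⌈x0⌉₊ + ⌈x1⌉₊ + 2, ?_⟩
  intro z hz
  have hz0 : (0:ℝ) < z := by exact_mod_cast (by omega : 0 < z)
  have hzx : x0 ≤ z := (Nat.le_ceil x0).trans (by exact_mod_cast (by omega : ⌈x0⌉₊ ≤ z))
  have hzx1 : x1 ≤ z := (Nat.le_ceil x1).trans (by exact_mod_cast (by omega : ⌈x1⌉₊ ≤ z))
  have h3 := hx0 z hzx
  have h4 := hx1 z hzx1
  rw [div_lt_iff₀ hz0] at h3
  have h5 : Nat.primeCounting ⌊(z:ℝ)⌋₊ = #(primesUpTo z) := by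
    rw [Nat.floor_natCast, Nat.primeCounting, Nat.primeCounting', Nat.count_eq_card_filter_range]
    congr 1
    ext p
    rw [mem_filter, mem_range, mem_primesUpTo]
    constructor
    · rintro ⟨h, h1⟩; exact ⟨by omega, h1⟩
    · rintro ⟨h, h1⟩; exact ⟨by omega, h1⟩
  rw [h5] at h3
  have h6 : (0:ℝ) ≤ #(primesUpTo z) := Nat.cast_nonneg _
  have h7 : (#(primesUpTo z) : ℝ) * (32 * Real.log 2) ≤ 2 * z :=
    (mul_le_mul_of_nonneg_left h4 h6).trans h3.le
  linarith

/-- `π(x) ≤ 4 x / log x`. -/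
lemma pi_upper {x : ℝ} (hx : 1 < x) : (#(primesUpTo ⌊x⌋₊) : ℝ) ≤ 4 * x / Real.log x := by
  have h := Chebyshev.pi_le_log4_mul_div hx
  have h5 : Nat.primeCounting ⌊x⌋₊ = #(primesUpTo ⌊x⌋₊) := by
    rw [Nat.primeCounting, Nat.primeCounting', Nat.count_eq_card_filter_range]
    congr 1
    ext p
    rw [mem_filter, mem_range, mem_primesUpTo]
    constructor
    · rintro ⟨h, h1⟩; exact ⟨by omega, h1⟩
    · rintro ⟨h, h1⟩; exact ⟨by omega, h1⟩
  rw [h5] at h
  refine h.trans ?_
  have hx0 : 0 < x := by linarith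
  have hlx : 0 < Real.log x := Real.log_pos hx
  have hsx : 0 < √x := Real.sqrt_pos.mpr hx0
  have h1 : Real.log √x = Real.log x / 2 := Real.log_sqrt hx0.le
  rw [h1]
  have h2 : Real.log 4 < 1.4 := by
    have : Real.log 4 = 2 * Real.log 2 := by
      rw [show (4:ℝ) = 2 ^ 2 by norm_num, Real.log_pow]; norm_num
    rw [this]
    have := Real.log_two_lt_d9
    linarith
  have h3 : √x ≤ x / Real.log x := by
    rw [le_div_iff₀ hlx]
    have h4 : Real.log x ≤ √x := by
      have h6 := Real.log_le_sub_one_of_pos (x := √x / 2) (by positivity)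
      rw [Real.log_div hsx.ne' (by norm_num), h1] at h6
      have := Real.log_two_lt_d9
      linarith
    calc √x * Real.log x ≤ √x * √x := mul_le_mul_of_nonneg_left h4 hsx.le
      _ = x := Real.mul_self_sqrt hx0.le
  calc Real.log 4 * x / (Real.log x / 2) + √x ≤ 1.4 * x / (Real.log x / 2) + x / Real.log x := by gcongr
    _ = 3.8 * x / Real.log x := by ring
    _ ≤ 4 * x / Real.log x := by gcongr; norm_num

end Helper96.D6
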