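import Mathlib
import Pool.Agent.Helper96.D6D
import Pool.Agent.Helper96.D6B

/-!
# Failure of (d): counting
-/

open Finset Filter

namespace Helper96.D6

open Classical in
/-- numbers `u j P ≤ N` with `u j < G` -/
noncomputable def Du (G N u : ℕ) : Finset ℕ :=
  (Icc 1 N).filter (fun m => ∃ j P : ℕ, m = u * j * P ∧ 1 ≤ j ∧ u * j < G ∧ P.Prime)

lemma card_Du_le (G N u : ℕ) (hu : 1 ≤ u) (hG : 2 ≤ G) (hGN : G ^ 2 ≤ N) :
    (#(Du G N u) : ℝ) ≤ 8 * N * (1 + Real.log G) / (u * Real.log N) := by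
  classical
  have hu' : (0:ℝ) < u := by exact_mod_cast hu
  have hN4 : 4 ≤ N := by nlinarith
  have hN' : (0:ℝ) < N := by exact_mod_cast (by omega : 0 < N)
  have hlN : 0 < Real.log N := Real.log_pos (by exact_mod_cast (by omega : 1 < N))
  have h1 : Du G N u ⊆ ((Icc 1 G).filter (fun j => u * j < G)).biUnion
      (fun j => (primesUpTo ⌊(N:ℝ) / (u * j)⌋₊).image (fun P => u * j * P)) := by
    intro m hm
    rw [Du, mem_filter, mem_Icc] at hm
    obtain ⟨⟨hm1, hm2⟩, j, P, rfl, hj, hjG, hP⟩ := hm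
    rw [mem_biUnion]
    refine ⟨j, ?_, ?_⟩
    · rw [mem_filter, mem_Icc]
      refine ⟨⟨hj, ?_⟩, hjG⟩
      calc j ≤ u * j := Nat.le_mul_of_pos_left _ hu
        _ ≤ G := hjG.le
    · rw [mem_image]
      refine ⟨P, ?_, rfl⟩
      rw [mem_primesUpTo]
      refine ⟨?_, hP⟩
      have hj' : (0:ℝ) < j := by exact_mod_cast hj
      rw [Nat.le_floor_iff (by positivity), le_div_iff₀ (by positivity)]
      have : ((u * j * P : ℕ) : ℝ) ≤ N := by exact_mod_cast hm2
      push_cast at this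
      linarith
  have h2 := (card_le_card h1).trans card_biUnion_le
  have h3 : (#(Du G N u) : ℝ) ≤ ∑ j ∈ (Icc 1 G).filter (fun j => u * j < G),
      (#((primesUpTo ⌊(N:ℝ) / (u * j)⌋₊).image (fun P => u * j * P)) : ℝ) := by exact_mod_cast h2
  refine h3.trans ?_
  have h4 : ∑ j ∈ (Icc 1 G).filter (fun j => u * j < G),
      (#((primesUpTo ⌊(N:ℝ) / (u * j)⌋₊).image (fun P => u * j * P)) : ℝ) ≤
      ∑ j ∈ (Icc 1 G).filter (fun j => u * j < G), 8 * N / (u * Real.log N) * (1 / (j:ℝ)) := by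
    apply sum_le_sum
    intro j hj
    rw [mem_filter, mem_Icc] at hj
    have hj' : (0:ℝ) < j := by exact_mod_cast hj.1.1
    have h5 : (#((primesUpTo ⌊(N:ℝ) / (u * j)⌋₊).image (fun P => u * j * P)) : ℝ) ≤
      #(primesUpTo ⌊(N:ℝ) / (u * j)⌋₊) := by exact_mod_cast card_image_le
    refine h5.trans ?_
    -- `x = N/(u j) ≥ √N`
    have huj : (0:ℝ) < u * j := by positivity
    have hx2 : √(N:ℝ) ≤ N / (u * j) := by
      rw [le_div_iff₀ huj]
      have h6 : ((u:ℝ) * j) ≤ √(N:ℝ) := by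
        apply Real.le_sqrt_of_sq_le
        have : (u * j) ^ 2 ≤ N := (Nat.pow_le_pow_left hj.2.le 2).trans hGN
        exact_mod_cast this
      calc √(N:ℝ) * (u * j) ≤ √(N:ℝ) * √(N:ℝ) := mul_le_mul_of_nonneg_left h6 (Real.sqrt_nonneg _)
        _ = N := Real.mul_self_sqrt hN'.le
    have hsq2 : (2:ℝ) ≤ √(N:ℝ) := by
      apply Real.le_sqrt_of_sq_le
      have : (4:ℝ) ≤ N := by exact_mod_cast hN4
      linarith
    have hx1 : (1:ℝ) < N / (u * j) := by linarith
    refine (pi_upper hx1).trans ?_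
    have hlx : Real.log N / 2 ≤ Real.log (N / (u * j)) := by
      rw [← Real.log_sqrt hN'.le]
      exact Real.log_le_log (by linarith) hx2
    calc 4 * ((N:ℝ) / (u * j)) / Real.log (N / (u * j)) ≤ 4 * ((N:ℝ) / (u * j)) / (Real.log N / 2) := by
          apply div_le_div_of_nonneg_left (by positivity) (by positivity) hlx
      _ = _ := by field_simp; ring
  refine h4.trans ?_
  rw [← mul_sum]
  have h5 : ∑ j ∈ (Icc 1 G).filter (fun j => u * j < G), 1 / (j:ℝ) ≤ 1 + Real.log G := by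
    have h6 : ∑ j ∈ (Icc 1 G).filter (fun j => u * j < G), 1 / (j:ℝ) ≤ ∑ j ∈ Icc 1 G, 1 / (j:ℝ) :=
      sum_le_sum_of_subset_of_nonneg (filter_subset _ _) (fun _ _ _ => by positivity)
    have h7 := harmonic_le_one_add_log G
    rw [harmonic_eq_sum_Icc] at h7
    push_cast at h7
    refine h6.trans ?_
    simpa [one_div] using h7
  calc 8 * N / (u * Real.log N) * ∑ j ∈ (Icc 1 G).filter (fun j => u * j < G), 1 / (j:ℝ) ≤
        8 * N / (u * Real.log N) * (1 + Real.log G) := by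
        apply mul_le_mul_of_nonneg_left h5 (by positivity)
    _ = _ := by ring

/-- Property (d) fails. -/
def FailD (B G m : ℕ) : Prop := ∃ k P : ℕ, m = k * P ∧ P.Prime ∧ 2 ≤ k ∧ k < G ∧ Squarefree k ∧
    (∀ q : ℕ, q.Prime → q ∣ k → B < q) ∧ ∃ k' z : ℕ, 1 ≤ k' ∧ k' < k ∧ IsSquare (k * k' * z.factorial)

open Classical in
noncomputable def badD (B G N : ℕ) : Finset ℕ := (Icc 1 N).filter (fun m => FailD B G m)

/-- For `B` large, at most `c N (1 + log G) / (B log N)` elements fail (d). -/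
theorem card_badD_le : ∃ B₀ : ℕ, ∀ B : ℕ, B₀ ≤ B → ∀ G N : ℕ, 2 ≤ G → G ^ 2 ≤ N →
    (#(badD B G N) : ℝ) ≤ 8192 * N * (1 + Real.log G) / (B * Real.log N) := by
  classical
  obtain ⟨z1, hz1⟩ := upperPrimes_prod_ge
  obtain ⟨z2, hz2⟩ := card_primesUpTo_le
  refine ⟨z1 + z2 + 1, ?_⟩
  intro B hB G N hG hGN
  have hN4 : 4 ≤ N := by nlinarith
  have hN' : (0:ℝ) < N := by exact_mod_cast (by omega : 0 < N)
  have hlN : 0 < Real.log N := Real.log_pos (by exact_mod_cast (by omega : 1 < N))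
  have hlG : 0 ≤ Real.log G := Real.log_natCast_nonneg G
  have hB' : (0:ℝ) < B := by exact_mod_cast (by omega : 0 < B)
  -- sets of subsets
  set U : ℕ → Finset (Finset ℕ) := fun z => ((primesUpTo z).powerset).filter
    (fun S => Real.exp ((z:ℝ) / 8) ≤ ((∏ p ∈ S, p : ℕ) : ℝ)) with hU
  have h1 : badD B G N ⊆ (Ioc B (8 * N)).biUnion (fun z => (U z).biUnion (fun S => Du G N (∏ p ∈ S, p))) := by
    intro m hm
    rw [badD, mem_filter, mem_Icc] at hm
    obtain ⟨⟨hm1, hm2⟩, k, P, rfl, hP, hk2, hkG, hksq, hkr, k', z, hk'1, hk'k, hsq⟩ := hm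
    obtain ⟨u, huk, hu1, huz, hprod⟩ := square_struct hksq hk'1 hk'k hsq
    have hBz : B < z := by
      obtain ⟨q, hq, hqu⟩ := Nat.exists_prime_and_dvd hu1.ne'
      have := huz q hq hqu
      have := hkr q hq (hqu.trans huk)
      omega
    have hexp := hz1 z (by omega)
    have hu8 : Real.exp ((z:ℝ) / 8) ≤ u := by
      have h2 : Real.exp ((z:ℝ) / 8) ^ 2 ≤ (u:ℝ) ^ 2 := by
        rw [← Real.exp_nat_mul]
        push_cast
        rw [show (2:ℝ) * ((z:ℝ) / 8) = (z:ℝ) / 4 by ring]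
        refine hexp.trans ?_
        exact_mod_cast hprod.le
      exact (pow_le_pow_iff_left₀ (Real.exp_pos _).le (Nat.cast_nonneg u) (by norm_num)).mp h2
    have huN : u ≤ N := by
      calc u ≤ k := Nat.le_of_dvd (by omega) huk
        _ ≤ G := hkG.le
        _ ≤ G ^ 2 := Nat.le_self_pow (by norm_num) G
        _ ≤ N := hGN
    have hz8 : z ≤ 8 * N := by
      have h2 : (z:ℝ) / 8 + 1 ≤ N := by
        refine (Real.add_one_le_exp _).trans (hu8.trans ?_)
        exact_mod_cast huN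
      have h3 : (z:ℝ) ≤ ((8 * N : ℕ) : ℝ) := by push_cast; linarith
      exact_mod_cast h3
    have husq : Squarefree u := hksq.squarefree_of_dvd huk
    have hufac : ∏ p ∈ u.primeFactors, p = u := Nat.prod_primeFactors_of_squarefree husq
    rw [mem_biUnion]
    refine ⟨z, ?_, ?_⟩
    · rw [mem_Ioc]; exact ⟨hBz, hz8⟩
    · rw [mem_biUnion]
      refine ⟨u.primeFactors, ?_, ?_⟩
      · rw [hU, mem_filter, mem_powerset]
        refine ⟨?_, ?_⟩
        · intro p hp
          rw [mem_primesUpTo]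
          exact ⟨huz p (Nat.prime_of_mem_primeFactors hp) (Nat.dvd_of_mem_primeFactors hp), Nat.prime_of_mem_primeFactors hp⟩
        · rw [hufac]; exact hu8
      · rw [hufac, Du, mem_filter, mem_Icc]
        obtain ⟨j, rfl⟩ := huk
        refine ⟨⟨hm1, hm2⟩, j, P, rfl, ?_, hkG, hP⟩
        rcases Nat.eq_zero_or_pos j with h | h
        · rw [h] at hk2; omega
        · exact h
  have h2 := (card_le_card h1).trans card_biUnion_le
  have h3 : (#(badD B G N) : ℝ) ≤ ∑ z ∈ Ioc B (8 * N), ∑ S ∈ U z, (#(Du G N (∏ p ∈ S, p)) : ℝ) := by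
    have h4 : ∑ z ∈ Ioc B (8 * N), #((U z).biUnion (fun S => Du G N (∏ p ∈ S, p))) ≤
        ∑ z ∈ Ioc B (8 * N), ∑ S ∈ U z, #(Du G N (∏ p ∈ S, p)) := sum_le_sum (fun z _ => card_biUnion_le)
    exact_mod_cast h2.trans h4
  refine h3.trans ?_
  have h4 : ∀ z ∈ Ioc B (8 * N), ∑ S ∈ U z, (#(Du G N (∏ p ∈ S, p)) : ℝ) ≤
      8 * N * (1 + Real.log G) / Real.log N * (512 * (1 / (z:ℝ) ^ 2)) := by
    intro z hz
    rw [mem_Ioc] at hz
    have hz0 : (0:ℝ) < z := by exact_mod_cast (by omega : 0 < z)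
    calc ∑ S ∈ U z, (#(Du G N (∏ p ∈ S, p)) : ℝ) ≤
          ∑ S ∈ U z, 8 * N * (1 + Real.log G) / Real.log N * Real.exp (-((z:ℝ) / 8)) := by
          apply sum_le_sum
          intro S hS
          rw [hU, mem_filter] at hS
          have hpos : (0:ℝ) < ((∏ p ∈ S, p : ℕ) : ℝ) := (Real.exp_pos _).trans_le hS.2
          have hpos' : 1 ≤ ∏ p ∈ S, p := by exact_mod_cast hpos
          refine (card_Du_le G N _ hpos' hG hGN).trans ?_
          rw [Real.exp_neg, ← div_eq_mul_inv, div_div, mul_comm (Real.log (N:ℝ))]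
          apply div_le_div_of_nonneg_left (by positivity) (by positivity)
          apply mul_le_mul_of_nonneg_right hS.2 hlN.le
      _ = #(U z) * (8 * N * (1 + Real.log G) / Real.log N * Real.exp (-((z:ℝ) / 8))) := by
          rw [sum_const, nsmul_eq_mul]
      _ ≤ Real.exp ((z:ℝ) / 16) * (8 * N * (1 + Real.log G) / Real.log N * Real.exp (-((z:ℝ) / 8))) := by
          apply mul_le_mul_of_nonneg_right _ (by positivity)
          have h5 : (#(U z) : ℝ) ≤ 2 ^ (#(primesUpTo z)) := by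
            have : #(U z) ≤ #((primesUpTo z).powerset) := card_le_card (filter_subset _ _)
            rw [card_powerset] at this
            exact_mod_cast this
          refine h5.trans ?_
          have h6 := hz2 z (by omega)
          rw [← Real.rpow_natCast, Real.rpow_def_of_pos (by norm_num), mul_comm]
          exact Real.exp_le_exp.mpr h6
      _ = 8 * N * (1 + Real.log G) / Real.log N * Real.exp (-((z:ℝ) / 16)) := by
          have : Real.exp (-((z:ℝ) / 16)) = Real.exp ((z:ℝ) / 16) * Real.exp (-((z:ℝ) / 8)) := by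
            rw [← Real.exp_add]; congr 1; ring
          rw [this]; ring
      _ ≤ _ := by
          apply mul_le_mul_of_nonneg_left _ (by positivity)
          rw [Real.exp_neg, ← one_div, mul_one_div, div_le_div_iff₀ (Real.exp_pos _) (by positivity)]
          have h7 := Real.quadratic_le_exp_of_nonneg (x := (z:ℝ) / 16) (by positivity)
          nlinarith
  refine (sum_le_sum h4).trans ?_
  rw [← mul_sum, ← mul_sum]
  have h5 : ∑ z ∈ Ioc B (8 * N), (1:ℝ) / (z:ℝ) ^ 2 ≤ (2:ℝ) / (B:ℝ) := by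
    have h6 := sum_inv_sq_tail B (8 * N) (by omega)
    refine le_trans ?_ h6
    apply sum_le_sum_of_subset_of_nonneg
    · exact Ioc_subset_Icc_self
    · intro _ _ _; positivity
  calc _ ≤ 8 * N * (1 + Real.log G) / Real.log N * (512 * (2 / B)) := by
        apply mul_le_mul_of_nonneg_left _ (by positivity)
        linarith
    _ = _ := by field_simp; ring

end Helper96.D6
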