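import Mathlib
import Pool.Agent.Helper96.D6E
import Pool.Agent.Helper27.D6Defs
import Pool.Agent.Helper96.D6C

/-!
# Module D: a positive proportion of the integers in `(N/2, N]` is good
-/

open Finset Filter

namespace Helper96.D6

/-- property (b) -/
def PropB (G m : ℕ) : Prop := ∃ P₂ : ℕ, P₂.Prime ∧ P₂ ∣ m - 1 ∧ ¬ P₂ ^ 2 ∣ m - 1 ∧ G ^ 12 < P₂

/-- property (c) -/
def PropC (B G m : ℕ) : Prop := ∃ i : ℕ, 1 ≤ i ∧ i < B ∧ ∃ k' p : ℕ, m - i = k' * p ∧ p.Prime ∧ k' < G

open Classical in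
lemma card_notB_le (G N T : ℕ) (hG : 2 ≤ G) (hT : 1 ≤ T) (hN : 4 ≤ N)
    (hL : 0 < Real.log N - Real.log 4 - 2 * Real.log T) :
    (#((Ioc (N / 2) N).filter (fun m => ¬ PropB G m)) : ℝ) ≤
      (2 * N / T + 6 * N * (12 * Real.log G) ^ 2 / (Real.log N - Real.log 4 - 2 * Real.log T) ^ 2) +
        2 * N / (G ^ 12 + 1 : ℕ) := by
  have hy : 4 ≤ G ^ 12 := by
    calc 4 ≤ 2 ^ 12 := by norm_num
      _ ≤ G ^ 12 := Nat.pow_le_pow_left hG 12
  have h1 := smooth_count (G ^ 12) N T hy hT hL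
  have h2 := card_square_multiples N (G ^ 12 + 1) (by omega)
  have h3 : #((Ioc (N / 2) N).filter (fun m => ¬ PropB G m)) ≤
      #((Icc 1 N).filter (fun n => N ≤ 4 * n ∧ ∀ p : ℕ, p.Prime → p ∣ n → p ≤ G ^ 12) ∪
        (Icc 1 N).filter (fun n => ∃ t, G ^ 12 + 1 ≤ t ∧ t ^ 2 ∣ n)) := by
    apply card_le_card_of_injOn (fun m => m - 1)
    · intro m hm
      rw [mem_coe, mem_filter, mem_Ioc] at hm
      obtain ⟨⟨hm1, hm2⟩, hB⟩ := hm
      have hm3 : 1 ≤ m - 1 := by omega
      have hm4 : m - 1 ≤ N := by omega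
      have hm5 : N ≤ 4 * (m - 1) := by omega
      rw [mem_coe, mem_union, mem_filter, mem_filter, mem_Icc]
      by_cases hsm : ∀ p : ℕ, p.Prime → p ∣ m - 1 → p ≤ G ^ 12
      · left
        exact ⟨⟨hm3, hm4⟩, hm5, hsm⟩
      · right
        push Not at hsm
        obtain ⟨p, hp, hpm, hpG⟩ := hsm
        refine ⟨⟨hm3, hm4⟩, p, by omega, ?_⟩
        by_contra hcon
        exact hB ⟨p, hp, hpm, hcon, hpG⟩
    · intro a ha b hb hab
      rw [mem_coe, mem_filter, mem_Ioc] at ha hb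
      simp only at hab
      omega
  have h4 := h3.trans (card_union_le _ _)
  have h5 : (#((Ioc (N / 2) N).filter (fun m => ¬ PropB G m)) : ℝ) ≤
      (#((Icc 1 N).filter (fun n => N ≤ 4 * n ∧ ∀ p : ℕ, p.Prime → p ∣ n → p ≤ G ^ 12)) : ℝ) +
        (#((Icc 1 N).filter (fun n => ∃ t, G ^ 12 + 1 ≤ t ∧ t ^ 2 ∣ n)) : ℝ) := by exact_mod_cast h4
  have h6 : Real.log ((G ^ 12 : ℕ) : ℝ) = 12 * Real.log G := by
    push_cast
    rw [Real.log_pow]
    norm_num
  rw [h6] at h1
  linarith

open Classical in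
lemma card_notC_le (B G N : ℕ) (hB : 1 ≤ B) :
    #((setA B G N).filter (fun m => ¬ PropC B G m)) ≤ N / B + 1 := by
  have h1 : #((setA B G N).filter (fun m => ¬ PropC B G m)) ≤ #(range (N / B + 1)) := by
    apply card_le_card_of_injOn (fun m => m / B)
    · intro m hm
      rw [mem_coe, mem_filter, setA, mem_filter, mem_Ioc] at hm
      rw [mem_coe, mem_range]
      have := Nat.div_le_div_right (c := B) hm.1.1.2
      simp only
      omega
    · have key : ∀ a ∈ (setA B G N).filter (fun m => ¬ PropC B G m),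
          ∀ b ∈ (setA B G N).filter (fun m => ¬ PropC B G m), a / B = b / B → ¬ a < b := by
        intro a ha b hb hab hlt
        rw [mem_filter, setA, mem_filter, mem_Ioc] at ha hb
        apply hb.2
        have h2 : b - a < B := by
          have h3 := Nat.div_add_mod a B
          have h4 := Nat.div_add_mod b B
          have h5 := Nat.mod_lt b (show 0 < B by omega)
          rw [hab] at h3
          omega
        obtain ⟨k, P, hk, hP, _, hkG, _⟩ := ha.1.2
        exact ⟨b - a, by omega, h2, k, P, by rw [← hk]; omega, hP, hkG⟩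
      intro a ha b hb hab
      rcases lt_trichotomy a b with h | h | h
      · exact absurd h (key a ha b hb hab)
      · exact h
      · exact absurd h (key b hb a ha hab.symm)
  rwa [card_range] at h1

/-- exponent facts: choice of `s`. -/
lemma choose_s (s₀ : ℕ) : ∃ s : ℕ, s₀ ≤ s ∧ 2 ≤ s ∧
    (10000 : ℝ) * 512 ≤ (s : ℝ) ^ (11 / 35 : ℝ) := by
  have h : Tendsto (fun s : ℕ => (s : ℝ) ^ (11 / 35 : ℝ)) atTop atTop :=
    (tendsto_rpow_atTop (by norm_num)).comp tendsto_natCast_atTop_atTop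
  obtain ⟨s, hs⟩ := ((h.eventually_ge_atTop ((10000 : ℝ) * 512)).and
    ((eventually_ge_atTop s₀).and (eventually_ge_atTop 2))).exists
  exact ⟨s, hs.2.1, hs.2.2, hs.1⟩

theorem countGood : Pool.Agent.Helper27.D6.CountGood := by
  classical
  intro s₀
  obtain ⟨B₀, hB₀⟩ := card_badD_le
  obtain ⟨N₁, hN₁⟩ := primesK_ge
  obtain ⟨s, hs0, hs2, hsbig⟩ := choose_s (s₀ + B₀)
  set B := s ^ 2 with hB
  have hBs : s ≤ B := Nat.le_self_pow (by norm_num) s
  have hB2 : 2 ≤ B := by omega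
  have hs' : (0:ℝ) < s := by exact_mod_cast (by omega : 0 < s)
  have hB' : (0:ℝ) < B := by exact_mod_cast (by omega : 0 < B)
  refine ⟨s, B, by omega, hB2, 1 / (s:ℝ) ^ 2, by positivity, ?_⟩
  set R : ℝ := (B : ℝ) ^ (12 / 35 : ℝ) with hR
  have hR1 : 1 ≤ R := Real.one_le_rpow (by exact_mod_cast (by omega : 1 ≤ B)) (by norm_num)
  -- `G₀`
  set G₀ := ⌈Real.exp (32 * R)⌉₊ + B + 2 with hG₀
  refine ⟨N₁ + (G₀ + 1) ^ (2 * s) + ⌈Real.exp (2 * Real.log 4 + 4 * Real.log B)⌉₊ + B, ?_⟩
  intro N hN G hGN hNG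
  -- `G ≥ G₀`
  have hGG : G₀ ≤ G := by
    by_contra hcon
    have h1 : (G + 1) ^ (2 * s) ≤ (G₀ + 1) ^ (2 * s) := Nat.pow_le_pow_left (by omega) _
    omega
  have hG2 : 2 ≤ G := by omega
  have hG' : (0:ℝ) < G := by exact_mod_cast (by omega : 0 < G)
  have hGsq : G ^ 4 ≤ N := by
    calc G ^ 4 ≤ G ^ (2 * s) := Nat.pow_le_pow_right (by omega) (by omega)
      _ ≤ N := hGN
  have hGsq2 : 2 * G ^ 2 ≤ N := by
    calc 2 * G ^ 2 ≤ G ^ 2 * G ^ 2 := Nat.mul_le_mul_right _ (by nlinarith)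
      _ = G ^ 4 := by ring
      _ ≤ N := hGsq
  have hN4 : 4 ≤ N := by nlinarith
  have hN' : (0:ℝ) < N := by exact_mod_cast (by omega : 0 < N)
  have hlN : 0 < Real.log N := Real.log_pos (by exact_mod_cast (by omega : 1 < N))
  -- `log G`
  have hlG : 32 * R ≤ Real.log G := by
    rw [Real.le_log_iff_exp_le hG']
    refine (Nat.le_ceil _).trans ?_
    exact_mod_cast (by omega : ⌈Real.exp (32 * R)⌉₊ ≤ G)
  have hlG1 : 1 ≤ Real.log G := by linarith
  -- comparison of `log N` and `log G`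
  have hlow : 2 * s * Real.log G ≤ Real.log N := by
    have h1 : Real.log ((G ^ (2 * s) : ℕ) : ℝ) ≤ Real.log N :=
      Real.log_le_log (by positivity) (by exact_mod_cast hGN)
    push_cast at h1
    rw [Real.log_pow] at h1
    push_cast at h1
    exact h1
  have hup : Real.log N ≤ 4 * s * Real.log G := by
    have h1 : Real.log N ≤ Real.log (((G ^ 2) ^ (2 * s) : ℕ) : ℝ) := by
      apply Real.log_le_log hN'
      have h2 : G + 1 ≤ G ^ 2 := by nlinarith
      have h3 : (G + 1) ^ (2 * s) ≤ (G ^ 2) ^ (2 * s) := Nat.pow_le_pow_left h2 _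
      exact_mod_cast (hNG.le.trans h3)
    push_cast at h1
    rw [Real.log_pow, Real.log_pow] at h1
    push_cast at h1
    linarith
  -- lower bound for `setA`
  have hA := card_setA_ge B G N hG2 hGsq2 (fun k hk hkG => hN₁ N (by omega) k hk
    (by calc k ^ 2 ≤ G ^ 2 := Nat.pow_le_pow_left hkG.le 2
          _ ≤ N := by omega))
  have hsum : Real.log G / (32 * R) ≤ ∑ k ∈ roughSqf B (G - 1), (1 : ℝ) / k - 1 := by
    have h1 := log_le B (G - 1)
    have h2 : ((G - 1 : ℕ) : ℝ) + 1 = G := by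
      rw [Nat.cast_sub (by omega)]; push_cast; ring
    rw [h2] at h1
    have h3 := prod_primes_le B (by omega)
    have h4 : 0 ≤ ∑ k ∈ roughSqf B (G - 1), (1 : ℝ) / k := sum_nonneg (fun _ _ => by positivity)
    have h5 : Real.log G ≤ 16 * R * ∑ k ∈ roughSqf B (G - 1), (1 : ℝ) / k := by
      refine h1.trans ?_
      apply mul_le_mul_of_nonneg_right _ h4
      linarith
    have h6 : Real.log G / (16 * R) ≤ ∑ k ∈ roughSqf B (G - 1), (1 : ℝ) / k := by
      rw [div_le_iff₀ (by positivity)]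
      linarith
    have h7 : Real.log G / (32 * R) + 1 ≤ Real.log G / (16 * R) := by
      have h8 : 1 ≤ Real.log G / (32 * R) := by
        rw [le_div_iff₀ (by positivity)]; linarith
      have h9 : Real.log G / (16 * R) = Real.log G / (32 * R) + Real.log G / (32 * R) := by
        field_simp; ring
      linarith
    linarith
  have hA2 : (N : ℝ) / (512 * s * R) ≤ #(setA B G N) := by
    refine le_trans ?_ hA
    calc (N : ℝ) / (512 * s * R) = N / (4 * (4 * s * Real.log G)) * (Real.log G / (32 * R)) := by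
          field_simp; ring
      _ ≤ N / (4 * Real.log N) * (Real.log G / (32 * R)) := by
          apply mul_le_mul_of_nonneg_right _ (by positivity)
          apply div_le_div_of_nonneg_left hN'.le (by positivity)
          linarith
      _ ≤ _ := by
          apply mul_le_mul_of_nonneg_left hsum (by positivity)
  -- bad (b)
  have hLbig : Real.log N / 2 ≤ Real.log N - Real.log 4 - 2 * Real.log B := by
    have h1 : 2 * Real.log 4 + 4 * Real.log B ≤ Real.log N := by
      rw [Real.le_log_iff_exp_le hN']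
      refine (Nat.le_ceil _).trans ?_
      exact_mod_cast (by omega : ⌈Real.exp (2 * Real.log 4 + 4 * Real.log B)⌉₊ ≤ N)
    linarith
  have hbB := card_notB_le G N B hG2 (by omega) hN4 (by linarith)
  have hbB2 : (#((Ioc (N / 2) N).filter (fun m => ¬ PropB G m)) : ℝ) ≤ 900 * (N / (s:ℝ) ^ 2) := by
    refine hbB.trans ?_
    have hBcast : (B : ℝ) = (s:ℝ) ^ 2 := by rw [hB]; push_cast; ring
    have e1 : 2 * (N:ℝ) / B = 2 * (N / (s:ℝ) ^ 2) := by rw [hBcast]; ring
    have e2 : 6 * (N:ℝ) * (12 * Real.log G) ^ 2 / (Real.log N - Real.log 4 - 2 * Real.log B) ^ 2 ≤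
        864 * (N / (s:ℝ) ^ 2) := by
      calc _ ≤ 6 * (N:ℝ) * (12 * Real.log G) ^ 2 / (Real.log N / 2) ^ 2 := by
            apply div_le_div_of_nonneg_left (by positivity) (by positivity)
            apply pow_le_pow_left₀ (by positivity) hLbig
        _ ≤ 6 * (N:ℝ) * (6 * (Real.log N / s)) ^ 2 / (Real.log N / 2) ^ 2 := by
            apply div_le_div_of_nonneg_right _ (by positivity)
            apply mul_le_mul_of_nonneg_left _ (by positivity)
            apply pow_le_pow_left₀ (by positivity)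
            rw [← mul_div_assoc, le_div_iff₀ hs']
            linarith
        _ = _ := by field_simp; ring
    have e3 : 2 * (N:ℝ) / ((G ^ 12 + 1 : ℕ) : ℝ) ≤ 2 * (N / (s:ℝ) ^ 2) := by
      rw [← mul_div_assoc]
      apply div_le_div_of_nonneg_left (by positivity) (by positivity)
      have : B ≤ G ^ 12 + 1 := by
        calc B ≤ G := by omega
          _ ≤ G ^ 12 := Nat.le_self_pow (by norm_num) G
          _ ≤ G ^ 12 + 1 := by omega
      rw [← hBcast]
      exact_mod_cast this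
    rw [e1]
    have hpos : 0 ≤ (N:ℝ) / (s:ℝ) ^ 2 := by positivity
    linarith
  -- bad (c)
  have hbC := card_notC_le B G N (by omega)
  have hbC2 : (#((setA B G N).filter (fun m => ¬ PropC B G m)) : ℝ) ≤ 2 * (N / (s:ℝ) ^ 2) := by
    have hBcast : (B : ℝ) = (s:ℝ) ^ 2 := by rw [hB]; push_cast; ring
    have h1 : (#((setA B G N).filter (fun m => ¬ PropC B G m)) : ℝ) ≤ ((N / B : ℕ) : ℝ) + 1 := by
      exact_mod_cast hbC
    have h2 : ((N / B : ℕ) : ℝ) ≤ (N:ℝ) / B := Nat.cast_div_le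
    have h3 : 1 ≤ (N:ℝ) / B := by
      rw [le_div_iff₀ hB', one_mul]
      exact_mod_cast (by omega : B ≤ N)
    rw [← hBcast]
    linarith
  -- bad (d)
  have hbD := hB₀ B (by omega) G N hG2 (by omega)
  have hbD2 : (#(badD B G N) : ℝ) ≤ 8192 * (N / (s:ℝ) ^ 2) := by
    have hBcast : (B : ℝ) = (s:ℝ) ^ 2 := by rw [hB]; push_cast; ring
    refine hbD.trans ?_
    rw [hBcast]
    have h1 : 1 + Real.log G ≤ Real.log N := by
      have h2 : (2:ℝ) ≤ 2 * s := by
        have : (1:ℝ) ≤ s := by exact_mod_cast (by omega : 1 ≤ s)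
        linarith
      nlinarith
    calc 8192 * (N:ℝ) * (1 + Real.log G) / ((s:ℝ) ^ 2 * Real.log N) ≤
          8192 * (N:ℝ) * Real.log N / ((s:ℝ) ^ 2 * Real.log N) := by gcongr
      _ = _ := by field_simp
  -- assembly
  have hsub : setA B G N ⊆ Pool.Agent.Helper27.D6.goodSet B G N ∪
      ((Ioc (N / 2) N).filter (fun m => ¬ PropB G m) ∪
      ((setA B G N).filter (fun m => ¬ PropC B G m) ∪ badD B G N)) := by
    intro m hm
    rw [mem_union, mem_union, mem_union]
    have hm' := hm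
    rw [setA, mem_filter, mem_Ioc] at hm'
    by_cases h1 : PropB G m
    swap
    · right; left
      rw [mem_filter, mem_Ioc]
      exact ⟨hm'.1, h1⟩
    by_cases h2 : PropC B G m
    swap
    · right; right; left
      rw [mem_filter]
      exact ⟨hm, h2⟩
    by_cases h3 : FailD B G m
    · right; right; right
      rw [badD, mem_filter, mem_Icc]
      exact ⟨⟨by omega, hm'.1.2⟩, h3⟩
    left
    rw [Pool.Agent.Helper27.D6.goodSet, mem_filter, mem_Ioc]
    refine ⟨hm'.1, ?_⟩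
    obtain ⟨k, P, hk, hP, hk2, hkG, hksq, hkr⟩ := hm'.2
    refine ⟨k, P, hk, hP, hk2, hkG, hksq, hkr, h1, h2, ?_⟩
    intro k' z hk' hkk hsq
    exact h3 ⟨k, P, hk, hP, hk2, hkG, hksq, hkr, k', z, hk', hkk, hsq⟩
  have hcard := (card_le_card hsub).trans ((card_union_le _ _).trans
    (Nat.add_le_add_left ((card_union_le _ _).trans (Nat.add_le_add_left (card_union_le _ _) _)) _))
  have hcard' : (#(setA B G N) : ℝ) ≤ #(Pool.Agent.Helper27.D6.goodSet B G N) +
      ((#((Ioc (N / 2) N).filter (fun m => ¬ PropB G m)) : ℝ) +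
      ((#((setA B G N).filter (fun m => ¬ PropC B G m)) : ℝ) + #(badD B G N))) := by
    exact_mod_cast hcard
  -- main comparison
  have hmain : 10000 * (N / (s:ℝ) ^ 2) ≤ (N : ℝ) / (512 * s * R) := by
    have hRs : R * s ^ (11 / 35 : ℝ) = s := by
      rw [hR, hB]
      push_cast
      rw [← Real.rpow_natCast, ← Real.rpow_mul hs'.le, ← Real.rpow_add hs']
      norm_num
    have hRpos : 0 < R := by linarith
    rw [le_div_iff₀ (by positivity)]
    have h1 : 10000 * 512 * R ≤ s := by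
      calc 10000 * 512 * R ≤ (s:ℝ) ^ (11 / 35 : ℝ) * R := mul_le_mul_of_nonneg_right hsbig hRpos.le
        _ = s := by rw [mul_comm]; exact hRs
    calc 10000 * ((N:ℝ) / (s:ℝ) ^ 2) * (512 * s * R) = (N / s) * (10000 * 512 * R) := by
          field_simp
      _ ≤ (N / s) * s := mul_le_mul_of_nonneg_left h1 (by positivity)
      _ = N := by field_simp
  have hpos : 0 ≤ (N:ℝ) / (s:ℝ) ^ 2 := by positivity
  have e : 1 / (s:ℝ) ^ 2 * N = N / (s:ℝ) ^ 2 := by ring
  rw [e]
  linarith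

end Helper96.D6
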