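import Pool.Agent.Helper75.KT.MatC
/-! L9: perturbation lemmas over C(V) for MP_0ce5f1_an (helper75). -/

set_option linter.unusedSectionVars false

namespace Pool.Agent.Helper75.KT
open Matrix
open scoped Kronecker ComplexOrder Matrix.Norms.L2Operator CStarAlgebra

/-- the step function -/
noncomputable def stepF : ℝ → ℝ := fun t => if t < 1 / 2 then 0 else 1

theorem stepF_sq (t : ℝ) : stepF t * stepF t = stepF t := by
  simp only [stepF]
  split_ifs <;> simp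

theorem stepF_near (t : ℝ) : ‖t - stepF t‖ ≤ 2 * ‖t * t - t‖ := by
  have e : t * t - t = t * (t - 1) := by ring
  rw [e, norm_mul]
  simp only [stepF]
  split_ifs with h
  · have : 1 / 2 ≤ ‖t - 1‖ := by
      rw [Real.norm_eq_abs, abs_sub_comm, abs_of_pos (by linarith)]; linarith
    rw [sub_zero]
    nlinarith [norm_nonneg t]
  · have : 1 / 2 ≤ ‖t‖ := by
      rw [Real.norm_eq_abs, abs_of_pos (by linarith)]; linarith
    nlinarith [norm_nonneg (t - 1)]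

theorem stepF_contOn {S : Set ℝ} {δ : ℝ} (hδ : δ < 1 / 4) (h : ∀ t ∈ S, ‖t * t - t‖ ≤ δ) :
    ContinuousOn stepF S := by
  intro t ht
  have h1 := h t ht
  have h2 : t ≠ 1 / 2 := by
    rintro rfl
    norm_num at h1
    linarith
  apply ContinuousAt.continuousWithinAt
  rcases lt_or_gt_of_ne h2 with h3 | h3
  · have : stepF =ᶠ[nhds t] fun _ => 0 := by
      filter_upwards [Iio_mem_nhds h3] with s hs
      have hs' : s < 1 / 2 := hs
      simp only [stepF, if_pos hs']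
    exact (continuousAt_congr this).2 continuousAt_const
  · have : stepF =ᶠ[nhds t] fun _ => 1 := by
      filter_upwards [Ioi_mem_nhds h3] with s hs
      have hs' : ¬ s < 1 / 2 := not_lt.2 (le_of_lt hs)
      simp only [stepF, if_neg hs']
    exact (continuousAt_congr this).2 continuousAt_const

theorem near_abstract {M κ : Type*} [Fintype κ] [DecidableEq κ] [CStarAlgebra M] (b : M)
    (hb : star b = b) (δ : ℝ)
    (hδ : δ < 1 / 4) (h : ∀ t ∈ spectrum ℝ b, ‖t * t - t‖ ≤ δ) :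
    ∃ E : M, E * E = E ∧ star E = E ∧ ∀ (φ : M →⋆ₐ[ℂ] Matrix κ κ ℂ),
      φ E = cfc stepF (φ b) := by
  have hsb : IsSelfAdjoint b := hb
  have hfc : ContinuousOn stepF (spectrum ℝ b) := stepF_contOn hδ h
  refine ⟨cfc stepF b, ?_, ?_, ?_⟩
  · rw [← cfc_mul stepF stepF b hfc hfc]
    congr 1
    ext t
    exact stepF_sq t
  · have : IsSelfAdjoint (cfc stepF b) := cfc_predicate stepF b
    exact this
  · intro φ
    have hcont : Continuous φ := map_continuous φ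
    exact StarAlgHom.map_cfc φ stepF b hfc hcont hsb (by
      change star (φ b) = φ b
      rw [← map_star, hb])

variable {V : Type*} [TopologicalSpace V] [CompactSpace V]
variable {ι κ : Type*} [Fintype ι] [Fintype κ] [DecidableEq ι] [DecidableEq κ]

theorem evM_algebraMap (x : V) (c : ℂ) :
    evM x ((algebraMap ℂ (Matrix κ κ C(V, ℂ))) c) = algebraMap ℂ (Matrix κ κ ℂ) c := by
  ext i j
  simp only [evM, Matrix.algebraMap_matrix_apply]
  split_ifs <;> rfl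

/-- evaluation at a point, as a star algebra homomorphism of matrix C*-algebras -/
noncomputable def evS (x : V) : CStarMatrix κ κ C(V, ℂ) →⋆ₐ[ℂ] Matrix κ κ ℂ where
  toFun a := evM x (CStarMatrix.ofMatrix.symm a)
  map_one' := evM_one x
  map_mul' _ _ := evM_mul x _ _
  map_zero' := evM_zero x
  map_add' _ _ := evM_add x _ _
  map_star' _ := evM_conjT x _
  commutes' c := evM_algebraMap x c

theorem near_prC (a : Matrix κ κ C(V, ℂ)) (ha : aᴴ = a) (δ : ℝ) (hδ : δ < 1 / 4)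
    (h : ∀ x, ‖evM x (a * a - a)‖ ≤ δ) :
    ∃ E : Matrix κ κ C(V, ℂ), IsPr E ∧ ∀ x, ‖evM x (a - E)‖ ≤ 2 * δ := by
  let _ := CStarAlgebra.spectralOrder C(V, ℂ)
  have _ := CStarAlgebra.spectralOrderedRing C(V, ℂ)
  have hsax : ∀ x, IsSelfAdjoint (evM x a) := fun x => by
    change (evM x a)ᴴ = evM x a
    rw [← evM_conjT, ha]
  have hc : ∀ x, ∀ g : ℝ → ℝ, ContinuousOn g (spectrum ℝ (evM x a)) := fun x g =>
    (Matrix.finite_real_spectrum).continuousOn g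
  -- pointwise spectrum bound
  have hsp : ∀ x, ∀ t ∈ spectrum ℝ (evM x a), ‖t * t - t‖ ≤ δ := by
    intro x
    have h2 : evM x a * evM x a - evM x a = cfc (fun t : ℝ => t * t - t) (evM x a) := by
      rw [cfc_sub (fun t : ℝ => t * t) (fun t => t) (evM x a) (hc x _) (hc x _),
        cfc_mul (fun t : ℝ => t) (fun t => t) (evM x a)
        (hc x _) (hc x _), cfc_id' ℝ (evM x a)]
    have h3 := h x
    rw [evM_sub, evM_mul, h2] at h3
    exact fun t ht => (norm_cfc_le_iff (fun t : ℝ => t * t - t) (evM x a) ((norm_nonneg _).trans h3)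
      (hc x _) (hsax x)).1 h3 t ht
  obtain ⟨E, hE1, hE2, hE3⟩ := near_abstract (κ := κ) (M := CStarMatrix κ κ C(V, ℂ))
    (CStarMatrix.ofMatrix a) ha δ hδ (by
    intro t ht
    by_contra hcon
    apply ht
    have hu : IsUnit ((algebraMap ℂ (Matrix κ κ C(V, ℂ))) (t : ℂ) - a) := by
      apply isUnit_of_evM
      intro x
      rw [evM_sub, evM_algebraMap]
      by_contra hnu
      exact hcon (hsp x t hnu)
    exact hu)
  refine ⟨CStarMatrix.ofMatrix.symm E, ⟨hE1, hE2⟩, ?_⟩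
  intro x
  have hmap : evM x (CStarMatrix.ofMatrix.symm E) = cfc stepF (evM x a) := hE3 (evS x)
  rw [evM_sub, hmap]
  have h1 : evM x a - cfc stepF (evM x a) = cfc (fun t => t - stepF t) (evM x a) := by
    rw [cfc_sub (fun t => t) stepF (evM x a) (hc x _) (hc x _), cfc_id' ℝ (evM x a)]
  rw [h1]
  have hδ0 : 0 ≤ δ := (norm_nonneg _).trans (h x)
  apply norm_cfc_le (by positivity)
  intro t ht
  have h4 := hsp x t ht
  have h5 := stepF_near t
  linarith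

/-- norm bound for a matrix from the norm of `Wᴴ W`. -/
theorem norm_le_of_conjT_mul_le' {A : Matrix ι κ ℂ} {c : ℝ} (hc : 0 ≤ c) (h : ‖Aᴴ * A‖ ≤ c ^ 2) :
    ‖A‖ ≤ c := by
  have h1 : ‖Aᴴ * A‖ = ‖A‖ * ‖A‖ := Matrix.l2_opNorm_conjTranspose_mul_self A
  rw [h1] at h
  by_contra h2
  push Not at h2
  nlinarith [norm_nonneg A]

/-- The pointwise estimate: if `‖Wᴴ W - Q‖ ≤ ε` and `‖W Wᴴ - P‖ ≤ ε`, then `W' = P W Q` satisfies
`‖W'ᴴ W' - Q‖ < 1`. -/
theorem near_aux {P : Matrix ι ι ℂ} {Q : Matrix κ κ ℂ} {W : Matrix ι κ ℂ}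
    (hP : IsPr P) (hQ : IsPr Q) {ε : ℝ} (hε : ε ≤ 1 / 100)
    (h1 : ‖Wᴴ * W - Q‖ ≤ ε) (h2 : ‖W * Wᴴ - P‖ ≤ ε) :
    ‖(P * W * Q)ᴴ * (P * W * Q) - Q‖ < 1 := by
  have hε0 : 0 ≤ ε := (norm_nonneg _).trans h1
  have hPn := norm_pr_le hP
  have hQn := norm_pr_le hQ
  -- `(PWQ)ᴴ (PWQ) - Q = Q (Wᴴ P W - Q) Q`
  have e1 : (P * W * Q)ᴴ * (P * W * Q) - Q = Q * (Wᴴ * P * W - Q) * Q := by
    have hPP := hP.1
    have hQQ := hQ.1
    rw [conjTranspose_mul, conjTranspose_mul, hP.2, hQ.2]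
    calc Q * (Wᴴ * P) * (P * W * Q) - Q = Q * Wᴴ * (P * P) * W * Q - Q := by
          simp only [Matrix.mul_assoc]
      _ = Q * Wᴴ * P * W * Q - Q * Q * Q := by rw [hPP, hQQ, hQQ]
      _ = Q * (Wᴴ * P * W - Q) * Q := by
          rw [Matrix.mul_sub, Matrix.sub_mul]; simp only [Matrix.mul_assoc]
  -- `Wᴴ P W - Q = Wᴴ (P - W Wᴴ) W + (Wᴴ W - Q) (Wᴴ W) + Q (Wᴴ W - Q)`
  have e2 : Wᴴ * P * W - Q = Wᴴ * (P - W * Wᴴ) * W
      + (Wᴴ * W - Q) * (Wᴴ * W) + Q * (Wᴴ * W - Q) := by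
    have hQQ := hQ.1
    simp only [Matrix.mul_sub, Matrix.sub_mul, Matrix.mul_assoc, hQQ]
    abel
  have hWW : ‖Wᴴ * W‖ ≤ 2 := by
    have : Wᴴ * W = (Wᴴ * W - Q) + Q := by abel
    rw [this]
    refine (norm_add_le _ _).trans ?_
    linarith
  have hW : ‖W‖ ≤ 2 := norm_le_of_conjT_mul_le' (by norm_num) (hWW.trans (by norm_num))
  have hW' : ‖Wᴴ‖ ≤ 2 := by rw [Matrix.l2_opNorm_conjTranspose]; exact hW
  have h2' : ‖P - W * Wᴴ‖ ≤ ε := by rw [norm_sub_rev]; exact h2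
  have n1 : ‖Wᴴ * (P - W * Wᴴ) * W‖ ≤ 4 * ε := by
    calc _ ≤ ‖Wᴴ * (P - W * Wᴴ)‖ * ‖W‖ := Matrix.l2_opNorm_mul _ _
      _ ≤ (‖Wᴴ‖ * ‖P - W * Wᴴ‖) * ‖W‖ := by gcongr; exact Matrix.l2_opNorm_mul _ _
      _ ≤ (2 * ε) * 2 := by gcongr
      _ = 4 * ε := by ring
  have n2 : ‖(Wᴴ * W - Q) * (Wᴴ * W)‖ ≤ 2 * ε := by
    calc _ ≤ ‖Wᴴ * W - Q‖ * ‖Wᴴ * W‖ := Matrix.l2_opNorm_mul _ _
      _ ≤ ε * 2 := by gcongr
      _ = 2 * ε := by ring
  have n3 : ‖Q * (Wᴴ * W - Q)‖ ≤ ε := by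
    calc _ ≤ ‖Q‖ * ‖Wᴴ * W - Q‖ := Matrix.l2_opNorm_mul _ _
      _ ≤ 1 * ε := by gcongr
      _ = ε := by ring
  have n4 : ‖Wᴴ * P * W - Q‖ ≤ 7 * ε := by
    rw [e2]
    refine (norm_add_le _ _).trans ?_
    have := norm_add_le (Wᴴ * (P - W * Wᴴ) * W) ((Wᴴ * W - Q) * (Wᴴ * W))
    linarith
  rw [e1]
  have n5 : ‖Q * (Wᴴ * P * W - Q) * Q‖ ≤ 7 * ε := by
    calc _ ≤ ‖Q * (Wᴴ * P * W - Q)‖ * ‖Q‖ := Matrix.l2_opNorm_mul _ _
      _ ≤ (‖Q‖ * ‖Wᴴ * P * W - Q‖) * ‖Q‖ := by gcongr; exact Matrix.l2_opNorm_mul _ _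
      _ ≤ (1 * (7 * ε)) * 1 := by gcongr
      _ = 7 * ε := by ring
  linarith

theorem eqv_of_near (P : Matrix ι ι C(V, ℂ)) (Q : Matrix κ κ C(V, ℂ)) (W : Matrix ι κ C(V, ℂ))
    (hP : IsPr P) (hQ : IsPr Q) (ε : ℝ) (hε : ε ≤ 1 / 100)
    (h1 : ∀ x, ‖evM x (Wᴴ * W - Q)‖ ≤ ε) (h2 : ∀ x, ‖evM x (W * Wᴴ - P)‖ ≤ ε) : Eqv P Q := by
  refine eqv_of_pointwise P Q (P * W * Q) hP hQ ?_ ?_ ?_ ?_
  · rw [← Matrix.mul_assoc, ← Matrix.mul_assoc, hP.1]
  · rw [Matrix.mul_assoc (P * W), hQ.1]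
  · intro x u hu hw
    have g1 := h1 x
    have g2 := h2 x
    rw [evM_sub, evM_mul, evM_conjT] at g1 g2
    refine near_inj (W := evM x (P * W * Q)) ?_ u hu hw
    rw [evM_mul, evM_mul]
    exact near_aux (hP.evM x) (hQ.evM x) hε g1 g2
  · intro x u hu hw
    have g1 := h1 x
    have g2 := h2 x
    rw [evM_sub, evM_mul, evM_conjT] at g1 g2
    refine near_inj (W := (evM x (P * W * Q))ᴴ) ?_ u hu hw
    have e : (evM x (P * W * Q))ᴴ = evM x Q * (evM x W)ᴴ * evM x P := by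
      rw [evM_mul, evM_mul, conjTranspose_mul, conjTranspose_mul, (hQ.evM x).2, (hP.evM x).2,
        Matrix.mul_assoc]
    rw [e]
    exact near_aux (hQ.evM x) (hP.evM x) hε (by rwa [conjTranspose_conjTranspose])
      (by rwa [conjTranspose_conjTranspose])

end Pool.Agent.Helper75.KT
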