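import Pool.Agent.Helper79.NC.Spec

/-!
# Smoothness of the spiral potential (module S1 for `MP_4787eb_gt`)
-/

namespace Pool.Agent.Helper96.NCS

open scoped ContDiff Topology
open Real Filter

/-- parameters `(t, v)` -/
abbrev P2 : Type := ℝ × (ℝ × ℝ)
/-- parameters `(t, c, s, v)` -/
abbrev P4 : Type := ℝ × ℝ × ℝ × (ℝ × ℝ)

/-- `(t, v) ↦ (t, cos (1/t), sin (1/t), v)` -/
noncomputable def Psi (p : P2) : P4 := (p.1, Real.cos (p.1⁻¹), Real.sin (p.1⁻¹), p.2)

/-- the weight `t^{-j} exp (-a t^{-7})` -/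
noncomputable def wt (a : ℝ) (j : ℕ) (t : ℝ) : ℝ := (t ^ j)⁻¹ * Real.exp (-(a * (t ^ 7)⁻¹))

/-- flat functions -/
noncomputable def fl {F : Type} [NormedAddCommGroup F] [NormedSpace ℝ F] (a : ℝ) (j : ℕ)
    (H : P4 → F) (p : P2) : F :=
  if p.1 ≤ 0 then 0 else wt a j p.1 • H (Psi p)

/-- the derivative of `Psi`, multiplied by `t^8` -/
noncomputable def MM (q : P4) : P2 →L[ℝ] P4 :=
  q.1 ^ 8 • (ContinuousLinearMap.fst ℝ ℝ (ℝ × ℝ)).prod
      ((0 : P2 →L[ℝ] ℝ).prod ((0 : P2 →L[ℝ] ℝ).prod (ContinuousLinearMap.snd ℝ ℝ (ℝ × ℝ))))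
    + (q.1 ^ 6 * q.2.2.1) • (0 : P2 →L[ℝ] ℝ).prod
      ((ContinuousLinearMap.fst ℝ ℝ (ℝ × ℝ)).prod ((0 : P2 →L[ℝ] ℝ × (ℝ × ℝ))))
    + (-(q.1 ^ 6 * q.2.1)) • (0 : P2 →L[ℝ] ℝ).prod
      ((0 : P2 →L[ℝ] ℝ).prod ((ContinuousLinearMap.fst ℝ ℝ (ℝ × ℝ)).prod (0 : P2 →L[ℝ] ℝ × ℝ)))

/-- the derivative of the flat function of `H` is the flat function of `dH` -/
noncomputable def dH {F : Type} [NormedAddCommGroup F] [NormedSpace ℝ F] (a : ℝ) (j : ℕ)
    (H : P4 → F) (q : P4) : P2 →L[ℝ] F :=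
  (7 * a - j * q.1 ^ 7) • (ContinuousLinearMap.fst ℝ ℝ (ℝ × ℝ)).smulRight (H q)
    + (fderiv ℝ H q).comp (MM q)

theorem hasFDerivAt_Psi {p : P2} (hp : 0 < p.1) :
    HasFDerivAt Psi ((p.1 ^ 8)⁻¹ • MM (Psi p)) p := by
  have h1 : HasFDerivAt (fun p : P2 => p.1) (ContinuousLinearMap.fst ℝ ℝ (ℝ × ℝ)) p :=
    hasFDerivAt_fst
  have h2 : HasFDerivAt (fun p : P2 => p.2) (ContinuousLinearMap.snd ℝ ℝ (ℝ × ℝ)) p :=
    hasFDerivAt_snd
  have hi : HasFDerivAt (fun p : P2 => p.1⁻¹)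
      (-(p.1 ^ 2)⁻¹ • ContinuousLinearMap.fst ℝ ℝ (ℝ × ℝ)) p := by
    have := (hasDerivAt_inv hp.ne').comp_hasFDerivAt p h1
    exact this
  have hc := hi.cos
  have hs := hi.sin
  have := h1.prodMk (hc.prodMk (hs.prodMk h2))
  refine this.congr_fderiv ?_
  have h0 : p.1 ≠ 0 := hp.ne'
  refine ContinuousLinearMap.ext fun v => ?_
  simp only [MM, Psi, ContinuousLinearMap.prod_apply, smul_apply, add_apply, zero_apply,
    ContinuousLinearMap.coe_fst', ContinuousLinearMap.coe_snd', smul_eq_mul, Prod.smul_mk,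
    Prod.mk_add_mk, mul_zero, smul_zero, add_zero, zero_add]
  refine Prod.ext ?_ (Prod.ext ?_ (Prod.ext ?_ ?_))
  · simp only; field_simp
  · simp only; field_simp
  · simp only; field_simp
  · simp only [smul_smul]
    rw [inv_mul_cancel₀ (pow_ne_zero _ h0), one_smul]

theorem hasDerivAt_wt (a : ℝ) (j : ℕ) {t : ℝ} (ht : 0 < t) :
    HasDerivAt (wt a j) ((7 * a - j * t ^ 7) * wt a (j + 8) t) t := by
  have h0 : t ≠ 0 := ht.ne'
  have h1 : HasDerivAt (fun t : ℝ => (t ^ j)⁻¹) (-(j * t ^ (j - 1)) / (t ^ j) ^ 2) t := by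
    have := (hasDerivAt_pow j t).inv (pow_ne_zero _ h0)
    exact this
  have h2 : HasDerivAt (fun t : ℝ => (t ^ 7)⁻¹) (-(7 * t ^ 6) / (t ^ 7) ^ 2) t := by
    have := (hasDerivAt_pow 7 t).inv (pow_ne_zero _ h0)
    refine this.congr_deriv ?_
    norm_num
  have h3 := ((h2.const_mul a).neg).exp
  have h4 := h1.mul h3
  refine h4.congr_deriv ?_
  simp only [Pi.neg_apply, wt]
  generalize Real.exp (-(a * (t ^ 7)⁻¹)) = E
  rcases j with _ | j
  · field_simp
    simp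
    ring
  · simp only [Nat.add_sub_cancel]
    push_cast
    field_simp
    ring

theorem wt_nonneg (a : ℝ) (j : ℕ) {t : ℝ} (ht : 0 < t) : 0 ≤ wt a j t := by
  unfold wt; positivity

theorem wt_le {a : ℝ} (ha : 0 < a) (j : ℕ) {t : ℝ} (ht : 0 < t) (ht1 : t ≤ 1) :
    wt a j t ≤ ((j + 2).factorial / a ^ (j + 2)) * t ^ 2 := by
  have hx : 0 ≤ a * (t ^ 7)⁻¹ := by positivity
  have h1 := Real.pow_div_factorial_le_exp (a * (t ^ 7)⁻¹) hx (j + 2)
  have hf : (0 : ℝ) < (j + 2).factorial := by exact_mod_cast Nat.factorial_pos _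
  have h2 : Real.exp (-(a * (t ^ 7)⁻¹)) ≤ (j + 2).factorial / (a * (t ^ 7)⁻¹) ^ (j + 2) := by
    rw [Real.exp_neg, ← one_div, one_div_le (Real.exp_pos _) (by positivity), one_div_div]
    exact h1
  calc wt a j t ≤ (t ^ j)⁻¹ * ((j + 2).factorial / (a * (t ^ 7)⁻¹) ^ (j + 2)) := by
        unfold wt; gcongr
    _ = ((j + 2).factorial / a ^ (j + 2)) * (t ^ (6 * j + 12) * t ^ 2) := by
        rw [mul_pow, inv_pow, ← pow_mul]
        have : t ^ (7 * (j + 2)) = t ^ (6 * j + 12) * t ^ 2 * t ^ j := by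
          rw [← pow_add, ← pow_add]; congr 1; ring
        rw [this]
        field_simp
    _ ≤ ((j + 2).factorial / a ^ (j + 2)) * (1 * t ^ 2) := by
        gcongr
        exact pow_le_one₀ ht.le ht1
    _ = _ := by rw [one_mul]

section
variable {F : Type} [NormedAddCommGroup F] [NormedSpace ℝ F]

theorem contDiff_MM : ContDiff ℝ ∞ MM := by
  unfold MM
  fun_prop

theorem contDiff_dH (a : ℝ) (j : ℕ) {H : P4 → F} (hH : ContDiff ℝ ∞ H) :
    ContDiff ℝ ∞ (dH a j H) := by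
  unfold dH
  have h1 : ContDiff ℝ ∞ (fderiv ℝ H) := hH.fderiv_right (by simp)
  have h2 : ContDiff ℝ ∞ fun q : P4 =>
      (ContinuousLinearMap.fst ℝ ℝ (ℝ × ℝ)).smulRight (H q) :=
    ContDiff.smulRight contDiff_const hH
  have h3 : ContDiff ℝ ∞ fun q : P4 => 7 * a - j * q.1 ^ 7 := by fun_prop
  exact ContDiff.add (h3.smul h2) (h1.clm_comp contDiff_MM)

theorem hasFDerivAt_fl_pos (a : ℝ) (j : ℕ) {H : P4 → F} (hH : ContDiff ℝ ∞ H) {p : P2}
    (hp : 0 < p.1) : HasFDerivAt (fl a j H) (fl a (j + 8) (dH a j H) p) p := by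
  have h0 : p.1 ≠ 0 := hp.ne'
  have hev : fl a j H =ᶠ[𝓝 p] fun p => wt a j p.1 • H (Psi p) := by
    have : ∀ᶠ q : P2 in 𝓝 p, 0 < q.1 :=
      (isOpen_lt continuous_const continuous_fst).mem_nhds hp
    filter_upwards [this] with q hq
    simp only [fl, not_le.2 hq, if_false]
  refine HasFDerivAt.congr_of_eventuallyEq ?_ hev
  have h1 : HasFDerivAt (fun p : P2 => wt a j p.1)
      (((7 * a - j * p.1 ^ 7) * wt a (j + 8) p.1) • ContinuousLinearMap.fst ℝ ℝ (ℝ × ℝ)) p :=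
    (hasDerivAt_wt a j hp).comp_hasFDerivAt p hasFDerivAt_fst
  have h2 : HasFDerivAt (fun p : P2 => H (Psi p))
      ((fderiv ℝ H (Psi p)).comp ((p.1 ^ 8)⁻¹ • MM (Psi p))) p :=
    (hH.differentiable (by simp) (Psi p)).hasFDerivAt.comp p (hasFDerivAt_Psi hp)
  have h3 := h1.smul h2
  refine h3.congr_fderiv ?_
  have hw : wt a j p.1 * (p.1 ^ 8)⁻¹ = wt a (j + 8) p.1 := by
    simp only [wt, pow_add, mul_inv]; ring
  refine ContinuousLinearMap.ext fun v => ?_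
  simp only [fl, not_le.2 hp, if_false, dH, add_apply, smul_apply,
    ContinuousLinearMap.comp_apply, ContinuousLinearMap.smulRight_apply,
    ContinuousLinearMap.coe_fst', map_smul, smul_add, smul_smul, hw]
  rw [add_comm]
  congr 2
  simp only [Psi, smul_eq_mul]
  ring

theorem fl_bound {a : ℝ} (ha : 0 < a) (j : ℕ) {H : P4 → F} (hH : Continuous H) (p : P2)
    (hp : p.1 ≤ 0) : ∃ C : ℝ, ∀ᶠ q in 𝓝 p, ‖fl a j H q‖ ≤ C * ‖q - p‖ ^ 2 := by
  have hK : IsCompact (Set.Icc (0 : ℝ) 1 ×ˢ Set.Icc (-1 : ℝ) 1 ×ˢ Set.Icc (-1 : ℝ) 1 ×ˢ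
      Metric.closedBall p.2 1) :=
    isCompact_Icc.prod (isCompact_Icc.prod (isCompact_Icc.prod (isCompact_closedBall _ _)))
  obtain ⟨B, hB⟩ := hK.exists_bound_of_continuousOn hH.continuousOn
  refine ⟨((j + 2).factorial / a ^ (j + 2)) * |B|, ?_⟩
  filter_upwards [Metric.ball_mem_nhds p one_pos] with q hq
  rw [Metric.mem_ball, dist_eq_norm] at hq
  by_cases h : q.1 ≤ 0
  · simp only [fl, h, if_true, norm_zero]
    positivity
  · have h' : 0 < q.1 := not_le.1 h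
    simp only [fl, h, if_false]
    have hq1 : |(q - p).1| ≤ ‖q - p‖ := norm_fst_le (q - p)
    have hq2 : ‖(q - p).2‖ ≤ ‖q - p‖ := norm_snd_le (q - p)
    have hle : q.1 ≤ ‖q - p‖ := by
      have h1 := le_abs_self (q - p).1
      have h2 : (q - p).1 = q.1 - p.1 := rfl
      linarith
    have hmem : Psi q ∈ Set.Icc (0 : ℝ) 1 ×ˢ Set.Icc (-1 : ℝ) 1 ×ˢ Set.Icc (-1 : ℝ) 1 ×ˢ
      Metric.closedBall p.2 1 := by
      have hq3 : q.1 ≤ 1 := by linarith
      refine ⟨⟨h'.le, hq3⟩, ⟨Real.neg_one_le_cos _, Real.cos_le_one _⟩,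
        ⟨Real.neg_one_le_sin _, Real.sin_le_one _⟩, ?_⟩
      rw [Metric.mem_closedBall, dist_eq_norm]
      have : ‖(q - p).2‖ ≤ 1 := by linarith
      exact this
    have hb := hB _ hmem
    rw [norm_smul, Real.norm_of_nonneg (wt_nonneg a j h')]
    have hw := wt_le ha j h' (by linarith)
    calc wt a j q.1 * ‖H (Psi q)‖
        ≤ (((j + 2).factorial / a ^ (j + 2)) * q.1 ^ 2) * |B| := by
          gcongr
          exact hb.trans (le_abs_self B)
      _ ≤ (((j + 2).factorial / a ^ (j + 2)) * ‖q - p‖ ^ 2) * |B| := by gcongr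
      _ = _ := by ring

theorem hasFDerivAt_fl {a : ℝ} (ha : 0 < a) (j : ℕ) {H : P4 → F} (hH : ContDiff ℝ ∞ H) (p : P2) :
    HasFDerivAt (fl a j H) (fl a (j + 8) (dH a j H) p) p := by
  by_cases hp : p.1 ≤ 0
  · obtain ⟨C, hC⟩ := fl_bound ha j hH.continuous p hp
    have : fl a (j + 8) (dH a j H) p = 0 := by simp only [fl, hp, if_true]
    rw [this]
    refine Asymptotics.IsBigO.hasFDerivAt (𝕜 := ℝ) (n := 2) ?_ (by norm_num)
    refine Asymptotics.IsBigO.of_bound C ?_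
    filter_upwards [hC] with q hq
    rwa [Real.norm_of_nonneg (by positivity)]
  · exact hasFDerivAt_fl_pos a j hH (not_le.1 hp)

end

theorem contDiff_fl_nat {a : ℝ} (ha : 0 < a) (n : ℕ) :
    ∀ {F : Type} [NormedAddCommGroup F] [NormedSpace ℝ F] (j : ℕ) {H : P4 → F},
      ContDiff ℝ ∞ H → ContDiff ℝ n (fl a j H) := by
  induction n with
  | zero =>
    intro F _ _ j H hH
    have hd : Differentiable ℝ (fl a j H) := fun p => (hasFDerivAt_fl ha j hH p).differentiableAt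
    have hc : Continuous (fl a j H) := hd.continuous
    exact contDiff_zero.2 hc
  | succ n ih =>
    intro F _ _ j H hH
    have hd : Differentiable ℝ (fl a j H) := fun p => (hasFDerivAt_fl ha j hH p).differentiableAt
    have he : fderiv ℝ (fl a j H) = fl a (j + 8) (dH a j H) :=
      funext fun p => (hasFDerivAt_fl ha j hH p).fderiv
    push_cast
    rw [contDiff_succ_iff_fderiv]
    refine ⟨hd, by simp, ?_⟩
    rw [he]
    exact ih (j + 8) (contDiff_dH a j hH)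

theorem contDiff_fl {a : ℝ} (ha : 0 < a) {F : Type} [NormedAddCommGroup F] [NormedSpace ℝ F]
    (j : ℕ) {H : P4 → F} (hH : ContDiff ℝ ∞ H) : ContDiff ℝ ∞ (fl a j H) :=
  contDiff_infty.2 fun n => contDiff_fl_nat ha n j hH

open Pool.Agent.Helper79.NC

/-- `exp (-N/τ)` as a function of `(t, c, s, v)` -/
noncomputable def HH (N : ℝ) (q : P4) : ℝ :=
  expNegInvGlue ((1 - (1 - spLam q.1) * (q.2.2.2.1 * q.2.1 + q.2.2.2.2 * q.2.2.1)) / N)

theorem contDiff_HH (N : ℝ) : ContDiff ℝ ∞ (HH N) := by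
  unfold HH spLam
  refine expNegInvGlue.contDiff.comp ?_
  refine ContDiff.div_const ?_ _
  refine contDiff_const.sub (ContDiff.mul (contDiff_const.sub ?_) (by fun_prop))
  exact Real.smoothTransition.contDiff.comp (by fun_prop)

/-- `w ↦ (|w| - 1, w/|w|)` -/
noncomputable def pol (w : ℂ) : P2 := (‖w‖ - 1, (w.re / ‖w‖, w.im / ‖w‖))

theorem spE_re {w : ℂ} :
    (spE w).re = w.re / ‖w‖ * Real.cos ((‖w‖ - 1)⁻¹) + w.im / ‖w‖ * Real.sin ((‖w‖ - 1)⁻¹) := by
  have h1 : Complex.exp (-(((1 / (‖w‖ - 1) : ℝ) : ℂ) * Complex.I)) =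
      ⟨Real.cos ((‖w‖ - 1)⁻¹), -Real.sin ((‖w‖ - 1)⁻¹)⟩ := by
    rw [← neg_mul, ← Complex.ofReal_neg]
    apply Complex.ext
    · rw [Complex.exp_ofReal_mul_I_re, Real.cos_neg, one_div]
    · rw [Complex.exp_ofReal_mul_I_im, Real.sin_neg, one_div]
  have h2 : w / (‖w‖ : ℂ) = ⟨w.re / ‖w‖, w.im / ‖w‖⟩ := by
    apply Complex.ext
    · rw [Complex.div_ofReal_re]
    · rw [Complex.div_ofReal_im]
  unfold spE
  rw [h1, h2, Complex.mul_re]
  ring

theorem spiral_eq {N K : ℝ} (hN : 0 < N) (w : ℂ) :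
    spiral N K w = fl (N * K) 0 (HH N) (pol w) := by
  unfold spiral fl
  have hiff : (pol w).1 ≤ 0 ↔ ‖w‖ ≤ 1 := by
    simp only [pol]; constructor <;> intro h <;> linarith
  by_cases h1 : ‖w‖ ≤ 1
  · rw [if_pos h1, if_pos (hiff.2 h1)]
  · rw [if_neg h1, if_neg (fun h => h1 (hiff.1 h))]
    have htau : spTau w = 1 - (1 - spLam (‖w‖ - 1)) *
        (w.re / ‖w‖ * Real.cos ((‖w‖ - 1)⁻¹) + w.im / ‖w‖ * Real.sin ((‖w‖ - 1)⁻¹)) := by
      unfold spTau; rw [spE_re]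
    have hH : HH N (Psi (pol w)) = expNegInvGlue (spTau w / N) := by
      unfold HH Psi pol; rw [htau]
    rw [hH, smul_eq_mul]
    have hdiv : spTau w / N ≤ 0 ↔ spTau w ≤ 0 := by
      constructor
      · intro h
        by_contra hc
        exact absurd h (not_le.2 (div_pos (not_le.1 hc) hN))
      · intro h
        exact div_nonpos_of_nonpos_of_nonneg h hN.le
    by_cases h2 : spTau w ≤ 0
    · rw [if_pos h2]
      unfold expNegInvGlue
      rw [if_pos (hdiv.2 h2), mul_zero]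
    · rw [if_neg h2]
      unfold expNegInvGlue wt
      rw [if_neg (fun h => h2 (hdiv.1 h))]
      simp only [pol, pow_zero, inv_one, one_mul]
      rw [← Real.exp_add]
      congr 1
      have : N ≠ 0 := hN.ne'
      have h3 : spTau w ≠ 0 := fun h => h2 h.le
      rw [inv_div]
      field_simp
      ring

/-- Module S1. -/
theorem spiralSmooth : SpiralSmooth := by
  intro N K hN hK
  rw [contDiff_iff_contDiffAt]
  intro w
  by_cases hw : w = 0
  · subst hw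
    have hev : spiral N K =ᶠ[𝓝 0] fun _ => 0 := by
      filter_upwards [Metric.ball_mem_nhds (0 : ℂ) one_pos] with z hz
      rw [Metric.mem_ball, dist_zero_right] at hz
      unfold spiral
      rw [if_pos hz.le]
    exact contDiffAt_const.congr_of_eventuallyEq hev
  · have he : spiral N K = fun w => fl (N * K) 0 (HH N) (pol w) := funext fun w => spiral_eq hN w
    rw [he]
    have hfl := contDiff_fl (mul_pos hN hK) 0 (contDiff_HH N)
    refine hfl.contDiffAt.comp w ?_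
    unfold pol
    have hn : ContDiffAt ℝ ∞ (fun w : ℂ => ‖w‖) w := contDiffAt_norm ℝ hw
    have hre : ContDiffAt ℝ ∞ (fun w : ℂ => w.re) w := Complex.reCLM.contDiff.contDiffAt
    have him : ContDiffAt ℝ ∞ (fun w : ℂ => w.im) w := Complex.imCLM.contDiff.contDiffAt
    have h0 : ‖w‖ ≠ 0 := norm_ne_zero_iff.2 hw
    exact (hn.sub contDiffAt_const).prodMk ((hre.div hn h0).prodMk (him.div hn h0))

end Pool.Agent.Helper96.NCS
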