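import Mathlib
/-! L7: two pure commutative algebra lemmas for MP_0ce5f1_an (helper75). -/
namespace Pool.Agent.Helper75.KT
open Polynomial

theorem alg_key {R : Type*} [CommRing R] {σ : Type*} (s : Finset σ) (Q : R[X]) (w Y : R)
    (e : σ → R)
    (hQ : Q * (1 + C (2 + w) * X + X ^ 2)
      = (1 + X) * (1 + C (1 - Y) * X) * ∏ k ∈ s, (1 + C (e k) * X) ^ 2)
    (hY : Y ^ 2 = 0) (hw : w ^ 2 = 0) : Y * (∏ k ∈ s, (1 - e k) ^ 2) ^ 2 = 0 := by
  set P : R[X] := Q.comp (X - 1) with hP
  set G : R[X] := ∏ k ∈ s, (C (1 - e k) + C (e k) * X) ^ 2 with hG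
  have h1 : P * (X ^ 2 + (X - 1) * C w) = X * (C Y + C (1 - Y) * X) * G := by
    have := congrArg (fun F : R[X] => F.comp (X - 1)) hQ
    simp only [mul_comp, add_comp, one_comp, C_comp, X_comp, pow_comp] at this
    rw [Polynomial.prod_comp] at this
    simp only [add_comp, one_comp, C_comp, X_comp, pow_comp, mul_comp] at this
    have e1 : ∀ k ∈ s, (1 + C (e k) * (X - 1) : R[X]) ^ 2 = (C (1 - e k) + C (e k) * X) ^ 2 := by
      intro k _
      congr 1
      rw [C_sub, C_1]; ring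
    rw [Finset.prod_congr rfl e1] at this
    have e2 : (1 + C (2 + w) * (X - 1) + (X - 1) ^ 2 : R[X]) = X ^ 2 + (X - 1) * C w := by
      rw [C_add]
      have : (C (2 : R) : R[X]) = 2 := map_ofNat C 2
      rw [this]; ring
    have e3 : (1 + (X - 1) : R[X]) * (1 + C (1 - Y) * (X - 1)) = X * (C Y + C (1 - Y) * X) := by
      rw [C_sub, C_1]; ring
    rw [e2, e3] at this
    exact this
  have hG0 : G.coeff 0 = ∏ k ∈ s, (1 - e k) ^ 2 := by
    rw [coeff_zero_eq_eval_zero, hG, eval_prod]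
    refine Finset.prod_congr rfl fun k _ => ?_
    simp
  have hL : P * (X ^ 2 + (X - 1) * C w) = P * X ^ 2 + P * X * C w - P * C w := by ring
  have hR : X * (C Y + C (1 - Y) * X) * G = G * C Y * X + G * C (1 - Y) * X ^ 2 := by ring
  rw [hL, hR] at h1
  have c0 := congrArg (fun F : R[X] => F.coeff 0) h1
  have c1 := congrArg (fun F : R[X] => F.coeff 1) h1
  have c2 := congrArg (fun F : R[X] => F.coeff 2) h1
  have x0 : (P * X).coeff 0 = 0 := by simp
  have x1 : (P * X).coeff 1 = P.coeff 0 := coeff_mul_X _ _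
  have x2 : (P * X).coeff 2 = P.coeff 1 := coeff_mul_X _ _
  have y0 : (P * X ^ 2).coeff 0 = 0 := by simp
  have y1 : (P * X ^ 2).coeff 1 = 0 := by simp [coeff_mul_X_pow']
  have y2 : (P * X ^ 2).coeff 2 = P.coeff 0 := coeff_mul_X_pow _ 2 0
  have z0 : (G * C Y * X).coeff 0 = 0 := by simp
  have z1 : (G * C Y * X).coeff 1 = G.coeff 0 * Y := by
    rw [coeff_mul_X (G * C Y) 0, coeff_mul_C]
  have z2 : (G * C Y * X).coeff 2 = G.coeff 1 * Y := by
    rw [coeff_mul_X (G * C Y) 1, coeff_mul_C]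
  have t0 : (G * C (1 - Y) * X ^ 2).coeff 0 = 0 := by simp
  have t1 : (G * C (1 - Y) * X ^ 2).coeff 1 = 0 := by simp [coeff_mul_X_pow']
  have t2 : (G * C (1 - Y) * X ^ 2).coeff 2 = G.coeff 0 * (1 - Y) := by
    rw [coeff_mul_X_pow (G * C (1 - Y)) 2 0, coeff_mul_C]
  simp only [coeff_add, coeff_sub, coeff_mul_C, x0, x1, x2, y0, y1, y2, z0, z1, z2, t0, t1, t2]
    at c0 c1 c2
  rw [← hG0]
  set T := G.coeff 0
  set S := G.coeff 1
  set p0 := P.coeff 0
  set p1 := P.coeff 1
  set p2 := P.coeff 2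
  -- `c0 : 0 + 0 * w - p0 * w = 0 + 0`
  -- `c1 : 0 + p0 * w - p1 * w = T * Y + 0`
  -- `c2 : p0 + p1 * w - p2 * w = S * Y + T * (1 - Y)`
  have a0 : p0 * w = 0 := by linear_combination -c0
  have a1 : T * Y = -(p1 * w) := by linear_combination -c1 + a0
  have a2 : w * T = - (w * Y * S) := by
    have : w * (S * Y + T * (1 - Y)) = 0 := by
      rw [← c2]; linear_combination a0 + (p1 - p2) * hw
    linear_combination (1 + Y) * this + (w * T - w * S) * hY
  linear_combination T * a1 - p1 * a2 + Y * S * a1 - (T * S) * hY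

theorem add_pow_sq_zero {R : Type*} [CommRing R] (a b : R) (hb : b * b = 0) (n : ℕ) :
    (a + b) ^ (n + 1) = a ^ (n + 1) + (n + 1) * a ^ n * b := by
  induction n with
  | zero => simp
  | succ n ih =>
    rw [pow_succ, ih]
    push_cast
    have e : (a ^ (n + 1) + (n + 1) * a ^ n * b) * (a + b)
      = a ^ (n + 1 + 1) + ((n : R) + 1 + 1) * a ^ (n + 1) * b + (n + 1) * a ^ n * (b * b) := by
      ring
    rw [e, hb, mul_zero, add_zero]

theorem prod_pow_card {R : Type*} [CommRing R] {σ : Type*} [DecidableEq σ] (s : Finset σ)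
    (y : σ → R) (hy : ∀ i ∈ s, y i ^ 2 = 0) :
    (1 - ∏ i ∈ s, (1 - y i)) ^ s.card = (s.card.factorial : R) * ∏ i ∈ s, y i := by
  induction s using Finset.induction_on with
  | empty => simp
  | insert a s ha ih =>
    have hy' : ∀ i ∈ s, y i ^ 2 = 0 := fun i hi => hy i (Finset.mem_insert_of_mem hi)
    have hya : y a ^ 2 = 0 := hy a (Finset.mem_insert_self _ _)
    have ih' := ih hy'
    rw [Finset.card_insert_of_notMem ha, Finset.prod_insert ha, Finset.prod_insert ha]
    set A := 1 - ∏ i ∈ s, (1 - y i) with hA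
    have h0 : (∏ i ∈ s, y i) * A = 0 := by
      rw [hA, mul_sub, mul_one, ← Finset.prod_mul_distrib, sub_eq_zero]
      refine Finset.prod_congr rfl fun i hi => ?_
      linear_combination hy' i hi
    have h1 : A ^ s.card * A = 0 := by
      rw [ih', mul_assoc, h0, mul_zero]
    have h2 : ∏ i ∈ s, (1 - y i) = 1 - A := by rw [hA]; ring
    rw [h2]
    have h3 : 1 - (1 - y a) * (1 - A) = A + y a * (1 - A) := by ring
    rw [h3, add_pow_sq_zero A (y a * (1 - A))
      (by linear_combination (1 - A) ^ 2 * hya) s.card, Nat.factorial_succ]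
    push_cast
    have h4 : A ^ (s.card + 1) = 0 := by rw [pow_succ]; exact h1
    rw [h4]
    linear_combination ((s.card : R) + 1) * y a * ih' - ((s.card : R) + 1) * y a * h1

end Pool.Agent.Helper75.KT
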