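import Mathlib

set_option autoImplicit false

namespace Pool.Agent.Helper96

/-- Standard reduction of a rational point on `y^2 = x (x^2 + a x + b)`. -/
theorem reduce (a b : ℤ) (x y : ℚ) (hx : x ≠ 0) (h : y ^ 2 = x * (x ^ 2 + a * x + b)) :
    ∃ d m e z : ℤ, Squarefree d ∧ m ≠ 0 ∧ e ≠ 0 ∧ IsCoprime (d * m) e ∧
      x = d * ((m : ℚ) / e) ^ 2 ∧
      d * z ^ 2 = d ^ 2 * m ^ 4 + a * d * m ^ 2 * e ^ 2 + b * e ^ 4 := by
  set n : ℤ := x.num with hn
  set D : ℤ := (x.den : ℤ) with hD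
  have hDpos : 0 < D := by
    rw [hD]; exact_mod_cast x.den_pos
  have hn0 : n ≠ 0 := by
    rw [hn]; exact Rat.num_ne_zero.mpr hx
  have hxe : x = (n : ℚ) / D := by
    rw [hn, hD]; push_cast; exact (Rat.num_div_den x).symm
  have hcop : IsCoprime n D := by
    rw [Int.isCoprime_iff_gcd_eq_one]
    have := x.reduced
    rw [hn, hD]
    exact this
  have hDq : (D : ℚ) ≠ 0 := by exact_mod_cast hDpos.ne'
  have hsq : IsSquare ((D * (n * (n ^ 2 + a * n * D + b * D ^ 2)) : ℤ) : ℚ) := by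
    refine ⟨(D : ℚ) ^ 2 * y, ?_⟩
    have : ((D : ℚ) ^ 2 * y) * ((D : ℚ) ^ 2 * y) = (D : ℚ) ^ 4 * y ^ 2 := by ring
    rw [this, h, hxe]
    push_cast
    field_simp
  rw [Rat.isSquare_intCast_iff] at hsq
  obtain ⟨Z, hZ⟩ := hsq
  have hcop2 : IsCoprime D (n * (n ^ 2 + a * n * D + b * D ^ 2)) := by
    refine IsCoprime.mul_right hcop.symm ?_
    have h1 : IsCoprime D (n ^ 2) := hcop.symm.pow_right
    have h2 : n ^ 2 + a * n * D + b * D ^ 2 = n ^ 2 + D * (a * n + b * D) := by ring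
    rw [h2]
    exact IsCoprime.add_mul_left_right h1 _
  have hgcd : Int.gcd D (n * (n ^ 2 + a * n * D + b * D ^ 2)) = 1 :=
    Int.isCoprime_iff_gcd_eq_one.mp hcop2
  obtain ⟨e, he⟩ := Int.sq_of_gcd_eq_one hgcd (by rw [hZ]; ring : D * (n * (n ^ 2 + a * n * D + b * D ^ 2)) = Z ^ 2)
  have hDe : D = e ^ 2 := by
    rcases he with he | he
    · exact he
    · exfalso
      nlinarith [sq_nonneg e]
  have he0 : e ≠ 0 := by
    rintro rfl
    rw [hDe] at hDpos
    norm_num at hDpos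
  have heZ : e ^ 2 ∣ Z ^ 2 := by
    rw [← hDe]
    exact ⟨n * (n ^ 2 + a * n * D + b * D ^ 2), by rw [hZ]; ring⟩
  have heZ' : e ∣ Z := (Int.pow_dvd_pow_iff (two_ne_zero)).mp heZ
  obtain ⟨w, rfl⟩ := heZ'
  have hw : n * (n ^ 2 + a * n * D + b * D ^ 2) = w ^ 2 := by
    have h3 : D * (n * (n ^ 2 + a * n * D + b * D ^ 2)) = D * w ^ 2 := by
      rw [hZ, hDe]; ring
    exact mul_left_cancel₀ hDpos.ne' h3
  -- squarefree part of n
  obtain ⟨d0, m0, hdm, hsf⟩ := Nat.sq_mul_squarefree n.natAbs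
  obtain ⟨d, m, hnd, hdsf, hm0⟩ : ∃ d m : ℤ, n = d * m ^ 2 ∧ Squarefree d ∧ m ≠ 0 := by
    have hm0' : m0 ≠ 0 := by
      rintro rfl
      apply hn0
      rw [← Int.natAbs_eq_zero, ← hdm]
      simp
    rcases Int.natAbs_eq n with hcase | hcase
    · refine ⟨d0, m0, ?_, ?_, by exact_mod_cast hm0'⟩
      · rw [hcase, ← hdm]; push_cast; ring
      · rw [← Int.squarefree_natAbs]; simpa using hsf
    · refine ⟨-d0, m0, ?_, ?_, by exact_mod_cast hm0'⟩
      · rw [hcase, ← hdm]; push_cast; ring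
      · rw [← Int.squarefree_natAbs]; simpa using hsf
  have hd0 : d ≠ 0 := by
    rintro rfl
    apply hn0
    rw [hnd]; ring
  have hcop3 : IsCoprime (d * m) e := by
    have h4 : IsCoprime (d * m ^ 2) (e ^ 2) := by rw [← hnd, ← hDe]; exact hcop
    have h5 : IsCoprime (d * m ^ 2) e := IsCoprime.of_isCoprime_of_dvd_right h4 ⟨e, by ring⟩
    exact IsCoprime.of_isCoprime_of_dvd_left h5 ⟨m, by ring⟩
  have hmw : m ∣ w := by
    have : m ^ 2 ∣ w ^ 2 := by
      rw [← hw, hnd]
      exact ⟨d * ((d * m ^ 2) ^ 2 + a * (d * m ^ 2) * D + b * D ^ 2), by ring⟩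
    exact (Int.pow_dvd_pow_iff two_ne_zero).mp this
  obtain ⟨w1, rfl⟩ := hmw
  have hw1 : d * (n ^ 2 + a * n * D + b * D ^ 2) = w1 ^ 2 := by
    have hm2 : m ^ 2 ≠ 0 := pow_ne_zero 2 hm0
    apply mul_left_cancel₀ hm2
    calc m ^ 2 * (d * (n ^ 2 + a * n * D + b * D ^ 2))
        = (d * m ^ 2) * (n ^ 2 + a * n * D + b * D ^ 2) := by ring
      _ = n * (n ^ 2 + a * n * D + b * D ^ 2) := by rw [← hnd]
      _ = (m * w1) ^ 2 := hw
      _ = m ^ 2 * w1 ^ 2 := by ring
  have hdw : d ∣ w1 := by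
    have : d ∣ w1 ^ 2 := ⟨_, hw1.symm⟩
    exact (hdsf.dvd_pow_iff_dvd two_ne_zero).mp this
  obtain ⟨z, rfl⟩ := hdw
  refine ⟨d, m, e, z, hdsf, hm0, he0, hcop3, ?_, ?_⟩
  · rw [hxe, hDe, hnd]
    push_cast
    field_simp
  · apply mul_left_cancel₀ hd0
    calc d * (d * z ^ 2) = (d * z) ^ 2 := by ring
      _ = d * (n ^ 2 + a * n * D + b * D ^ 2) := hw1.symm
      _ = d * (d ^ 2 * m ^ 4 + a * d * m ^ 2 * e ^ 2 + b * e ^ 4) := by
        rw [hnd, hDe]; ring

theorem dvd_of_reduced {a b d m e z : ℤ} (hc : IsCoprime (d * m) e)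
    (h : d * z ^ 2 = d ^ 2 * m ^ 4 + a * d * m ^ 2 * e ^ 2 + b * e ^ 4) : d ∣ b := by
  have hce : IsCoprime d e := IsCoprime.of_isCoprime_of_dvd_left hc ⟨m, rfl⟩
  have h1 : d ∣ b * e ^ 4 := by
    have : b * e ^ 4 = d * (z ^ 2 - d * m ^ 4 - a * m ^ 2 * e ^ 2) := by linear_combination -h
    exact ⟨_, this⟩
  exact (IsCoprime.pow_right hce (n := 4)).dvd_of_dvd_mul_right h1

/-- the curve `y^2 = x (x^2 - 72579 x + 1125000000)` -/
theorem classA (x y : ℚ) (hx : x ≠ 0) (h : y ^ 2 = x * (x ^ 2 - 72579 * x + 1125000000)) :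
    ∃ r : ℚ, x = r ^ 2 ∨ x = 5 * r ^ 2 := by
  obtain ⟨d, m, e, z, hsf, hm, he, hc, hxe, hz⟩ := reduce (-72579) 1125000000 x y hx
    (by rw [h]; push_cast; ring)
  have hdb := dvd_of_reduced hc hz
  have hd30 : d ∣ 30 := by
    have h1 : d ∣ 30 ^ 9 := dvd_trans hdb (by norm_num)
    exact (hsf.dvd_pow_iff_dvd (by norm_num)).mp h1
  have hm2 : 0 < m ^ 2 := by positivity
  have he2 : 0 < e ^ 2 := by positivity
  have hme2 : 0 < m ^ 2 * e ^ 2 := by positivity
  have hm4 : 0 < m ^ 4 := by positivity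
  have he4 : 0 < e ^ 4 := by positivity
  have hce : IsCoprime d e := IsCoprime.of_isCoprime_of_dvd_left hc ⟨m, rfl⟩
  have hle : d ≤ 30 := Int.le_of_dvd (by norm_num) hd30
  have hge : -30 ≤ d := by
    have : -d ∣ 30 := (neg_dvd).mpr hd30
    have := Int.le_of_dvd (by norm_num) this
    linarith
  -- positivity of d
  have hdpos : 0 < d := by
    by_contra hneg
    have hd0 : d ≠ 0 := by rintro rfl; exact absurd hsf not_squarefree_zero
    have hdneg : d < 0 := by omega
    have h1 : 0 ≤ -d * z ^ 2 := by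
      have : 0 ≤ z ^ 2 := sq_nonneg z
      nlinarith
    have h2 : 0 < d ^ 2 * m ^ 4 := by positivity
    have h3 : 0 < (-72579) * d * m ^ 2 * e ^ 2 := by
      have : 0 < (-d) * (m ^ 2 * e ^ 2) := by
        apply mul_pos _ hme2; linarith
      nlinarith
    have h4 : (0 : ℤ) < 1125000000 * e ^ 4 := by positivity
    nlinarith
  -- 3 does not divide d
  have h3 : ¬ (3 : ℤ) ∣ d := by
    rintro ⟨d1, rfl⟩
    have hd1 : (10 : ℤ) = 10 := rfl
    have h10 : d1 ∣ 10 := by
      obtain ⟨k, hk⟩ := hd30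
      exact ⟨k, by linarith⟩
    have hce3 : IsCoprime (3 : ℤ) e := IsCoprime.of_isCoprime_of_dvd_left hce ⟨d1, rfl⟩
    have hd1le : d1 ≤ 10 := by linarith
    have hd1pos : 0 < d1 := by linarith
    have he3 : ¬ (3 : ℤ) ∣ e := by
      intro h3e
      have := hce3.isUnit_of_dvd' (dvd_refl _) h3e
      rw [Int.isUnit_iff] at this
      omega
    obtain ⟨k, hk⟩ := h10
    have key : d1 * z ^ 2 = 3 * (d1 ^ 2 * m ^ 4 - 24193 * d1 * m ^ 2 * e ^ 2 + 125000000 * e ^ 4) := by
      have : 3 * (d1 * z ^ 2) = 3 * (3 * (d1 ^ 2 * m ^ 4 - 24193 * d1 * m ^ 2 * e ^ 2 + 125000000 * e ^ 4)) := by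
        linear_combination hz
      exact mul_left_cancel₀ (by norm_num) this
    have h3d1 : ¬ (3 : ℤ) ∣ d1 := by
      rintro ⟨k2, rfl⟩
      have : (3 : ℤ) ∣ 10 := ⟨k2 * k, by rw [hk]; ring⟩
      norm_num at this
    have hz3 : (3 : ℤ) ∣ z := by
      have h5 : (3 : ℤ) ∣ d1 * z ^ 2 := ⟨_, key⟩
      rcases Int.prime_three.dvd_or_dvd h5 with h6 | h6
      · exact absurd h6 h3d1
      · exact Int.prime_three.dvd_of_dvd_pow h6
    obtain ⟨z1, rfl⟩ := hz3
    have key2 : 3 * (d1 * z1 ^ 2) = d1 ^ 2 * m ^ 4 - 24193 * d1 * m ^ 2 * e ^ 2 + 125000000 * e ^ 4 := by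
      have : 3 * (3 * (d1 * z1 ^ 2)) = 3 * (d1 ^ 2 * m ^ 4 - 24193 * d1 * m ^ 2 * e ^ 2 + 125000000 * e ^ 4) := by
        linear_combination key
      exact mul_left_cancel₀ (by norm_num) this
    have key3 := congrArg (Int.cast : ℤ → ZMod 3) key2
    push_cast at key3
    have he3' : (e : ZMod 3) ≠ 0 := by
      intro h0
      exact he3 ((ZMod.intCast_zmod_eq_zero_iff_dvd e 3).mp h0)
    have hd3' : (d1 : ZMod 3) ≠ 0 := by
      intro h0
      exact h3d1 ((ZMod.intCast_zmod_eq_zero_iff_dvd d1 3).mp h0)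
    revert key3 he3' hd3'
    generalize (e : ZMod 3) = e'
    generalize (d1 : ZMod 3) = d'
    generalize (m : ZMod 3) = m'
    generalize (z1 : ZMod 3) = z'
    revert e' d' m' z'
    decide
  -- 2 does not divide d
  have h2 : ¬ (2 : ℤ) ∣ d := by
    rintro ⟨d1, rfl⟩
    have hce2 : IsCoprime (2 : ℤ) e := IsCoprime.of_isCoprime_of_dvd_left hce ⟨d1, rfl⟩
    have heodd : Odd e := by
      rw [← Int.not_even_iff_odd]
      intro hev
      have := hce2.isUnit_of_dvd' (dvd_refl _) hev.two_dvd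
      rw [Int.isUnit_iff] at this
      omega
    have hd1 : d1 ∣ 15 := by
      obtain ⟨k, hk⟩ := hd30
      exact ⟨k, by linarith⟩
    have hd1odd : Odd d1 := by
      rw [← Int.not_even_iff_odd]
      intro hev
      have h2 : (2 : ℤ) ∣ 15 := dvd_trans hev.two_dvd hd1
      norm_num at h2
    obtain ⟨p, hp⟩ := heodd
    obtain ⟨c, hc1⟩ := hd1odd
    have hd1ne : d1 ≠ 0 := by rintro rfl; simp at hd1
    have key : d1 * z ^ 2 = d1 * (2 * d1 * m ^ 4 - 72579 * m ^ 2 * e ^ 2) + 562500000 * e ^ 4 := by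
      have : 2 * (d1 * z ^ 2) = 2 * (d1 * (2 * d1 * m ^ 4 - 72579 * m ^ 2 * e ^ 2) + 562500000 * e ^ 4) := by
        linear_combination hz
      exact mul_left_cancel₀ (by norm_num) this
    rcases Int.even_or_odd m with ⟨m1, hm1⟩ | ⟨m1, hm1⟩
    · -- m even
      have hzev : Even z := by
        by_contra hodd
        rw [Int.not_even_iff_odd] at hodd
        obtain ⟨z1, hz1⟩ := hodd
        have key3 := congrArg (Int.cast : ℤ → ZMod 2) key
        rw [hm1, hz1, hp, hc1] at key3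
        push_cast at key3
        revert key3
        generalize (c : ZMod 2) = c'
        generalize (p : ZMod 2) = p'
        generalize (m1 : ZMod 2) = m'
        generalize (z1 : ZMod 2) = z'
        revert c' p' m' z'
        decide
      obtain ⟨z1, hz1⟩ := hzev
      have key4 : d1 * z1 ^ 2 = d1 * (8 * d1 * m1 ^ 4 - 72579 * m1 ^ 2 * e ^ 2) + 140625000 * e ^ 4 := by
        have : 4 * (d1 * z1 ^ 2) = 4 * (d1 * (8 * d1 * m1 ^ 4 - 72579 * m1 ^ 2 * e ^ 2) + 140625000 * e ^ 4) := by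
          rw [hz1, hm1] at key
          linear_combination key
        exact mul_left_cancel₀ (by norm_num) this
      rcases Int.even_or_odd m1 with ⟨m2, hm2'⟩ | ⟨m2, hm2'⟩
      · have hzev : Even z1 := by
          by_contra hodd
          rw [Int.not_even_iff_odd] at hodd
          obtain ⟨z2, hz2⟩ := hodd
          have key3 := congrArg (Int.cast : ℤ → ZMod 2) key4
          rw [hm2', hz2, hp, hc1] at key3
          push_cast at key3
          revert key3
          generalize (c : ZMod 2) = c'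
          generalize (p : ZMod 2) = p'
          generalize (m2 : ZMod 2) = m'
          generalize (z2 : ZMod 2) = z'
          revert c' p' m' z'
          decide
        obtain ⟨z2, hz2⟩ := hzev
        have key5 : d1 * z2 ^ 2 = d1 * (32 * d1 * m2 ^ 4 - 72579 * m2 ^ 2 * e ^ 2) + 35156250 * e ^ 4 := by
          have : 4 * (d1 * z2 ^ 2) = 4 * (d1 * (32 * d1 * m2 ^ 4 - 72579 * m2 ^ 2 * e ^ 2) + 35156250 * e ^ 4) := by
            rw [hz2, hm2'] at key4
            linear_combination key4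
          exact mul_left_cancel₀ (by norm_num) this
        have key3 := congrArg (Int.cast : ℤ → ZMod 8) key5
        rw [hp, hc1] at key3
        push_cast at key3
        revert key3
        generalize (c : ZMod 8) = c'
        generalize (p : ZMod 8) = p'
        generalize (m2 : ZMod 8) = m'
        generalize (z2 : ZMod 8) = z'
        revert c' p' m' z'
        decide
      · have key3 := congrArg (Int.cast : ℤ → ZMod 8) key4
        rw [hm2', hp, hc1] at key3
        push_cast at key3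
        revert key3
        generalize (c : ZMod 8) = c'
        generalize (p : ZMod 8) = p'
        generalize (m2 : ZMod 8) = m'
        generalize (z1 : ZMod 8) = z'
        revert c' p' m' z'
        decide
    · have key3 := congrArg (Int.cast : ℤ → ZMod 8) key
      rw [hm1, hp, hc1] at key3
      push_cast at key3
      revert key3
      generalize (c : ZMod 8) = c'
      generalize (p : ZMod 8) = p'
      generalize (m1 : ZMod 8) = m'
      generalize (z : ZMod 8) = z'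
      revert c' p' m' z'
      decide
  have hd15 : d = 1 ∨ d = 5 := by
    obtain ⟨k, hk⟩ := hd30
    have hk0 : 0 < k := by
      by_contra hneg
      have : k ≤ 0 := by omega
      nlinarith
    interval_cases d <;> first | (left; rfl) | (right; rfl) | (exfalso; omega)
  refine ⟨(m : ℚ) / e, ?_⟩
  rcases hd15 with rfl | rfl
  · left; rw [hxe]; push_cast; ring
  · right; rw [hxe]; push_cast; ring

end Pool.Agent.Helper96
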