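import Pool.Agent.Helper96.QuinticDescent

set_option autoImplicit false

namespace Pool.Agent.Helper96

/-- an odd square is `8 α + 1` -/
theorem odd_sq (m1 : ℤ) : ∃ α : ℤ, (2 * m1 + 1) ^ 2 = 8 * α + 1 := by
  obtain ⟨α, hα⟩ := Int.even_mul_succ_self m1
  exact ⟨α, by linear_combination 4 * hα⟩

/-- the curve `v^2 = u (u^2 + 145158 u + 767711241)` -/
theorem classB (x y : ℚ) (hx : x ≠ 0) (h : y ^ 2 = x * (x ^ 2 + 145158 * x + 767711241)) :
    ∃ r : ℚ, x = r ^ 2 ∨ x = 89 * r ^ 2 := by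
  obtain ⟨d, m, e, z, hsf, hm, he, hc, hxe, hz⟩ := reduce 145158 767711241 x y hx
    (by rw [h]; push_cast; ring)
  have hdb := dvd_of_reduced hc hz
  have hdN : d ∣ 2937 := by
    have h1 : d ∣ 2937 ^ 3 := dvd_trans hdb (by norm_num)
    exact (hsf.dvd_pow_iff_dvd (by norm_num)).mp h1
  have hce : IsCoprime d e := IsCoprime.of_isCoprime_of_dvd_left hc ⟨m, rfl⟩
  have hcme : IsCoprime m e := IsCoprime.of_isCoprime_of_dvd_left hc ⟨d, by ring⟩
  have hd0 : d ≠ 0 := by rintro rfl; exact absurd hsf not_squarefree_zero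
  -- 3 does not divide d
  have h3 : ¬ (3 : ℤ) ∣ d := by
    rintro ⟨d1, rfl⟩
    have h10 : d1 ∣ 979 := by
      obtain ⟨k, hk⟩ := hdN
      exact ⟨k, by linarith⟩
    have hce3 : IsCoprime (3 : ℤ) e := IsCoprime.of_isCoprime_of_dvd_left hce ⟨d1, rfl⟩
    have he3 : ¬ (3 : ℤ) ∣ e := by
      intro h3e
      have := hce3.isUnit_of_dvd' (dvd_refl _) h3e
      rw [Int.isUnit_iff] at this
      omega
    obtain ⟨k, hk⟩ := h10
    have key : d1 * z ^ 2 = 3 * (d1 ^ 2 * m ^ 4 + 48386 * d1 * m ^ 2 * e ^ 2 + 85301249 * e ^ 4) := by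
      have : 3 * (d1 * z ^ 2) = 3 * (3 * (d1 ^ 2 * m ^ 4 + 48386 * d1 * m ^ 2 * e ^ 2 + 85301249 * e ^ 4)) := by
        linear_combination hz
      exact mul_left_cancel₀ (by norm_num) this
    have h3d1 : ¬ (3 : ℤ) ∣ d1 := by
      rintro ⟨k2, rfl⟩
      have : (3 : ℤ) ∣ 979 := ⟨k2 * k, by rw [hk]; ring⟩
      norm_num at this
    have hz3 : (3 : ℤ) ∣ z := by
      have h5 : (3 : ℤ) ∣ d1 * z ^ 2 := ⟨_, key⟩
      rcases Int.prime_three.dvd_or_dvd h5 with h6 | h6
      · exact absurd h6 h3d1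
      · exact Int.prime_three.dvd_of_dvd_pow h6
    obtain ⟨z1, rfl⟩ := hz3
    have key2 : 3 * (d1 * z1 ^ 2) = d1 ^ 2 * m ^ 4 + 48386 * d1 * m ^ 2 * e ^ 2 + 85301249 * e ^ 4 := by
      have : 3 * (3 * (d1 * z1 ^ 2)) = 3 * (d1 ^ 2 * m ^ 4 + 48386 * d1 * m ^ 2 * e ^ 2 + 85301249 * e ^ 4) := by
        linear_combination key
      exact mul_left_cancel₀ (by norm_num) this
    have key3 := congrArg (Int.cast : ℤ → ZMod 3) key2
    push_cast at key3
    have he3' : (e : ZMod 3) ≠ 0 := by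
      intro h0
      exact he3 ((ZMod.intCast_zmod_eq_zero_iff_dvd e 3).mp h0)
    have hd3' : (d1 : ZMod 3) ≠ 0 := by
      intro h0
      exact h3d1 ((ZMod.intCast_zmod_eq_zero_iff_dvd d1 3).mp h0)
    revert key3 he3' hd3'
    generalize (e : ZMod 3) = e'
    generalize (d1 : ZMod 3) = d'
    generalize (m : ZMod 3) = m'
    generalize (z1 : ZMod 3) = z'
    revert e' d' m' z'
    decide
  have hp11 : Prime (11 : ℤ) := by norm_num
  have h11 : ¬ (11 : ℤ) ∣ d := by
    rintro ⟨d1, rfl⟩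
    have h267 : d1 ∣ 267 := by
      obtain ⟨k, hk⟩ := hdN
      exact ⟨k, by linarith⟩
    have hce3 : IsCoprime (11 : ℤ) e := IsCoprime.of_isCoprime_of_dvd_left hce ⟨d1, rfl⟩
    have he3 : ¬ (11 : ℤ) ∣ e := by
      intro h3e
      have := hce3.isUnit_of_dvd' (dvd_refl _) h3e
      rw [Int.isUnit_iff] at this
      omega
    obtain ⟨k, hk⟩ := h267
    have key : d1 * z ^ 2 = 11 * (d1 ^ 2 * m ^ 4 + 6344721 * e ^ 4) + 145158 * d1 * m ^ 2 * e ^ 2 := by
      have : 11 * (d1 * z ^ 2) = 11 * (11 * (d1 ^ 2 * m ^ 4 + 6344721 * e ^ 4) + 145158 * d1 * m ^ 2 * e ^ 2) := by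
        linear_combination hz
      exact mul_left_cancel₀ (by norm_num) this
    have h11d1 : ¬ (11 : ℤ) ∣ d1 := by
      rintro ⟨k2, rfl⟩
      have : (11 : ℤ) ∣ 267 := ⟨k2 * k, by rw [hk]; ring⟩
      norm_num at this
    have hdvd : (11 : ℤ) ∣ d1 * (z ^ 2 - 2 * (m * e) ^ 2) :=
      ⟨d1 ^ 2 * m ^ 4 + 6344721 * e ^ 4 + 13196 * d1 * m ^ 2 * e ^ 2, by linear_combination key⟩
    have hdvd2 : (11 : ℤ) ∣ (z ^ 2 - 2 * (m * e) ^ 2) := by
      rcases hp11.dvd_or_dvd hdvd with h6 | h6
      · exact absurd h6 h11d1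
      · exact h6
    have hz0 : ((z ^ 2 - 2 * (m * e) ^ 2 : ℤ) : ZMod 11) = 0 :=
      (ZMod.intCast_zmod_eq_zero_iff_dvd _ 11).mpr hdvd2
    have hzme : (z : ZMod 11) = 0 ∧ ((m * e : ℤ) : ZMod 11) = 0 := by
      push_cast at hz0 ⊢
      revert hz0
      generalize (m : ZMod 11) * (e : ZMod 11) = t'
      generalize (z : ZMod 11) = z'
      revert t' z'
      decide
    have hz11 : (11 : ℤ) ∣ z := (ZMod.intCast_zmod_eq_zero_iff_dvd _ 11).mp hzme.1
    have hm11 : (11 : ℤ) ∣ m := by
      have := (ZMod.intCast_zmod_eq_zero_iff_dvd (m * e) 11).mp hzme.2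
      rcases hp11.dvd_or_dvd this with h6 | h6
      · exact h6
      · exact absurd h6 he3
    obtain ⟨z1, rfl⟩ := hz11
    obtain ⟨m1, rfl⟩ := hm11
    have key2 : (11 : ℤ) ∣ e ^ 4 * 6344721 := by
      refine ⟨d1 * z1 ^ 2 - 11 ^ 3 * d1 ^ 2 * m1 ^ 4 - 145158 * d1 * m1 ^ 2 * e ^ 2, ?_⟩
      have : 11 * (e ^ 4 * 6344721) = 11 * (11 * (d1 * z1 ^ 2 - 11 ^ 3 * d1 ^ 2 * m1 ^ 4 - 145158 * d1 * m1 ^ 2 * e ^ 2)) := by
        linear_combination -key
      exact mul_left_cancel₀ (by norm_num) this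
    rcases hp11.dvd_or_dvd key2 with h6 | h6
    · exact he3 (hp11.dvd_of_dvd_pow h6)
    · norm_num at h6
  -- hence d divides 89
  have hd89 : d ∣ 89 := by
    have h1 : IsCoprime d 3 := by
      rw [isCoprime_comm, Prime.coprime_iff_not_dvd Int.prime_three]
      exact h3
    have h2 : IsCoprime d 11 := by
      rw [isCoprime_comm, Prime.coprime_iff_not_dvd hp11]
      exact h11
    have h4 : d ∣ 3 * (11 * 89) := by
      have : (3 : ℤ) * (11 * 89) = 2937 := by norm_num
      rw [this]; exact hdN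
    exact h2.dvd_of_dvd_mul_left (h1.dvd_of_dvd_mul_left h4)
  have hdcases : d = 1 ∨ d = 89 ∨ d = -1 ∨ d = -89 := by
    have hp : Prime (89 : ℤ) := by norm_num
    have hnat : d.natAbs ∣ 89 := by
      have := Int.natAbs_dvd_natAbs.mpr hd89
      simpa using this
    rcases (Nat.dvd_prime (by norm_num : Nat.Prime 89)).mp hnat with h1 | h1
    · rcases Int.natAbs_eq d with h2 | h2 <;> rw [h1] at h2 <;> simp at h2 <;> omega
    · rcases Int.natAbs_eq d with h2 | h2 <;> rw [h1] at h2 <;> simp at h2 <;> omega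
  have hpar : ¬ (Even m ∧ Even e) := by
    rintro ⟨h1, h2⟩
    have := hcme.isUnit_of_dvd' h1.two_dvd h2.two_dvd
    rw [Int.isUnit_iff] at this
    omega
  refine ⟨(m : ℚ) / e, ?_⟩
  rcases hdcases with rfl | rfl | rfl | rfl
  · left; rw [hxe]; push_cast; ring
  · right; rw [hxe]; push_cast; ring
  · exfalso
    have key : z ^ 2 = - m ^ 4 + 145158 * m ^ 2 * e ^ 2 - 767711241 * e ^ 4 := by
      linear_combination -hz
    rcases Int.even_or_odd m with ⟨m1, hm1⟩ | ⟨m1, hm1⟩ <;>
    rcases Int.even_or_odd e with ⟨e1, he1⟩ | ⟨e1, he1⟩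
    · exact hpar ⟨⟨m1, hm1⟩, ⟨e1, he1⟩⟩
    · have key3 := congrArg (Int.cast : ℤ → ZMod 4) key
      rw [hm1, he1] at key3
      push_cast at key3
      revert key3
      generalize (e1 : ZMod 4) = e'
      generalize (m1 : ZMod 4) = m'
      generalize (z : ZMod 4) = z'
      revert e' m' z'
      decide
    · have key3 := congrArg (Int.cast : ℤ → ZMod 4) key
      rw [hm1, he1] at key3
      push_cast at key3
      revert key3
      generalize (e1 : ZMod 4) = e'
      generalize (m1 : ZMod 4) = m'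
      generalize (z : ZMod 4) = z'
      revert e' m' z'
      decide
    · obtain ⟨α, hα⟩ := odd_sq m1
      obtain ⟨β, hβ⟩ := odd_sq e1
      rw [← hm1] at hα
      rw [← he1] at hβ
      have key1 : z ^ 2 = - (m ^ 2) ^ 2 + 145158 * (m ^ 2) * (e ^ 2) - 767711241 * (e ^ 2) ^ 2 := by
        rw [key]; ring
      rw [hα, hβ] at key1
      rcases Int.even_or_odd z with ⟨z1, hz1⟩ | ⟨z1, hz1⟩
      · have key2 : z1 ^ 2 = -191891521 + (290312 * α - 16 * α ^ 2) + (290316 * β - 3070844964 * β)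
            + 2322528 * α * β - 12283379856 * β ^ 2 := by
          have : 4 * z1 ^ 2 = 4 * (-191891521 + (290312 * α - 16 * α ^ 2) + (290316 * β - 3070844964 * β)
            + 2322528 * α * β - 12283379856 * β ^ 2) := by
            rw [hz1] at key1
            linear_combination key1
          exact mul_left_cancel₀ (by norm_num) this
        have key3 := congrArg (Int.cast : ℤ → ZMod 4) key2
        push_cast at key3
        revert key3
        generalize (α : ZMod 4) = e'
        generalize (β : ZMod 4) = m'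
        generalize (z1 : ZMod 4) = z'
        revert e' m' z'
        decide
      · have key3 := congrArg (Int.cast : ℤ → ZMod 2) key1
        rw [hz1] at key3
        push_cast at key3
        revert key3
        generalize (α : ZMod 2) = e'
        generalize (β : ZMod 2) = m'
        generalize (z1 : ZMod 2) = z'
        revert e' m' z'
        decide
  · exfalso
    have key : z ^ 2 = - 89 * m ^ 4 + 145158 * m ^ 2 * e ^ 2 - 8625969 * e ^ 4 := by
      have : 89 * z ^ 2 = 89 * (- 89 * m ^ 4 + 145158 * m ^ 2 * e ^ 2 - 8625969 * e ^ 4) := by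
        linear_combination -hz
      exact mul_left_cancel₀ (by norm_num) this
    rcases Int.even_or_odd m with ⟨m1, hm1⟩ | ⟨m1, hm1⟩ <;>
    rcases Int.even_or_odd e with ⟨e1, he1⟩ | ⟨e1, he1⟩
    · exact hpar ⟨⟨m1, hm1⟩, ⟨e1, he1⟩⟩
    · have key3 := congrArg (Int.cast : ℤ → ZMod 4) key
      rw [hm1, he1] at key3
      push_cast at key3
      revert key3
      generalize (e1 : ZMod 4) = e'
      generalize (m1 : ZMod 4) = m'
      generalize (z : ZMod 4) = z'
      revert e' m' z'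
      decide
    · have key3 := congrArg (Int.cast : ℤ → ZMod 4) key
      rw [hm1, he1] at key3
      push_cast at key3
      revert key3
      generalize (e1 : ZMod 4) = e'
      generalize (m1 : ZMod 4) = m'
      generalize (z : ZMod 4) = z'
      revert e' m' z'
      decide
    · obtain ⟨α, hα⟩ := odd_sq m1
      obtain ⟨β, hβ⟩ := odd_sq e1
      rw [← hm1] at hα
      rw [← he1] at hβ
      have key1 : z ^ 2 = - 89 * (m ^ 2) ^ 2 + 145158 * (m ^ 2) * (e ^ 2) - 8625969 * (e ^ 2) ^ 2 := by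
        rw [key]; ring
      rw [hα, hβ] at key1
      rcases Int.even_or_odd z with ⟨z1, hz1⟩ | ⟨z1, hz1⟩
      · have key2 : z1 ^ 2 = -2120225 + (289960 * α - 1424 * α ^ 2) - 34213560 * β
            + 2322528 * α * β - 138015504 * β ^ 2 := by
          have : 4 * z1 ^ 2 = 4 * (-2120225 + (289960 * α - 1424 * α ^ 2) - 34213560 * β
            + 2322528 * α * β - 138015504 * β ^ 2) := by
            rw [hz1] at key1
            linear_combination key1
          exact mul_left_cancel₀ (by norm_num) this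
        have key3 := congrArg (Int.cast : ℤ → ZMod 4) key2
        push_cast at key3
        revert key3
        generalize (α : ZMod 4) = e'
        generalize (β : ZMod 4) = m'
        generalize (z1 : ZMod 4) = z'
        revert e' m' z'
        decide
      · have key3 := congrArg (Int.cast : ℤ → ZMod 2) key1
        rw [hz1] at key3
        push_cast at key3
        revert key3
        generalize (α : ZMod 2) = e'
        generalize (β : ZMod 2) = m'
        generalize (z1 : ZMod 2) = z'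
        revert e' m' z'
        decide

end Pool.Agent.Helper96
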