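import Pool.Agent.Helper96.QuinticDescentB

set_option autoImplicit false

namespace Pool.Agent.Helper96

/-- Division by two: every rational point of `η^2 = ν^4 - 72579 ν^2 + 1125000000`
comes from another rational point `(ξ, ξ f)`. -/
theorem halving (ν η : ℚ) (h : η ^ 2 = ν ^ 4 - 72579 * ν ^ 2 + 1125000000) :
    ∃ η2 f ξ : ℚ, f ≠ 0 ∧ ξ ≠ 0 ∧ η2 ^ 2 = ν ^ 4 - 72579 * ν ^ 2 + 1125000000 ∧
      f ^ 2 = 2 * ν ^ 2 - 72579 + 2 * η2 ∧
      2 * ξ ^ 2 = f ^ 2 + 72579 + 2 * ν * f ∧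
      f ^ 2 * (2 * ν ^ 2 - 72579 - 2 * η2) = 767711241 ∧
      ξ ^ 2 * (f ^ 2 + 72579 - 2 * ν * f) = 2250000000 ∧
      (ξ * f) ^ 2 = ξ ^ 4 - 72579 * ξ ^ 2 + 1125000000 := by
  -- first step
  obtain ⟨η2, f0, hη2, hf0⟩ : ∃ η2 f0 : ℚ, η2 ^ 2 = ν ^ 4 - 72579 * ν ^ 2 + 1125000000 ∧
      f0 ^ 2 = 2 * ν ^ 2 - 72579 + 2 * η2 := by
    have hu' : (2 * ν ^ 2 - 72579 + 2 * η) * (2 * ν ^ 2 - 72579 - 2 * η) = 767711241 := by
      linear_combination (-4) * h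
    have hu0 : 2 * ν ^ 2 - 72579 + 2 * η ≠ 0 := by
      intro h0
      rw [h0] at hu'
      norm_num at hu'
    obtain ⟨r, hr | hr⟩ := classB (2 * ν ^ 2 - 72579 + 2 * η)
      (2 * (2 * ν ^ 2 - 72579 + 2 * η) * ν) hu0 (by
        linear_combination (2 * ν ^ 2 - 72579 + 2 * η) * hu')
    · exact ⟨η, r, h, hr.symm⟩
    · have hr0 : r ≠ 0 := by
        rintro rfl
        apply hu0
        rw [hr]; ring
      refine ⟨-η, 2937 / r, by rw [neg_sq]; exact h, ?_⟩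
      rw [hr] at hu'
      have h2 : 2 * ν ^ 2 - 72579 - 2 * η = 8625969 / r ^ 2 := by
        rw [eq_div_iff (pow_ne_zero 2 hr0)]
        have : 89 * ((2 * ν ^ 2 - 72579 - 2 * η) * r ^ 2) = 89 * 8625969 := by
          linear_combination hu'
        linarith
      have h3 : (2937 / r) ^ 2 = 8625969 / r ^ 2 := by
        rw [div_pow]; norm_num
      rw [h3, ← h2]; ring
  have hff : f0 ^ 2 * (2 * ν ^ 2 - 72579 - 2 * η2) = 767711241 := by
    rw [hf0]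
    linear_combination (-4) * hη2
  have hf00 : f0 ≠ 0 := by
    rintro rfl
    norm_num at hff
  -- second step
  have hxx : (f0 ^ 2 + 72579 + 2 * ν * f0) * (f0 ^ 2 + 72579 - 2 * ν * f0) = 4500000000 := by
    have : (f0 ^ 2 + 72579 + 2 * ν * f0) * (f0 ^ 2 + 72579 - 2 * ν * f0)
        = (f0 ^ 2 + 72579) ^ 2 - 4 * ν ^ 2 * f0 ^ 2 := by ring
    rw [this, hf0]
    linear_combination 4 * hη2
  have hx0 : (f0 ^ 2 + 72579 + 2 * ν * f0) / 2 ≠ 0 := by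
    intro h0
    have h1 : f0 ^ 2 + 72579 + 2 * ν * f0 = 0 := by linarith
    rw [h1] at hxx
    norm_num at hxx
  obtain ⟨f, ξ, hff2, hf, hξ⟩ : ∃ f ξ : ℚ, f ^ 2 = f0 ^ 2 ∧ f ≠ 0 ∧
      2 * ξ ^ 2 = f ^ 2 + 72579 + 2 * ν * f := by
    obtain ⟨r, hr | hr⟩ := classA ((f0 ^ 2 + 72579 + 2 * ν * f0) / 2)
      ((f0 ^ 2 + 72579 + 2 * ν * f0) / 2 * f0) hx0 (by
        linear_combination ((f0 ^ 2 + 72579 + 2 * ν * f0) / 8) * hxx)
    · exact ⟨f0, r, rfl, hf00, by linear_combination (-2) * hr⟩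
    · have hr0 : r ≠ 0 := by
        rintro rfl
        apply hx0
        rw [hr]; ring
      refine ⟨-f0, 15000 / r, by ring, neg_ne_zero.mpr hf00, ?_⟩
      have h1 : f0 ^ 2 + 72579 + 2 * ν * f0 = 10 * r ^ 2 := by linear_combination 2 * hr
      rw [h1] at hxx
      have h2 : f0 ^ 2 + 72579 - 2 * ν * f0 = 450000000 / r ^ 2 := by
        rw [eq_div_iff (pow_ne_zero 2 hr0)]
        have : 10 * ((f0 ^ 2 + 72579 - 2 * ν * f0) * r ^ 2) = 10 * 450000000 := by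
          linear_combination hxx
        linarith
      have h3 : (15000 / r) ^ 2 = 225000000 / r ^ 2 := by
        rw [div_pow]; norm_num
      rw [h3]
      have h4 : (-f0) ^ 2 + 72579 + 2 * ν * (-f0) = f0 ^ 2 + 72579 - 2 * ν * f0 := by ring
      rw [h4, h2]; ring
  have hf2 : f ^ 2 = 2 * ν ^ 2 - 72579 + 2 * η2 := by rw [hff2, hf0]
  have hξ2 : ξ ^ 2 * (f ^ 2 + 72579 - 2 * ν * f) = 2250000000 := by
    have h1 : (f ^ 2 + 72579 + 2 * ν * f) * (f ^ 2 + 72579 - 2 * ν * f) = 4500000000 := by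
      have : (f ^ 2 + 72579 + 2 * ν * f) * (f ^ 2 + 72579 - 2 * ν * f)
          = (f ^ 2 + 72579) ^ 2 - 4 * ν ^ 2 * f ^ 2 := by ring
      rw [this, hf2]
      linear_combination 4 * hη2
    rw [← hξ] at h1
    linarith
  have hξ0 : ξ ≠ 0 := by
    rintro rfl
    norm_num at hξ2
  refine ⟨η2, f, ξ, hf, hξ0, hη2, hf2, hξ, by rw [hff2]; exact hff, hξ2, ?_⟩
  -- (ξ f)^2 = ξ^4 + a ξ^2 + b
  have h5 : ξ ^ 2 * (2 * (f ^ 2 + 72579) - 2 * ξ ^ 2) = 2250000000 := by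
    rw [← hξ2, hξ]; ring
  linear_combination h5 / 2

end Pool.Agent.Helper96
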