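import Pool.Agent.Helper96.QuinticDescentC

set_option autoImplicit false

namespace Pool.Agent.Helper96

/-- the 2-adic valuation on the rationals -/
noncomputable abbrev v2 (q : ℚ) : ℤ := padicValRat 2 q

theorem v2_mul {a b : ℚ} (ha : a ≠ 0) (hb : b ≠ 0) : v2 (a * b) = v2 a + v2 b :=
  padicValRat.mul ha hb

theorem v2_sq {a : ℚ} (ha : a ≠ 0) : v2 (a ^ 2) = 2 * v2 a := by
  rw [pow_two, v2_mul ha ha]; ring

theorem odd_den_of_nonneg {q : ℚ} (h : 0 ≤ v2 q) : Odd (q.den : ℤ) := by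
  rw [← Int.not_even_iff_odd]
  intro hev
  have hd : (2 : ℤ) ∣ (q.den : ℤ) := hev.two_dvd
  have hd' : 2 ∣ q.den := by exact_mod_cast hd
  have h1 : 1 ≤ padicValNat 2 q.den := one_le_padicValNat_of_dvd q.den_ne_zero hd'
  have h2 : padicValInt 2 q.num = 0 := by
    apply padicValInt.eq_zero_of_not_dvd
    intro hn
    have hn' : 2 ∣ q.num.natAbs := by
      have := Int.natAbs_dvd_natAbs.mpr hn
      simpa using this
    have := Nat.dvd_gcd hn' hd'
    rw [q.reduced] at this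
    omega
  have h3 : v2 q = (padicValInt 2 q.num : ℤ) - padicValNat 2 q.den := rfl
  rw [h3, h2] at h
  omega

theorem v2_of_nonneg {q : ℚ} (h : 0 ≤ v2 q) : v2 q = padicValInt 2 q.num := by
  have h1 := odd_den_of_nonneg h
  have h2 : padicValNat 2 q.den = 0 := by
    apply padicValNat.eq_zero_of_not_dvd
    intro hd
    have : (2 : ℤ) ∣ (q.den : ℤ) := by exact_mod_cast hd
    rcases h1 with ⟨k, hk⟩
    omega
  have h3 : v2 q = (padicValInt 2 q.num : ℤ) - padicValNat 2 q.den := rfl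
  rw [h3, h2]; simp

theorem odd_num_of_zero {q : ℚ} (hq : q ≠ 0) (h : v2 q = 0) : Odd q.num := by
  have h1 := v2_of_nonneg (le_of_eq h.symm)
  rw [h] at h1
  rw [← Int.not_even_iff_odd]
  intro hev
  have h2 : padicValInt 2 q.num ≠ 0 := by
    have h3 : ((2 : ℕ) : ℤ) ^ 1 ∣ q.num := by simpa using hev.two_dvd
    rw [padicValInt_dvd_iff] at h3
    rcases h3 with h3 | h3
    · exact absurd (Rat.num_ne_zero.mpr hq) (by simpa using h3)
    · omega
  exact h2 (by exact_mod_cast h1.symm)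

theorem four_dvd_num {q : ℚ} (h : 2 ≤ v2 q) : (4 : ℤ) ∣ q.num := by
  have h1 := v2_of_nonneg (le_trans (by norm_num) h)
  rw [h1] at h
  have h3 : ((2 : ℕ) : ℤ) ^ 2 ∣ q.num := by
    rw [padicValInt_dvd_iff]
    right
    exact_mod_cast h
  norm_num at h3
  exact h3

theorem v2_unit_sum {a b : ℚ} (ha : a ≠ 0) (hb : b ≠ 0) (hva : v2 a = 0) (hvb : v2 b = 0)
    (hab : a + b ≠ 0) : 1 ≤ v2 (a + b) := by
  obtain ⟨ka, hka⟩ := odd_num_of_zero ha hva
  obtain ⟨kb, hkb⟩ := odd_num_of_zero hb hvb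
  obtain ⟨la, hla⟩ := odd_den_of_nonneg (le_of_eq hva.symm)
  obtain ⟨lb, hlb⟩ := odd_den_of_nonneg (le_of_eq hvb.symm)
  have hda : (a.den : ℚ) ≠ 0 := by exact_mod_cast a.den_ne_zero
  have hdb : (b.den : ℚ) ≠ 0 := by exact_mod_cast b.den_ne_zero
  have hea : a = a.num / a.den := (Rat.num_div_den a).symm
  have heb : b = b.num / b.den := (Rat.num_div_den b).symm
  -- a + b = 2 * c / (da * db)
  set c : ℤ := (2 * ka * lb + ka + lb) + (2 * kb * la + kb + la) + 1 with hc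
  have hsum : (a + b) * ((a.den : ℚ) * b.den) = 2 * c := by
    have h1 : (a + b) * ((a.den : ℚ) * b.den) = a.num * b.den + b.num * a.den := by
      nth_rewrite 1 [hea, heb]
      field_simp
    rw [h1]
    have h2 : ((a.num * (b.den : ℤ) + b.num * (a.den : ℤ) : ℤ) : ℚ) = ((2 * c : ℤ) : ℚ) := by
      congr 1
      rw [hka, hkb, hla, hlb, hc]; ring
    push_cast at h2
    exact h2
  have hc0 : (c : ℚ) ≠ 0 := by
    intro h0
    rw [h0, mul_zero] at hsum
    rcases mul_eq_zero.mp hsum with h1 | h1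
    · exact hab h1
    · rcases mul_eq_zero.mp h1 with h2 | h2
      · exact hda h2
      · exact hdb h2
  have hvda : v2 (a.den : ℚ) = 0 := by
    show padicValRat 2 ((a.den : ℕ) : ℚ) = 0
    rw [padicValRat.of_nat]
    have : padicValNat 2 a.den = 0 := by
      apply padicValNat.eq_zero_of_not_dvd
      intro hd
      have : (2 : ℤ) ∣ (a.den : ℤ) := by exact_mod_cast hd
      omega
    rw [this]; rfl
  have hvdb : v2 (b.den : ℚ) = 0 := by
    show padicValRat 2 ((b.den : ℕ) : ℚ) = 0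
    rw [padicValRat.of_nat]
    have : padicValNat 2 b.den = 0 := by
      apply padicValNat.eq_zero_of_not_dvd
      intro hd
      have : (2 : ℤ) ∣ (b.den : ℤ) := by exact_mod_cast hd
      omega
    rw [this]; rfl
  have h3 : v2 ((a + b) * ((a.den : ℚ) * b.den)) = v2 (a + b) := by
    rw [v2_mul hab (mul_ne_zero hda hdb), v2_mul hda hdb, hvda, hvdb]; ring
  have h4 : v2 (2 * (c : ℚ)) = 1 + v2 (c : ℚ) := by
    rw [v2_mul two_ne_zero hc0]
    have : v2 (2 : ℚ) = 1 := by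
      have := padicValRat.self (p := 2) (by norm_num)
      simpa using this
    rw [this]
  have h5 : 0 ≤ v2 (c : ℚ) := by
    show 0 ≤ padicValRat 2 ((c : ℤ) : ℚ)
    rw [padicValRat.of_int]
    positivity
  rw [← h3, hsum, h4]
  omega

/-- the integer form of the equation -/
theorem int_form (ν η : ℚ) (h : η ^ 2 = ν ^ 4 - 72579 * ν ^ 2 + 1125000000) :
    ∃ Z : ℤ, (Z : ℚ) = η * (ν.den : ℚ) ^ 2 ∧
      Z ^ 2 = ν.num ^ 4 - 72579 * ν.num ^ 2 * (ν.den : ℤ) ^ 2 + 1125000000 * (ν.den : ℤ) ^ 4 := by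
  have hd : (ν.den : ℚ) ≠ 0 := by exact_mod_cast ν.den_ne_zero
  have he : ν * ν.den = ν.num := Rat.mul_den_eq_num ν
  have key : (η * (ν.den : ℚ) ^ 2) ^ 2 =
      ((ν.num ^ 4 - 72579 * ν.num ^ 2 * (ν.den : ℤ) ^ 2 + 1125000000 * (ν.den : ℤ) ^ 4 : ℤ) : ℚ) := by
    push_cast
    rw [← he]
    linear_combination ((ν.den : ℚ) ^ 4) * h
  have hsq : IsSquare ((ν.num ^ 4 - 72579 * ν.num ^ 2 * (ν.den : ℤ) ^ 2 + 1125000000 * (ν.den : ℤ) ^ 4 : ℤ) : ℚ) :=
    ⟨η * (ν.den : ℚ) ^ 2, by rw [← key]; ring⟩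
  rw [Rat.isSquare_intCast_iff] at hsq
  obtain ⟨Z0, hZ0⟩ := hsq
  have h2 : (η * (ν.den : ℚ) ^ 2) ^ 2 = ((Z0 : ℤ) : ℚ) ^ 2 := by
    rw [key, hZ0]; push_cast; ring
  rcases sq_eq_sq_iff_eq_or_eq_neg.mp h2 with h3 | h3
  · exact ⟨Z0, h3.symm, by rw [hZ0]; ring⟩
  · exact ⟨-Z0, by push_cast; rw [h3], by rw [hZ0]; ring⟩

/-- no solution with `ν` a 2-adic unit -/
theorem no_unit (ν η : ℚ) (hν : ν ≠ 0) (h : η ^ 2 = ν ^ 4 - 72579 * ν ^ 2 + 1125000000)
    (hv : v2 ν = 0) : False := by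
  obtain ⟨Z, -, hZ⟩ := int_form ν η h
  obtain ⟨k, hk⟩ := odd_num_of_zero hν hv
  obtain ⟨l, hl⟩ := odd_den_of_nonneg (le_of_eq hv.symm)
  have key3 := congrArg (Int.cast : ℤ → ZMod 8) hZ
  rw [hk, hl] at key3
  push_cast at key3
  revert key3
  generalize (k : ZMod 8) = k'
  generalize (l : ZMod 8) = l'
  generalize (Z : ZMod 8) = Z'
  revert k' l' Z'
  decide

/-- no solution with `ν` divisible by four (2-adically) -/
theorem no_four (ν η : ℚ) (h : η ^ 2 = ν ^ 4 - 72579 * ν ^ 2 + 1125000000)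
    (hv : 2 ≤ v2 ν) : False := by
  obtain ⟨η2, f, ξ, hf, hξ, hη2, hf2, -, -, -, -⟩ := halving ν η h
  obtain ⟨Z, hZq, hZ⟩ := int_form ν η2 hη2
  obtain ⟨k, hk⟩ := four_dvd_num hv
  obtain ⟨l, hl⟩ := odd_den_of_nonneg (le_trans (by norm_num) hv)
  have he : ν * ν.den = ν.num := Rat.mul_den_eq_num ν
  -- F = f * m is an integer
  have key : (f * (ν.den : ℚ)) ^ 2 =
      ((2 * ν.num ^ 2 - 72579 * (ν.den : ℤ) ^ 2 + 2 * Z : ℤ) : ℚ) := by
    push_cast
    rw [← he, hZq]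
    linear_combination ((ν.den : ℚ) ^ 2) * hf2
  have hsq : IsSquare ((2 * ν.num ^ 2 - 72579 * (ν.den : ℤ) ^ 2 + 2 * Z : ℤ) : ℚ) :=
    ⟨f * (ν.den : ℚ), by rw [← key]; ring⟩
  rw [Rat.isSquare_intCast_iff] at hsq
  obtain ⟨F, hF⟩ := hsq
  -- 4 divides Z
  have hZ4 : (4 : ℤ) ∣ Z := by
    have h16 : (4 : ℤ) ^ 2 ∣ Z ^ 2 := by
      rw [hZ, hk]
      exact ⟨16 * k ^ 4 - 72579 * k ^ 2 * (ν.den : ℤ) ^ 2 + 70312500 * (ν.den : ℤ) ^ 4, by ring⟩
    exact (Int.pow_dvd_pow_iff two_ne_zero).mp h16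
  obtain ⟨Z1, hZ1⟩ := hZ4
  have key3 := congrArg (Int.cast : ℤ → ZMod 8) hF
  rw [hZ1, hk, hl] at key3
  push_cast at key3
  revert key3
  generalize (k : ZMod 8) = k'
  generalize (l : ZMod 8) = l'
  generalize (Z1 : ZMod 8) = Z'
  generalize (F : ZMod 8) = F'
  revert k' l' Z' F'
  decide

theorem v2_num_odd (n : ℕ) (h : ¬ 2 ∣ n) : v2 (n : ℚ) = 0 := by
  show padicValRat 2 ((n : ℕ) : ℚ) = 0
  rw [padicValRat.of_nat]
  have : padicValNat 2 n = 0 := padicValNat.eq_zero_of_not_dvd h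
  rw [this]; rfl

theorem v2_two : v2 (2 : ℚ) = 1 := by
  have := padicValRat.self (p := 2) (by norm_num)
  simpa using this

theorem v2_neg (a : ℚ) : v2 (-a) = v2 a := padicValRat.neg a

theorem v2_add_lt {a b : ℚ} (hab : a + b ≠ 0) (ha : a ≠ 0) (hb : b ≠ 0) (h : v2 a < v2 b) :
    v2 (a + b) = v2 a := padicValRat.add_eq_of_lt hab ha hb h

theorem no_nonpos (j : ℕ) : ∀ ν η : ℚ, ν ≠ 0 → η ^ 2 = ν ^ 4 - 72579 * ν ^ 2 + 1125000000 →
    v2 ν = -(j : ℤ) → False := by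
  induction j with
  | zero =>
    intro ν η hν h hv
    exact no_unit ν η hν h (by simpa using hv)
  | succ k ih =>
    intro ν η hν h hv
    obtain ⟨η2, f, ξ, hf, hξ, hη2, hf2, hξ1, hprod1, hprod2, hcurve⟩ := halving ν η h
    -- first sum
    set B : ℚ := 2 * ν ^ 2 - 72579 - 2 * η2 with hB
    have hB0 : B ≠ 0 := by
      intro h0
      rw [h0] at hprod1
      norm_num at hprod1
    have hf20 : f ^ 2 ≠ 0 := pow_ne_zero 2 hf
    have hvB : v2 B = - (2 * v2 f) := by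
      have h1 : v2 (f ^ 2 * B) = 0 := by
        rw [hprod1]
        have := v2_num_odd 767711241 (by norm_num)
        simpa using this
      rw [v2_mul hf20 hB0, v2_sq hf] at h1
      linarith
    have hsum : f ^ 2 + B = 4 * ν ^ 2 + (-145158) := by
      rw [hB, hf2]; ring
    have hv4 : v2 (4 * ν ^ 2) = -(2 * (k : ℤ)) := by
      have h1 : (4 : ℚ) * ν ^ 2 = (2 * ν) ^ 2 := by ring
      rw [h1, v2_sq (mul_ne_zero two_ne_zero hν), v2_mul two_ne_zero hν, v2_two, hv]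
      push_cast; ring
    have hvc : v2 (-145158 : ℚ) = 1 := by
      have h1 : (-145158 : ℚ) = -(2 * (72579 : ℕ)) := by norm_num
      rw [h1, v2_neg, v2_mul two_ne_zero (by norm_num), v2_two, v2_num_odd 72579 (by norm_num)]
      norm_num
    have h4ne : (4 : ℚ) * ν ^ 2 ≠ 0 := mul_ne_zero (by norm_num) (pow_ne_zero 2 hν)
    have hsumne : 4 * ν ^ 2 + (-145158 : ℚ) ≠ 0 := by
      intro h0
      have h1 : 4 * ν ^ 2 = 145158 := by linarith
      have h2 : v2 (4 * ν ^ 2) = 1 := by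
        rw [h1]
        have := hvc
        rw [show (-145158 : ℚ) = -(145158) by norm_num, v2_neg] at this
        exact this
      rw [hv4] at h2
      omega
    have hvsum : v2 (4 * ν ^ 2 + (-145158)) = -(2 * (k : ℤ)) := by
      rw [v2_add_lt hsumne h4ne (by norm_num) (by rw [hv4, hvc]; omega), hv4]
    have hsumne' : f ^ 2 + B ≠ 0 := by rw [hsum]; exact hsumne
    have hvsum' : v2 (f ^ 2 + B) = -(2 * (k : ℤ)) := by rw [hsum]; exact hvsum
    have hφ : v2 f ≠ 0 ∧ (v2 f = -(k : ℤ) ∨ v2 f = k) := by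
      rcases lt_trichotomy (v2 f) 0 with h1 | h1 | h1
      · have h2 : v2 (f ^ 2 + B) = v2 (f ^ 2) :=
          v2_add_lt hsumne' hf20 hB0 (by rw [v2_sq hf, hvB]; omega)
        rw [hvsum', v2_sq hf] at h2
        exact ⟨by omega, by left; omega⟩
      · exfalso
        have h2 : 1 ≤ v2 (f ^ 2 + B) :=
          v2_unit_sum hf20 hB0 (by rw [v2_sq hf, h1]; rfl) (by rw [hvB, h1]; rfl) hsumne'
        rw [hvsum'] at h2
        omega
      · have h2 : v2 (B + f ^ 2) = v2 B :=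
          v2_add_lt (by rw [add_comm]; exact hsumne') hB0 hf20 (by rw [v2_sq hf, hvB]; omega)
        rw [add_comm, hvsum', hvB] at h2
        exact ⟨by omega, by right; omega⟩
    -- second sum
    set C : ℚ := f ^ 2 + 72579 - 2 * ν * f with hC
    have hC0 : C ≠ 0 := by
      intro h0
      rw [h0] at hprod2
      norm_num at hprod2
    have hξ20 : ξ ^ 2 ≠ 0 := pow_ne_zero 2 hξ
    have hvC : v2 C = 7 - 2 * v2 ξ := by
      have h1 : v2 (ξ ^ 2 * C) = 7 := by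
        rw [hprod2]
        have h3 : (2250000000 : ℚ) = 2 ^ 7 * (17578125 : ℕ) := by norm_num
        rw [h3, v2_mul (by norm_num) (by norm_num), v2_num_odd 17578125 (by norm_num)]
        have h4 : v2 ((2 : ℚ) ^ 7) = 7 := by
          have h5 : v2 ((2 : ℚ) ^ 7) = ((7 : ℕ) : ℤ) * v2 2 := padicValRat.pow 2
          rw [h5, v2_two]; rfl
        rw [h4]; rfl
      rw [v2_mul hξ20 hC0, v2_sq hξ] at h1
      linarith
    have hsum2 : 2 * ξ ^ 2 + C = 2 * (f ^ 2 + 72579) := by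
      rw [hC, hξ1]; ring
    have hgpos : 0 < f ^ 2 + 72579 := by positivity
    have hg0 : f ^ 2 + 72579 ≠ 0 := hgpos.ne'
    have hv72579 : v2 (72579 : ℚ) = 0 := by
      have := v2_num_odd 72579 (by norm_num)
      simpa using this
    have hvg : v2 (f ^ 2 + 72579) = -(2 * (k : ℤ)) ∨ v2 (f ^ 2 + 72579) = 0 := by
      rcases hφ.2 with h1 | h1
      · left
        rw [v2_add_lt hg0 hf20 (by norm_num) (by rw [v2_sq hf, hv72579]; omega), v2_sq hf]
        omega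
      · right
        rw [add_comm, v2_add_lt (by rw [add_comm]; exact hg0) (by norm_num) hf20
          (by rw [v2_sq hf, hv72579]; omega), hv72579]
    have hk1 : 1 ≤ k := by
      rcases hφ with ⟨h1, h2 | h2⟩ <;> omega
    have h2ξ : v2 (2 * ξ ^ 2) = 1 + 2 * v2 ξ := by
      rw [v2_mul two_ne_zero hξ20, v2_two, v2_sq hξ]
    have hv2g : v2 (2 * (f ^ 2 + 72579)) = 1 + v2 (f ^ 2 + 72579) := by
      rw [v2_mul two_ne_zero hg0, v2_two]
    have hne2 : 2 * ξ ^ 2 + C ≠ 0 := by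
      rw [hsum2]; positivity
    have h2ξ0 : 2 * ξ ^ 2 ≠ 0 := mul_ne_zero two_ne_zero hξ20
    have hmin : v2 (2 * ξ ^ 2 + C) = 1 + 2 * v2 ξ ∨ v2 (2 * ξ ^ 2 + C) = 7 - 2 * v2 ξ := by
      rcases lt_trichotomy (v2 (2 * ξ ^ 2)) (v2 C) with h1 | h1 | h1
      · left; rw [v2_add_lt hne2 h2ξ0 hC0 h1, h2ξ]
      · exfalso
        rw [h2ξ, hvC] at h1
        omega
      · right; rw [add_comm, v2_add_lt (by rw [add_comm]; exact hne2) hC0 h2ξ0 h1, hvC]
    rw [hsum2, hv2g] at hmin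
    have hcases : v2 ξ = -(k : ℤ) ∨ v2 ξ = 0 ∨ 2 ≤ v2 ξ := by omega
    rcases hcases with h1 | h1 | h1
    · exact ih ξ (ξ * f) hξ hcurve h1
    · exact no_unit ξ (ξ * f) hξ hcurve h1
    · exact no_four ξ (ξ * f) hcurve h1

/-- Every solution with `ν ≠ 0` has 2-adic valuation exactly one. -/
theorem v2_eq_one (ν η : ℚ) (hν : ν ≠ 0) (h : η ^ 2 = ν ^ 4 - 72579 * ν ^ 2 + 1125000000) :
    v2 ν = 1 := by
  by_contra hne
  rcases le_or_gt (v2 ν) 0 with h1 | h1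
  · obtain ⟨j, hj⟩ := Int.eq_ofNat_of_zero_le (a := - v2 ν) (by omega)
    exact no_nonpos j ν η hν h (by omega)
  · exact no_four ν η h (by omega)

end Pool.Agent.Helper96
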