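import Pool.Agent.Helper96.QuinticDescentD

set_option autoImplicit false

namespace Pool.Agent.Helper96

/-- the key polynomial identity -/
theorem disc_identity (s u q r : ℚ) (hq : q = s ^ 2 - u - 13) (hr : r = s * (u - q))
    (hR : u * q - s * r - 36 = 0) :
    (s ^ 2 * u ^ 2 - 4 * u ^ 3 - 4 * s ^ 3 * r + 18 * s * u * r - 27 * r ^ 2) * (s ^ 2 - 4 * q) *
      ((2 * s ^ 2 + u - q) ^ 2 * q - (2 * s ^ 2 + u - q) * (2 * s * q - r) * s + (2 * s * q - r) ^ 2) ^ 2
      = 3125 * (r * q) ^ 4 - 2612844 * (r * q) ^ 2 + 466560000 := by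
  subst hr
  subst hq
  linear_combination ((12960000) + (-4680000*u^1) + (1330000*u^2) + (27537952*u^3) + (13616528*u^4) + (2733952*u^5) + (272000*u^6) + (13312*u^7) + (256*u^8) + (29735889300*s^2) + (23383054600*s^2*u^1) + (7568191956*s^2*u^2) + (1295912000*s^2*u^3) + (124466784*s^2*u^4) + (6483584*s^2*u^5) + (157248*s^2*u^6) + (1024*s^2*u^7) + (504723600*s^4) + (-858042744*s^4*u^1) + (-466875880*s^4*u^2) + (-84248736*s^4*u^3) + (-6397664*s^4*u^4) + (-168064*s^4*u^5) + (512*s^4*u^6) + (-2630033848*s^6) + (-990088248*s^6*u^1) + (-130668044*s^6*u^2) + (-7003248*s^6*u^3) + (-144560*s^6*u^4) + (-2048*s^6*u^5) + (518099104*s^8) + (155740520*s^8*u^1) + (14847664*s^8*u^2) + (427440*s^8*u^3) + (-1280*s^8*u^4) + (-44664204*s^10) + (-9088752*s^10*u^1) + (-428064*s^10*u^2) + (2048*s^10*u^3) + (1937168*s^12) + (208624*s^12*u^1) + (512*s^12*u^2) + (-39312*s^14) + (-1024*s^14*u^1) + (256*s^16)) * hR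

theorem res_identity (a b c q : ℚ) :
    (a ^ 2 + (a + b + c) * a + q) * (b ^ 2 + (a + b + c) * b + q) * (c ^ 2 + (a + b + c) * c + q) =
    (2 * (a + b + c) ^ 2 + (a * b + a * c + b * c) - q) ^ 2 * q
      - (2 * (a + b + c) ^ 2 + (a * b + a * c + b * c) - q) * (2 * (a + b + c) * q - a * b * c) * (a + b + c)
      + (2 * (a + b + c) * q - a * b * c) ^ 2 := by
  ring

theorem disc3_identity (a b c : ℚ) :
    ((a - b) * (a - c) * (b - c)) ^ 2 =
    (a + b + c) ^ 2 * (a * b + a * c + b * c) ^ 2 - 4 * (a * b + a * c + b * c) ^ 3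
      - 4 * (a + b + c) ^ 3 * (a * b * c) + 18 * (a + b + c) * (a * b + a * c + b * c) * (a * b * c)
      - 27 * (a * b * c) ^ 2 := by
  ring

end Pool.Agent.Helper96
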