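import Pool.Agent.Helper96.QuinticDisc

set_option autoImplicit false

namespace Pool.Agent.Helper96

/-- the quintic `x (x^2 - 4) (x^2 - 9)` -/
def quint (x : ℚ) : ℚ := x ^ 5 - 13 * x ^ 3 + 36 * x

theorem dd1 {a b t : ℚ} (hab : a ≠ b) (ha : quint a = t) (hb : quint b = t) :
    a ^ 4 + a ^ 3 * b + a ^ 2 * b ^ 2 + a * b ^ 3 + b ^ 4 - 13 * (a ^ 2 + a * b + b ^ 2) + 36 = 0 := by
  have h : (a - b) * (a ^ 4 + a ^ 3 * b + a ^ 2 * b ^ 2 + a * b ^ 3 + b ^ 4
      - 13 * (a ^ 2 + a * b + b ^ 2) + 36) = 0 := by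
    unfold quint at ha hb
    linear_combination ha - hb
  rcases mul_eq_zero.mp h with h1 | h1
  · exact absurd (sub_eq_zero.mp h1) hab
  · exact h1

theorem dd2 {a b c t : ℚ} (hab : a ≠ b) (hac : a ≠ c) (hbc : b ≠ c)
    (ha : quint a = t) (hb : quint b = t) (hc : quint c = t) :
    a ^ 3 + b ^ 3 + c ^ 3 + a ^ 2 * b + a ^ 2 * c + b ^ 2 * a + b ^ 2 * c + c ^ 2 * a + c ^ 2 * b
      + a * b * c - 13 * (a + b + c) = 0 := by
  have h1 := dd1 hab ha hb
  have h2 := dd1 hac ha hc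
  have h : (b - c) * (a ^ 3 + b ^ 3 + c ^ 3 + a ^ 2 * b + a ^ 2 * c + b ^ 2 * a + b ^ 2 * c
      + c ^ 2 * a + c ^ 2 * b + a * b * c - 13 * (a + b + c)) = 0 := by
    linear_combination h1 - h2
  rcases mul_eq_zero.mp h with h3 | h3
  · exact absurd (sub_eq_zero.mp h3) hbc
  · exact h3

theorem dd3 {a b c d t : ℚ} (hab : a ≠ b) (hac : a ≠ c) (had : a ≠ d) (hbc : b ≠ c) (hbd : b ≠ d)
    (hcd : c ≠ d) (ha : quint a = t) (hb : quint b = t) (hc : quint c = t) (hd : quint d = t) :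
    a ^ 2 + b ^ 2 + c ^ 2 + d ^ 2 + a * b + a * c + a * d + b * c + b * d + c * d - 13 = 0 := by
  have h1 := dd2 hab hac hbc ha hb hc
  have h2 := dd2 hab had hbd ha hb hd
  have h : (c - d) * (a ^ 2 + b ^ 2 + c ^ 2 + d ^ 2 + a * b + a * c + a * d + b * c + b * d
      + c * d - 13) = 0 := by
    linear_combination h1 - h2
  rcases mul_eq_zero.mp h with h3 | h3
  · exact absurd (sub_eq_zero.mp h3) hcd
  · exact h3

theorem dd4 {a b c d e t : ℚ} (hab : a ≠ b) (hac : a ≠ c) (had : a ≠ d) (hae : a ≠ e)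
    (hbc : b ≠ c) (hbd : b ≠ d) (hbe : b ≠ e) (hcd : c ≠ d) (hce : c ≠ e) (hde : d ≠ e)
    (ha : quint a = t) (hb : quint b = t) (hc : quint c = t) (hd : quint d = t)
    (he : quint e = t) : a + b + c + d + e = 0 := by
  have h1 := dd3 hab hac had hbc hbd hcd ha hb hc hd
  have h2 := dd3 hab hac hae hbc hbe hce ha hb hc he
  have h : (d - e) * (a + b + c + d + e) = 0 := by
    linear_combination h1 - h2
  rcases mul_eq_zero.mp h with h3 | h3
  · exact absurd (sub_eq_zero.mp h3) hde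
  · exact h3

/-- If `quint x = t` has five distinct rational solutions then the discriminant is a square. -/
theorem disc_square {a b c d e t : ℚ} (hab : a ≠ b) (hac : a ≠ c) (had : a ≠ d) (hae : a ≠ e)
    (hbc : b ≠ c) (hbd : b ≠ d) (hbe : b ≠ e) (hcd : c ≠ d) (hce : c ≠ e) (hde : d ≠ e)
    (ha : quint a = t) (hb : quint b = t) (hc : quint c = t) (hd : quint d = t)
    (he : quint e = t) : ∃ w : ℚ, w ^ 2 = 3125 * t ^ 4 - 2612844 * t ^ 2 + 466560000 := by
  have hD := dd4 hab hac had hae hbc hbd hbe hcd hce hde ha hb hc hd he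
  have hC := dd3 hab hac had hbc hbd hcd ha hb hc hd
  have hB := dd2 hab hac hbc ha hb hc
  have hA := dd1 hab ha hb
  have ht : a ^ 5 - 13 * a ^ 3 + 36 * a = t := ha
  obtain ⟨s, hs⟩ : ∃ s, s = a + b + c := ⟨_, rfl⟩
  obtain ⟨u, hu⟩ : ∃ u, u = a * b + a * c + b * c := ⟨_, rfl⟩
  obtain ⟨r, hr⟩ : ∃ r, r = a * b * c := ⟨_, rfl⟩
  obtain ⟨q, hq⟩ : ∃ q, q = d * e := ⟨_, rfl⟩
  have hde' : d + e = - s := by rw [hs]; linear_combination hD
  have he2 : u + s * (d + e) + q + 13 = 0 := by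
    rw [hs, hu, hq]
    linear_combination -hC + (a + b + c + d) * hD
  have he3 : r + u * (d + e) + s * q = 0 := by
    have h2 := he2
    rw [hs, hu, hq] at h2
    rw [hs, hu, hr, hq]
    linear_combination hB - (a ^ 2 + b ^ 2 + c ^ 2 + a * b + a * c + b * c) * hD + (a + b + c) * h2
  have he4 : r * (d + e) + u * q - 36 = 0 := by
    have h2 := he2
    have h3 := he3
    rw [hs, hu, hq] at h2
    rw [hs, hu, hr, hq] at h3
    rw [hu, hr, hq]
    linear_combination -hA + (a ^ 3 + a ^ 2 * b + a * b ^ 2 + b ^ 3) * hD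
      - (a ^ 2 + a * b + b ^ 2) * h2 + (a + b) * h3
  have he5 : r * q = t := by
    have h2 := he2
    have h3 := he3
    have h4 := he4
    rw [hs, hu, hq] at h2
    rw [hs, hu, hr, hq] at h3
    rw [hu, hr, hq] at h4
    rw [hr, hq]
    linear_combination ht - a ^ 4 * hD + a ^ 3 * h2 - a ^ 2 * h3 + a * h4
  have hq2 : q = s ^ 2 - u - 13 := by
    rw [hde'] at he2; linear_combination he2
  have hr2 : r = s * (u - q) := by
    rw [hde'] at he3; linear_combination he3
  have hR : u * q - s * r - 36 = 0 := by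
    rw [hde'] at he4; linear_combination he4
  have hfin := disc_identity s u q r hq2 hr2 hR
  rw [he5] at hfin
  refine ⟨((a - b) * (a - c) * (b - c)) * (d - e) *
    (((a - d) * (a - e)) * ((b - d) * (b - e)) * ((c - d) * (c - e))), ?_⟩
  rw [← hfin]
  have h1 : (a - d) * (a - e) = a ^ 2 + (a + b + c) * a + q := by
    rw [hq, ← hs]
    linear_combination (-a) * hde'
  have h2 : (b - d) * (b - e) = b ^ 2 + (a + b + c) * b + q := by
    rw [hq, ← hs]
    linear_combination (-b) * hde'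
  have h3 : (c - d) * (c - e) = c ^ 2 + (a + b + c) * c + q := by
    rw [hq, ← hs]
    linear_combination (-c) * hde'
  have h4 : (d - e) ^ 2 = s ^ 2 - 4 * q := by
    rw [hq]
    linear_combination (d + e - s) * hde'
  have h5 : ((a - b) * (a - c) * (b - c)) ^ 2 =
      s ^ 2 * u ^ 2 - 4 * u ^ 3 - 4 * s ^ 3 * r + 18 * s * u * r - 27 * r ^ 2 := by
    rw [disc3_identity, hs, hu, hr]
  have h6 : ((a - d) * (a - e)) * ((b - d) * (b - e)) * ((c - d) * (c - e)) =
      (2 * s ^ 2 + u - q) ^ 2 * q - (2 * s ^ 2 + u - q) * (2 * s * q - r) * s + (2 * s * q - r) ^ 2 := by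
    rw [h1, h2, h3, res_identity, hs, hu, hr]
  rw [h6, ← h5, ← h4]
  ring

theorem ne_of_v2_pos {t : ℚ} (h : v2 t = 3) : t ≠ 0 := by
  rintro rfl
  have : v2 (0 : ℚ) = 0 := padicValRat.zero
  rw [this] at h
  norm_num at h

/-- If `t` has 2-adic valuation 3, every rational solution of `quint x = t` is a 2-adic unit. -/
theorem unit_root {x t : ℚ} (ht : v2 t = 3) (hx : quint x = t) : x ≠ 0 ∧ v2 x = 0 := by
  have ht0 : t ≠ 0 := ne_of_v2_pos ht
  have hfac : x * ((x + (-2)) * (x + 2)) * ((x + (-3)) * (x + 3)) = t := by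
    rw [← hx]; unfold quint; ring
  have hx0 : x ≠ 0 := by rintro rfl; apply ht0; rw [← hfac]; ring
  have h1 : x + (-2) ≠ 0 := by intro h; apply ht0; rw [← hfac, h]; ring
  have h2 : x + 2 ≠ 0 := by intro h; apply ht0; rw [← hfac, h]; ring
  have h3 : x + (-3) ≠ 0 := by intro h; apply ht0; rw [← hfac, h]; ring
  have h4 : x + 3 ≠ 0 := by intro h; apply ht0; rw [← hfac, h]; ring
  refine ⟨hx0, ?_⟩
  have hv : v2 x + (v2 (x + (-2)) + v2 (x + 2)) + (v2 (x + (-3)) + v2 (x + 3)) = 3 := by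
    rw [← ht, ← hfac, v2_mul (mul_ne_zero hx0 (mul_ne_zero h1 h2)) (mul_ne_zero h3 h4),
      v2_mul hx0 (mul_ne_zero h1 h2), v2_mul h1 h2, v2_mul h3 h4]
  have hv2 : v2 (2 : ℚ) = 1 := v2_two
  have hvm2 : v2 (-2 : ℚ) = 1 := by rw [v2_neg, v2_two]
  have hv3 : v2 (3 : ℚ) = 0 := by
    have := v2_num_odd 3 (by norm_num)
    simpa using this
  have hvm3 : v2 (-3 : ℚ) = 0 := by rw [v2_neg, hv3]
  rcases lt_trichotomy (v2 x) 0 with hlt | heq | hgt
  · exfalso
    rw [v2_add_lt h1 hx0 (by norm_num) (by rw [hvm2]; omega),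
      v2_add_lt h2 hx0 (by norm_num) (by rw [hv2]; omega),
      v2_add_lt h3 hx0 (by norm_num) (by rw [hvm3]; omega),
      v2_add_lt h4 hx0 (by norm_num) (by rw [hv3]; omega)] at hv
    omega
  · exact heq
  · exfalso
    have e3 : v2 (x + (-3)) = 0 := by
      rw [add_comm, v2_add_lt (by rw [add_comm]; exact h3) (by norm_num) hx0 (by rw [hvm3]; omega), hvm3]
    have e4 : v2 (x + 3) = 0 := by
      rw [add_comm, v2_add_lt (by rw [add_comm]; exact h4) (by norm_num) hx0 (by rw [hv3]; omega), hv3]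
    rw [e3, e4] at hv
    rcases (by omega : v2 x = 1 ∨ 2 ≤ v2 x) with h5 | h5
    · -- x = 2 z
      set z : ℚ := x / 2 with hz
      have hxz : x = 2 * z := by rw [hz]; ring
      have hz0 : z ≠ 0 := by
        intro h0; apply hx0; rw [hxz, h0]; ring
      have hvz : v2 z = 0 := by
        have := v2_mul two_ne_zero hz0
        rw [← hxz, h5, hv2] at this
        omega
      have hz1 : z + (-1) ≠ 0 := by
        intro h0; apply h1; rw [hxz]; linear_combination 2 * h0
      have hz2 : z + 1 ≠ 0 := by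
        intro h0; apply h2; rw [hxz]; linear_combination 2 * h0
      have hvone : v2 (1 : ℚ) = 0 := padicValRat.one
      have e1 : 1 ≤ v2 (z + (-1)) := v2_unit_sum hz0 (by norm_num) hvz (by rw [v2_neg, hvone]) hz1
      have e2 : 1 ≤ v2 (z + 1) := v2_unit_sum hz0 (by norm_num) hvz hvone hz2
      have e5 : v2 (x + (-2)) = 1 + v2 (z + (-1)) := by
        have : x + (-2) = 2 * (z + (-1)) := by rw [hxz]; ring
        rw [this, v2_mul two_ne_zero hz1, hv2]
      have e6 : v2 (x + 2) = 1 + v2 (z + 1) := by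
        have : x + 2 = 2 * (z + 1) := by rw [hxz]; ring
        rw [this, v2_mul two_ne_zero hz2, hv2]
      rw [e5, e6] at hv
      omega
    · have e1 : v2 (x + (-2)) = 1 := by
        rw [add_comm, v2_add_lt (by rw [add_comm]; exact h1) (by norm_num) hx0 (by rw [hvm2]; omega), hvm2]
      have e2 : v2 (x + 2) = 1 := by
        rw [add_comm, v2_add_lt (by rw [add_comm]; exact h2) (by norm_num) hx0 (by rw [hv2]; omega), hv2]
      rw [e1, e2] at hv
      omega

/-- the sum of three 2-adic units is a 2-adic unit -/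
theorem unit_sum3 {a b c : ℚ} (ha : a ≠ 0 ∧ v2 a = 0) (hb : b ≠ 0 ∧ v2 b = 0)
    (hc : c ≠ 0 ∧ v2 c = 0) : a + b + c ≠ 0 ∧ v2 (a + b + c) = 0 := by
  by_cases hab : a + b = 0
  · rw [hab, zero_add]; exact hc
  · have h1 := v2_unit_sum ha.1 hb.1 ha.2 hb.2 hab
    have hne : c + (a + b) ≠ 0 := by
      intro h0
      have h2 : a + b = -c := by linear_combination h0
      rw [h2, v2_neg, hc.2] at h1
      norm_num at h1
    have h3 : v2 (c + (a + b)) = v2 c := v2_add_lt hne hc.1 hab (by rw [hc.2]; omega)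
    have h4 : a + b + c = c + (a + b) := by ring
    rw [h4]
    exact ⟨hne, by rw [h3, hc.2]⟩

/-- Main arithmetic statement: for `t ≠ 0` the equation `x (x^2-4) (x^2-9) = t` does not have five
distinct rational solutions. -/
theorem no_shift {a b c d e t : ℚ} (hab : a ≠ b) (hac : a ≠ c) (had : a ≠ d) (hae : a ≠ e)
    (hbc : b ≠ c) (hbd : b ≠ d) (hbe : b ≠ e) (hcd : c ≠ d) (hce : c ≠ e) (hde : d ≠ e)
    (ha : quint a = t) (hb : quint b = t) (hc : quint c = t) (hd : quint d = t)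
    (he : quint e = t) : t = 0 := by
  by_contra ht0
  obtain ⟨w, hw⟩ := disc_square hab hac had hae hbc hbd hbe hcd hce hde ha hb hc hd he
  have hν0 : (3600 : ℚ) / t ≠ 0 := div_ne_zero (by norm_num) ht0
  have hcurve : (600 * w / t ^ 2) ^ 2 = (3600 / t) ^ 4 - 72579 * (3600 / t) ^ 2 + 1125000000 := by
    rw [div_pow, mul_pow, hw]
    field_simp
    ring
  have h1 := v2_eq_one (3600 / t) (600 * w / t ^ 2) hν0 hcurve
  have hvt : v2 t = 3 := by
    have h2 : v2 ((3600 / t) * t) = v2 (3600 / t) + v2 t := v2_mul hν0 ht0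
    rw [div_mul_cancel₀ _ ht0, h1] at h2
    have h3 : v2 (3600 : ℚ) = 4 := by
      have h5 : (3600 : ℚ) = 2 ^ 4 * (225 : ℕ) := by norm_num
      have h6 : v2 ((2 : ℚ) ^ 4) = ((4 : ℕ) : ℤ) * v2 2 := padicValRat.pow 2
      rw [h5, v2_mul (by norm_num) (by norm_num), v2_num_odd 225 (by norm_num), h6, v2_two]
      rfl
    omega
  have ua := unit_root hvt ha
  have ub := unit_root hvt hb
  have uc := unit_root hvt hc
  have ud := unit_root hvt hd
  have ue := unit_root hvt he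
  have hsum := dd4 hab hac had hae hbc hbd hbe hcd hce hde ha hb hc hd he
  exact (unit_sum3 (unit_sum3 ua ub uc) ud ue).1 hsum

end Pool.Agent.Helper96
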