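import Pool.Agent.Helper96.SBMDefs

set_option autoImplicit false

open Filter Topology
open scoped Classical

namespace Pool.Agent.Helper96.SBM

/-- graphs on `[n]` are the same as 0/1 functions on pairs -/
noncomputable def graphEquiv (n : ℕ) : SimpleGraph (Fin n) ≃ (Pair n → Bool) where
  toFun G := fun p => decide (G.Adj p.1.1 p.1.2)
  invFun f :=
    { Adj := fun u v => (∃ h : u < v, f ⟨(u, v), h⟩ = true) ∨ (∃ h : v < u, f ⟨(v, u), h⟩ = true)
      symm := ⟨by
        intro u v h
        rcases h with h | h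
        · exact Or.inr h
        · exact Or.inl h⟩
      loopless := ⟨by
        intro u h
        rcases h with ⟨h, -⟩ | ⟨h, -⟩ <;> exact lt_irrefl _ h⟩ }
  left_inv := by
    intro G
    ext u v
    simp only [decide_eq_true_eq]
    constructor
    · rintro (⟨-, h⟩ | ⟨-, h⟩)
      · exact h
      · exact h.symm
    · intro h
      rcases lt_trichotomy u v with h1 | h1 | h1
      · exact Or.inl ⟨h1, h⟩
      · subst h1; exact absurd h (G.loopless.irrefl u)
      · exact Or.inr ⟨h1, h.symm⟩
  right_inv := by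
    intro f
    funext p
    obtain ⟨⟨u, v⟩, h⟩ := p
    have h' : u < v := h
    have h2 : ¬ v < u := not_lt.mpr h'.le
    simp [h', h2]

theorem graph_sum (n : ℕ) (F H : Pair n → ℝ) :
    ∑ G : SimpleGraph (Fin n), ∏ p : Pair n, (if G.Adj p.1.1 p.1.2 then F p else H p)
      = ∏ p : Pair n, (F p + H p) := by
  have h1 : ∏ p : Pair n, (F p + H p) = ∏ p : Pair n, ∑ b : Bool, (if b then F p else H p) := by
    refine Finset.prod_congr rfl fun p _ => ?_
    simp
  rw [h1, Fintype.prod_sum]
  refine Fintype.sum_equiv (graphEquiv n) _ _ fun G => ?_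
  refine Finset.prod_congr rfl fun p _ => ?_
  simp [graphEquiv]

theorem edgeProb_nonneg {k n : ℕ} {M : Fin k → Fin k → ℝ} (hM : ∀ i j, 0 ≤ M i j) (i j : Fin k) :
    0 ≤ edgeProb n M i j :=
  le_min zero_le_one (div_nonneg (hM i j) (Nat.cast_nonneg n))

theorem edgeProb_le_one {k n : ℕ} {M : Fin k → Fin k → ℝ} (i j : Fin k) :
    edgeProb n M i j ≤ 1 := min_le_left _ _

theorem condProb_nonneg {k n : ℕ} {M : Fin k → Fin k → ℝ} (hM : ∀ i j, 0 ≤ M i j)
    (σ : Fin n → Fin k) (G : SimpleGraph (Fin n)) : 0 ≤ condProb M σ G := by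
  refine Finset.prod_nonneg fun p _ => ?_
  split_ifs
  · exact edgeProb_nonneg hM _ _
  · linarith [edgeProb_le_one (n := n) (M := M) (σ p.1.1) (σ p.1.2)]

theorem sum_condProb {k n : ℕ} (M : Fin k → Fin k → ℝ) (σ : Fin n → Fin k) :
    ∑ G : SimpleGraph (Fin n), condProb M σ G = 1 := by
  unfold condProb
  rw [graph_sum n (fun p => edgeProb n M (σ p.1.1) (σ p.1.2))
    (fun p => 1 - edgeProb n M (σ p.1.1) (σ p.1.2))]
  simp

theorem sum_prior {k n : ℕ} {prior : Fin k → ℝ} (h : ∑ i, prior i = 1) :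
    ∑ σ : Fin n → Fin k, ∏ v, prior (σ v) = 1 := by
  rw [← Fintype.prod_sum (fun (_ : Fin n) (i : Fin k) => prior i)]
  simp [h]

variable {k : ℕ} {prior : Fin k → ℝ} {M : Fin k → Fin k → ℝ}

theorem term_nonneg (hv : Valid prior M) (n : ℕ) (σ : Fin n → Fin k) (G : SimpleGraph (Fin n)) :
    0 ≤ (∏ v, prior (σ v)) * condProb M σ G :=
  mul_nonneg (Finset.prod_nonneg fun _ _ => (hv.1 _).le) (condProb_nonneg hv.2.2.2 σ G)

theorem prob_nonneg (hv : Valid prior M) (n : ℕ) (A : Set ((Fin n → Fin k) × SimpleGraph (Fin n))) :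
    0 ≤ prob prior M n A := by
  refine Finset.sum_nonneg fun σ _ => Finset.sum_nonneg fun G _ => ?_
  split_ifs
  · exact term_nonneg hv n σ G
  · exact le_refl 0

theorem prob_univ (hv : Valid prior M) (n : ℕ) : prob prior M n Set.univ = 1 := by
  unfold prob
  simp only [Set.mem_univ, if_true]
  have : ∀ σ : Fin n → Fin k, ∑ G : SimpleGraph (Fin n), (∏ v, prior (σ v)) * condProb M σ G
      = ∏ v, prior (σ v) := by
    intro σ
    rw [← Finset.mul_sum, sum_condProb, mul_one]
  simp_rw [this]
  exact sum_prior hv.2.1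

theorem prob_mono (hv : Valid prior M) (n : ℕ) {A B : Set ((Fin n → Fin k) × SimpleGraph (Fin n))}
    (h : A ⊆ B) : prob prior M n A ≤ prob prior M n B := by
  refine Finset.sum_le_sum fun σ _ => Finset.sum_le_sum fun G _ => ?_
  by_cases h1 : (σ, G) ∈ A
  · rw [if_pos h1, if_pos (h h1)]
  · rw [if_neg h1]
    split_ifs
    · exact term_nonneg hv n σ G
    · exact le_refl 0

theorem prob_union_le (hv : Valid prior M) (n : ℕ)
    (A B : Set ((Fin n → Fin k) × SimpleGraph (Fin n))) :
    prob prior M n (A ∪ B) ≤ prob prior M n A + prob prior M n B := by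
  unfold prob
  rw [← Finset.sum_add_distrib]
  refine Finset.sum_le_sum fun σ _ => ?_
  rw [← Finset.sum_add_distrib]
  refine Finset.sum_le_sum fun G _ => ?_
  have h0 := term_nonneg hv n σ G
  by_cases hA : (σ, G) ∈ A <;> by_cases hB : (σ, G) ∈ B <;>
    simp only [Set.mem_union, hA, hB, or_true, true_or, or_false, false_or, if_true, if_false] <;>
    linarith

theorem prob_compl (hv : Valid prior M) (n : ℕ) (A : Set ((Fin n → Fin k) × SimpleGraph (Fin n))) :
    prob prior M n A + prob prior M n Aᶜ = 1 := by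
  rw [← prob_univ hv n]
  unfold prob
  rw [← Finset.sum_add_distrib]
  refine Finset.sum_congr rfl fun σ _ => ?_
  rw [← Finset.sum_add_distrib]
  refine Finset.sum_congr rfl fun G _ => ?_
  by_cases hA : (σ, G) ∈ A <;> simp [hA]

/-- If the bad events have vanishing probability, the good events have probability tending to 1. -/
theorem tendsto_prob_one (hv : Valid prior M)
    (A : ∀ n : ℕ, Set ((Fin n → Fin k) × SimpleGraph (Fin n))) (b : ℕ → ℝ)
    (hb : Tendsto b atTop (𝓝 0)) (h : ∀ᶠ n in atTop, prob prior M n (A n)ᶜ ≤ b n) :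
    Tendsto (fun n => prob prior M n (A n)) atTop (𝓝 1) := by
  have h1 : Tendsto (fun n => 1 - b n) atTop (𝓝 1) := by
    simpa using (tendsto_const_nhds (x := (1 : ℝ))).sub hb
  refine tendsto_of_tendsto_of_tendsto_of_le_of_le' h1 tendsto_const_nhds ?_ ?_
  · filter_upwards [h] with n hn
    have := prob_compl hv n (A n)
    linarith
  · filter_upwards with n
    have := prob_compl hv n (A n)
    have := prob_nonneg hv n (A n)ᶜ
    linarith

end Pool.Agent.Helper96.SBM
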