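import Pool.Agent.Helper96.SBMBasic

set_option autoImplicit false

open Filter Topology
open scoped Classical

namespace Pool.Agent.Helper96.SBM

variable {k : ℕ} {prior : Fin k → ℝ} {M : Fin k → Fin k → ℝ}

/-- probability of an event that only depends on the labels -/
theorem prob_label (n : ℕ) (B : Set (Fin n → Fin k)) :
    prob prior M n {x | x.1 ∈ B} = ∑ σ : Fin n → Fin k, if σ ∈ B then ∏ v, prior (σ v) else 0 := by
  unfold prob
  refine Finset.sum_congr rfl fun σ _ => ?_
  by_cases h : σ ∈ B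
  · simp only [Set.mem_setOf_eq, h, if_true]
    rw [← Finset.mul_sum, sum_condProb, mul_one]
  · have h' : ∀ G : SimpleGraph (Fin n),
        ¬ ((σ, G) : (Fin n → Fin k) × SimpleGraph (Fin n)) ∈ {x : (Fin n → Fin k) × SimpleGraph (Fin n) | x.1 ∈ B} :=
      fun G => h
    simp [h', h]

/-- expectation of a product of functions of single labels -/
theorem sum_prod_label (n : ℕ) (φ : Fin n → Fin k → ℝ) :
    ∑ σ : Fin n → Fin k, (∏ v, prior (σ v)) * ∏ v, φ v (σ v) = ∏ v, ∑ i, prior i * φ v i := by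
  rw [Fintype.prod_sum (fun (v : Fin n) (i : Fin k) => prior i * φ v i)]
  refine Finset.sum_congr rfl fun σ _ => ?_
  rw [Finset.prod_mul_distrib]

theorem expect_one (n : ℕ) (hs : ∑ i, prior i = 1) (f : Fin k → ℝ) (u : Fin n) :
    ∑ σ : Fin n → Fin k, (∏ v, prior (σ v)) * f (σ u) = ∑ i, prior i * f i := by
  have h := sum_prod_label (prior := prior) n (fun v i => if v = u then f i else 1)
  have h1 : ∀ σ : Fin n → Fin k, ∏ v, (if v = u then f (σ v) else 1) = f (σ u) := by
    intro σ
    rw [Finset.prod_eq_single u]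
    · simp
    · intro b _ hb; simp [hb]
    · intro hu; exact absurd (Finset.mem_univ u) hu
  simp_rw [h1] at h
  rw [h, Finset.prod_eq_single u]
  · simp
  · intro b _ hb; simp [hb, hs]
  · intro hu; exact absurd (Finset.mem_univ u) hu

theorem expect_two (n : ℕ) (hs : ∑ i, prior i = 1) (f g : Fin k → ℝ) {u w : Fin n} (huw : u ≠ w) :
    ∑ σ : Fin n → Fin k, (∏ v, prior (σ v)) * (f (σ u) * g (σ w))
      = (∑ i, prior i * f i) * (∑ i, prior i * g i) := by
  have h := sum_prod_label (prior := prior) n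
    (fun v i => (if v = u then f i else 1) * (if v = w then g i else 1))
  have h1 : ∀ σ : Fin n → Fin k,
      ∏ v, ((if v = u then f (σ v) else 1) * (if v = w then g (σ v) else 1)) = f (σ u) * g (σ w) := by
    intro σ
    rw [Finset.prod_mul_distrib]
    congr 1
    · rw [Finset.prod_eq_single u]
      · simp
      · intro b _ hb; simp [hb]
      · intro hu; exact absurd (Finset.mem_univ u) hu
    · rw [Finset.prod_eq_single w]
      · simp
      · intro b _ hb; simp [hb]
      · intro hu; exact absurd (Finset.mem_univ w) hu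
  simp_rw [h1] at h
  rw [h]
  rw [← Finset.mul_prod_erase Finset.univ _ (Finset.mem_univ u)]
  rw [← Finset.mul_prod_erase (Finset.univ.erase u) _
    (Finset.mem_erase.mpr ⟨huw.symm, Finset.mem_univ w⟩)]
  have h2 : ∏ x ∈ (Finset.univ.erase u).erase w,
      ∑ i, prior i * ((if x = u then f i else 1) * (if x = w then g i else 1)) = 1 := by
    refine Finset.prod_eq_one fun x hx => ?_
    have hx1 : x ≠ w := (Finset.mem_erase.mp hx).1
    have hx2 : x ≠ u := (Finset.mem_erase.mp (Finset.mem_erase.mp hx).2).1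
    simp [hx1, hx2, hs]
  rw [h2, mul_one]
  simp [huw, huw.symm]

/-- number of vertices with label `i` -/
noncomputable def cnt {n : ℕ} (σ : Fin n → Fin k) (i : Fin k) : ℕ :=
  (Finset.univ.filter (fun v => σ v = i)).card

theorem variance_cnt (n : ℕ) (hp : ∀ i, 0 < prior i) (hs : ∑ i, prior i = 1) (i : Fin k) :
    ∑ σ : Fin n → Fin k, (∏ v, prior (σ v)) * ((cnt σ i : ℝ) - prior i * n) ^ 2 ≤ n := by
  set f : Fin k → ℝ := fun l => (if l = i then 1 else 0) - prior i with hf
  have hcnt : ∀ σ : Fin n → Fin k, (cnt σ i : ℝ) - prior i * n = ∑ v, f (σ v) := by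
    intro σ
    rw [hf]
    simp only [Finset.sum_sub_distrib, Finset.sum_const, Finset.card_univ, Fintype.card_fin,
      nsmul_eq_mul]
    rw [cnt, Finset.card_filter]
    push_cast
    ring
  have hf0 : ∑ l, prior l * f l = 0 := by
    rw [hf]
    simp only [mul_sub, Finset.sum_sub_distrib, ← Finset.sum_mul, hs]
    simp
  have hle1 : prior i ≤ 1 := by
    rw [← hs]
    exact Finset.single_le_sum (fun j _ => (hp j).le) (Finset.mem_univ i)
  have hff : ∑ l, prior l * (f l) ^ 2 ≤ 1 := by
    calc ∑ l, prior l * (f l) ^ 2 ≤ ∑ l, prior l * 1 := by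
          refine Finset.sum_le_sum fun l _ => ?_
          refine mul_le_mul_of_nonneg_left ?_ (hp l).le
          rw [hf]
          have h0 := (hp i).le
          by_cases h : l = i
          · simp only [h, if_true]; nlinarith
          · simp only [h, if_false]; nlinarith
      _ = 1 := by simp [hs]
  have hexp : ∀ σ : Fin n → Fin k, (∏ v, prior (σ v)) * ((cnt σ i : ℝ) - prior i * n) ^ 2
      = ∑ u, ∑ w, (∏ v, prior (σ v)) * (f (σ u) * f (σ w)) := by
    intro σ
    rw [hcnt, pow_two, Finset.sum_mul_sum, Finset.mul_sum]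
    refine Finset.sum_congr rfl fun u _ => ?_
    rw [Finset.mul_sum]
  simp_rw [hexp]
  rw [Finset.sum_comm]
  have hrow : ∀ u : Fin n, ∑ σ : Fin n → Fin k, ∑ w, (∏ v, prior (σ v)) * (f (σ u) * f (σ w)) ≤ 1 := by
    intro u
    rw [Finset.sum_comm]
    rw [Finset.sum_eq_single u]
    · have h1 := expect_one (prior := prior) n hs (fun l => f l * f l) u
      rw [h1]
      calc ∑ l, prior l * (f l * f l) = ∑ l, prior l * (f l) ^ 2 := by
            refine Finset.sum_congr rfl fun l _ => by ring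
        _ ≤ 1 := hff
    · intro w _ hw
      rw [expect_two n hs f f (Ne.symm hw), hf0, zero_mul]
    · intro hu; exact absurd (Finset.mem_univ u) hu
  calc ∑ u : Fin n, ∑ σ : Fin n → Fin k, ∑ w, (∏ v, prior (σ v)) * (f (σ u) * f (σ w))
      ≤ ∑ u : Fin n, (1 : ℝ) := Finset.sum_le_sum fun u _ => hrow u
    _ = n := by simp

/-- Chebyshev lower tail for the class sizes -/
theorem prob_cnt_small (hv : Valid prior M) (n : ℕ) (hn : 0 < n) (i : Fin k) (η : ℝ) (hη : 0 < η) :
    prob prior M n {x | (cnt x.1 i : ℝ) < (prior i - η) * n} ≤ 1 / (η ^ 2 * n) := by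
  have h1 : prob prior M n {x | (cnt x.1 i : ℝ) < (prior i - η) * n} =
      ∑ σ : Fin n → Fin k, if (cnt σ i : ℝ) < (prior i - η) * n then ∏ v, prior (σ v) else 0 :=
    prob_label (prior := prior) (M := M) n {σ | (cnt σ i : ℝ) < (prior i - η) * n}
  rw [h1]
  have hn' : (0 : ℝ) < n := by exact_mod_cast hn
  have hbound : ∀ σ : Fin n → Fin k, (if (cnt σ i : ℝ) < (prior i - η) * n then ∏ v, prior (σ v) else 0)
      ≤ (1 / (η ^ 2 * n ^ 2)) * ((∏ v, prior (σ v)) * ((cnt σ i : ℝ) - prior i * n) ^ 2) := by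
    intro σ
    have hp : 0 ≤ ∏ v, prior (σ v) := Finset.prod_nonneg fun v _ => (hv.1 _).le
    split_ifs with h
    · have h2 : (η * n) ^ 2 ≤ ((cnt σ i : ℝ) - prior i * n) ^ 2 := by
        have h3 : η * n ≤ prior i * n - cnt σ i := by nlinarith
        have h4 : 0 ≤ η * n := by positivity
        nlinarith
      have h5 : 1 ≤ (1 / (η ^ 2 * n ^ 2)) * ((cnt σ i : ℝ) - prior i * n) ^ 2 := by
        rw [one_div, ← div_eq_inv_mul, le_div_iff₀ (by positivity), one_mul]
        nlinarith
      calc ∏ v, prior (σ v) = (∏ v, prior (σ v)) * 1 := by ring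
        _ ≤ (∏ v, prior (σ v)) * ((1 / (η ^ 2 * n ^ 2)) * ((cnt σ i : ℝ) - prior i * n) ^ 2) :=
            mul_le_mul_of_nonneg_left h5 hp
        _ = _ := by ring
    · positivity
  calc ∑ σ : Fin n → Fin k, (if (cnt σ i : ℝ) < (prior i - η) * n then ∏ v, prior (σ v) else 0)
      ≤ ∑ σ : Fin n → Fin k, (1 / (η ^ 2 * n ^ 2)) *
          ((∏ v, prior (σ v)) * ((cnt σ i : ℝ) - prior i * n) ^ 2) :=
        Finset.sum_le_sum fun σ _ => hbound σ
    _ = (1 / (η ^ 2 * n ^ 2)) * ∑ σ : Fin n → Fin k,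
          ((∏ v, prior (σ v)) * ((cnt σ i : ℝ) - prior i * n) ^ 2) := by rw [Finset.mul_sum]
    _ ≤ (1 / (η ^ 2 * n ^ 2)) * n :=
        mul_le_mul_of_nonneg_left (variance_cnt n hv.1 hv.2.1 i) (by positivity)
    _ = 1 / (η ^ 2 * n) := by field_simp

end Pool.Agent.Helper96.SBM
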