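import Mathlib

set_option autoImplicit false

open Filter Topology
open scoped Classical

namespace Pool.Agent.Helper96.SBM

/-- Unordered pairs of distinct vertices of `[n]`, written as ordered pairs `u < v`. -/
abbrev Pair (n : ℕ) : Type := {p : Fin n × Fin n // p.1 < p.2}

/-- The probability `min(1, M i j / n)` that a pair of vertices with labels `i, j` is an edge. -/
noncomputable def edgeProb {k : ℕ} (n : ℕ) (M : Fin k → Fin k → ℝ) (i j : Fin k) : ℝ :=
  min 1 (M i j / n)

/-- The conditional probability `P(G | σ)` of the graph `G` given the labelling `σ`. -/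
noncomputable def condProb {k n : ℕ} (M : Fin k → Fin k → ℝ) (σ : Fin n → Fin k)
    (G : SimpleGraph (Fin n)) : ℝ :=
  ∏ p : Pair n, if G.Adj p.1.1 p.1.2 then edgeProb n M (σ p.1.1) (σ p.1.2)
    else 1 - edgeProb n M (σ p.1.1) (σ p.1.2)

/-- The probability of an event `A` under the joint law of (hidden labelling, graph) of
`SBM(n, k, prior, M)`. -/
noncomputable def prob {k : ℕ} (prior : Fin k → ℝ) (M : Fin k → Fin k → ℝ) (n : ℕ)
    (A : Set ((Fin n → Fin k) × SimpleGraph (Fin n))) : ℝ :=
  ∑ σ : Fin n → Fin k, ∑ G : SimpleGraph (Fin n),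
    if (σ, G) ∈ A then (∏ v, prior (σ v)) * condProb M σ G else 0

/-- Valid parameters: `prior` is a probability vector with positive entries and `M` is a symmetric
nonnegative matrix. -/
def Valid {k : ℕ} (prior : Fin k → ℝ) (M : Fin k → Fin k → ℝ) : Prop :=
  (∀ i, 0 < prior i) ∧ ∑ i, prior i = 1 ∧ (∀ i j, M i j = M j i) ∧ (∀ i j, 0 ≤ M i j)

/-- The overlap of two labellings of `[n]`: the best agreement fraction over all relabellings. -/
noncomputable def overlap {k n : ℕ} (s σ : Fin n → Fin k) : ℝ :=
  ⨆ τ : Equiv.Perm (Fin k), ((Finset.univ.filter (fun v => τ (s v) = σ v)).card : ℝ) / n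

/-- An estimator: for every `n` a map from graphs on `[n]` to labellings in `[k]^n`. -/
abbrev Estimator (k : ℕ) : Type := ∀ n : ℕ, SimpleGraph (Fin n) → Fin n → Fin k

/-- The estimator achieves non-trivial correlation: for some `ε > 0` its overlap with the truth is
at least `max prior + ε` with probability `1 - o(1)`. -/
def Nontrivial' {k : ℕ} (prior : Fin k → ℝ) (M : Fin k → Fin k → ℝ) (est : Estimator k) : Prop :=
  ∃ ε : ℝ, 0 < ε ∧ Tendsto (fun n : ℕ => prob prior M n
    {x | (⨆ i, prior i) + ε ≤ overlap (est n x.2) x.1}) atTop (𝓝 1)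

/-- The estimator is a maximum-likelihood estimator: for every `n` and every graph `G` on `[n]` it
outputs a labelling maximising `P(G | σ')` over all `σ'` (ties broken arbitrarily). -/
def IsML {k : ℕ} (M : Fin k → Fin k → ℝ) (est : Estimator k) : Prop :=
  ∀ (n : ℕ) (G : SimpleGraph (Fin n)) (s : Fin n → Fin k), condProb M s G ≤ condProb M (est n G) G

end Pool.Agent.Helper96.SBM
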