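import Pool.Agent.Helper96.SBMConc

set_option autoImplicit false

open Filter Topology
open scoped Classical

namespace Pool.Agent.Helper96.SBM

variable {k : ℕ} {prior : Fin k → ℝ} {M : Fin k → Fin k → ℝ}

/-- number of edges that are not inside the class `z` -/
noncomputable def extra {n : ℕ} (z : Fin k) (σ : Fin n → Fin k) (G : SimpleGraph (Fin n)) : ℕ :=
  (Finset.univ.filter (fun p : Pair n =>
    G.Adj p.1.1 p.1.2 ∧ ¬ (σ p.1.1 = z ∧ σ p.1.2 = z))).card

theorem card_pair_le (n : ℕ) : (Fintype.card (Pair n) : ℝ) ≤ (n : ℝ) ^ 2 := by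
  have h : Fintype.card (Pair n) ≤ Fintype.card (Fin n × Fin n) := Fintype.card_subtype_le _
  rw [Fintype.card_prod, Fintype.card_fin] at h
  calc (Fintype.card (Pair n) : ℝ) ≤ ((n * n : ℕ) : ℝ) := by exact_mod_cast h
    _ = (n : ℝ) ^ 2 := by push_cast; ring

theorem sum_two_pow_extra (hM : ∀ i j, 0 ≤ M i j) (z : Fin k) (δ : ℝ) (hδ : 0 ≤ δ)
    (hsmall : ∀ i j, ¬ (i = z ∧ j = z) → M i j ≤ δ) (n : ℕ) (hn : 0 < n) (σ : Fin n → Fin k) :
    ∑ G : SimpleGraph (Fin n), condProb M σ G * (2 : ℝ) ^ (extra z σ G) ≤ Real.exp (δ * n) := by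
  have hn' : (0 : ℝ) < n := by exact_mod_cast hn
  have h1 : ∀ G : SimpleGraph (Fin n), condProb M σ G * (2 : ℝ) ^ (extra z σ G) =
      ∏ p : Pair n, if G.Adj p.1.1 p.1.2 then
        edgeProb n M (σ p.1.1) (σ p.1.2) * (if (σ p.1.1 = z ∧ σ p.1.2 = z) then 1 else 2)
        else 1 - edgeProb n M (σ p.1.1) (σ p.1.2) := by
    intro G
    have h2 : (2 : ℝ) ^ (extra z σ G) = ∏ p : Pair n,
        if G.Adj p.1.1 p.1.2 ∧ ¬ (σ p.1.1 = z ∧ σ p.1.2 = z) then (2 : ℝ) else 1 := by
      rw [extra, Finset.prod_ite]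
      simp
    rw [h2, condProb, ← Finset.prod_mul_distrib]
    refine Finset.prod_congr rfl fun p _ => ?_
    by_cases ha : G.Adj p.1.1 p.1.2 <;> by_cases hb : (σ p.1.1 = z ∧ σ p.1.2 = z) <;>
      simp [ha, hb]
  simp_rw [h1]
  rw [graph_sum n (fun p => edgeProb n M (σ p.1.1) (σ p.1.2) *
      (if (σ p.1.1 = z ∧ σ p.1.2 = z) then 1 else 2))
    (fun p => 1 - edgeProb n M (σ p.1.1) (σ p.1.2))]
  have h3 : ∀ p : Pair n, edgeProb n M (σ p.1.1) (σ p.1.2) *
      (if (σ p.1.1 = z ∧ σ p.1.2 = z) then 1 else 2) + (1 - edgeProb n M (σ p.1.1) (σ p.1.2))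
      ≤ Real.exp (δ / n) := by
    intro p
    have hδn : 0 ≤ δ / n := div_nonneg hδ hn'.le
    split_ifs with hb
    · have : (1 : ℝ) ≤ Real.exp (δ / n) := Real.one_le_exp hδn
      linarith
    · have h4 : edgeProb n M (σ p.1.1) (σ p.1.2) ≤ δ / n :=
        le_trans (min_le_right _ _) (div_le_div_of_nonneg_right (hsmall _ _ hb) hn'.le)
      have h5 := Real.add_one_le_exp (δ / n)
      linarith
  calc ∏ p : Pair n, (edgeProb n M (σ p.1.1) (σ p.1.2) *
      (if (σ p.1.1 = z ∧ σ p.1.2 = z) then 1 else 2) + (1 - edgeProb n M (σ p.1.1) (σ p.1.2)))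
      ≤ ∏ _p : Pair n, Real.exp (δ / n) := by
        refine Finset.prod_le_prod (fun p _ => ?_) (fun p _ => h3 p)
        have h6 := edgeProb_nonneg (n := n) hM (σ p.1.1) (σ p.1.2)
        have h7 := edgeProb_le_one (n := n) (M := M) (σ p.1.1) (σ p.1.2)
        split_ifs <;> nlinarith
    _ = Real.exp (δ / n * Fintype.card (Pair n)) := by
        rw [Finset.prod_const, Finset.card_univ, ← Real.exp_nat_mul]
        ring_nf
    _ ≤ Real.exp (δ * n) := by
        apply Real.exp_le_exp.mpr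
        have h8 := card_pair_le n
        calc δ / n * Fintype.card (Pair n) ≤ δ / n * (n : ℝ) ^ 2 :=
              mul_le_mul_of_nonneg_left h8 (div_nonneg hδ hn'.le)
          _ = δ * n := by field_simp

theorem prob_extra_large (hv : Valid prior M) (z : Fin k) (δ : ℝ) (hδ : 0 ≤ δ)
    (hsmall : ∀ i j, ¬ (i = z ∧ j = z) → M i j ≤ δ) (n : ℕ) (hn : 0 < n) (c : ℝ) :
    prob prior M n {x | c * n < (extra z x.1 x.2 : ℝ)} ≤ Real.exp ((δ - c * Real.log 2) * n) := by
  unfold prob
  have hterm : ∀ σ : Fin n → Fin k, ∑ G : SimpleGraph (Fin n),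
      (if (σ, G) ∈ {x : (Fin n → Fin k) × SimpleGraph (Fin n) | c * n < (extra z x.1 x.2 : ℝ)} then
        (∏ v, prior (σ v)) * condProb M σ G else 0) ≤
      (∏ v, prior (σ v)) * Real.exp ((δ - c * Real.log 2) * n) := by
    intro σ
    have hp : 0 ≤ ∏ v, prior (σ v) := Finset.prod_nonneg fun v _ => (hv.1 _).le
    have h1 : ∀ G : SimpleGraph (Fin n),
        (if (σ, G) ∈ {x : (Fin n → Fin k) × SimpleGraph (Fin n) | c * n < (extra z x.1 x.2 : ℝ)} then
        (∏ v, prior (σ v)) * condProb M σ G else 0) ≤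
        (∏ v, prior (σ v)) * (Real.exp (-(c * Real.log 2) * n) *
          (condProb M σ G * (2 : ℝ) ^ (extra z σ G))) := by
      intro G
      have hc := condProb_nonneg (n := n) hv.2.2.2 σ G
      split_ifs with h
      · have h2 : c * n < (extra z σ G : ℝ) := h
        refine mul_le_mul_of_nonneg_left ?_ hp
        have h3 : 1 ≤ Real.exp (-(c * Real.log 2) * n) * (2 : ℝ) ^ (extra z σ G) := by
          have h4 : (2 : ℝ) ^ (extra z σ G) = Real.exp (Real.log 2 * extra z σ G) := by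
            rw [mul_comm, Real.exp_nat_mul, Real.exp_log (by norm_num)]
          rw [h4, ← Real.exp_add]
          apply Real.one_le_exp
          have hl : 0 < Real.log 2 := Real.log_pos (by norm_num)
          nlinarith
        calc condProb M σ G = condProb M σ G * 1 := by ring
          _ ≤ condProb M σ G * (Real.exp (-(c * Real.log 2) * n) * (2 : ℝ) ^ (extra z σ G)) :=
              mul_le_mul_of_nonneg_left h3 hc
          _ = _ := by ring
      · positivity
    calc _ ≤ ∑ G : SimpleGraph (Fin n), (∏ v, prior (σ v)) * (Real.exp (-(c * Real.log 2) * n) *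
          (condProb M σ G * (2 : ℝ) ^ (extra z σ G))) := Finset.sum_le_sum fun G _ => h1 G
      _ = (∏ v, prior (σ v)) * (Real.exp (-(c * Real.log 2) * n) *
          ∑ G : SimpleGraph (Fin n), (condProb M σ G * (2 : ℝ) ^ (extra z σ G))) := by
            rw [← Finset.mul_sum, ← Finset.mul_sum]
      _ ≤ (∏ v, prior (σ v)) * (Real.exp (-(c * Real.log 2) * n) * Real.exp (δ * n)) := by
            refine mul_le_mul_of_nonneg_left (mul_le_mul_of_nonneg_left ?_ (Real.exp_pos _).le) hp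
            exact sum_two_pow_extra hv.2.2.2 z δ hδ hsmall n hn σ
      _ = _ := by
            rw [← Real.exp_add]; ring_nf
  calc _ ≤ ∑ σ : Fin n → Fin k, (∏ v, prior (σ v)) * Real.exp ((δ - c * Real.log 2) * n) :=
        Finset.sum_le_sum fun σ _ => hterm σ
    _ = Real.exp ((δ - c * Real.log 2) * n) := by
        rw [← Finset.sum_mul, sum_prior hv.2.1, one_mul]

/-- number of pairs inside a vertex set -/
theorem card_pairs_in {n : ℕ} (S : Finset (Fin n)) :
    2 * (Finset.univ.filter (fun p : Pair n => p.1.1 ∈ S ∧ p.1.2 ∈ S)).card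
      = S.card * S.card - S.card := by
  have h1 := Finset.offDiag_card S
  have h2 := Finset.card_filter_add_card_filter_not (s := S.offDiag) (fun q : Fin n × Fin n => q.1 < q.2)
  have h3 : (S.offDiag.filter (fun q : Fin n × Fin n => ¬ q.1 < q.2)).card =
      (S.offDiag.filter (fun q : Fin n × Fin n => q.1 < q.2)).card := by
    refine Finset.card_nbij' (fun q => (q.2, q.1)) (fun q => (q.2, q.1)) ?_ ?_ ?_ ?_
    · intro q hq
      simp only [Finset.coe_filter, Set.mem_setOf_eq, Finset.mem_offDiag] at hq ⊢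
      obtain ⟨⟨h4, h5, h6⟩, h7⟩ := hq
      exact ⟨⟨h5, h4, Ne.symm h6⟩, lt_of_le_of_ne (not_lt.mp h7) (Ne.symm h6)⟩
    · intro q hq
      simp only [Finset.coe_filter, Set.mem_setOf_eq, Finset.mem_offDiag] at hq ⊢
      obtain ⟨⟨h4, h5, h6⟩, h7⟩ := hq
      exact ⟨⟨h5, h4, Ne.symm h6⟩, not_lt.mpr h7.le⟩
    · intro q _; rfl
    · intro q _; rfl
  have h4 : (Finset.univ.filter (fun p : Pair n => p.1.1 ∈ S ∧ p.1.2 ∈ S)).card =
      (S.offDiag.filter (fun q : Fin n × Fin n => q.1 < q.2)).card := by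
    refine Finset.card_bij (fun p _ => p.1) ?_ ?_ ?_
    · intro p hp
      simp only [Finset.mem_filter, Finset.mem_univ, true_and, Finset.mem_offDiag] at hp ⊢
      exact ⟨⟨hp.1, hp.2, ne_of_lt p.2⟩, p.2⟩
    · intro p _ q _ h; exact Subtype.ext h
    · intro q hq
      simp only [Finset.mem_filter, Finset.mem_offDiag] at hq
      exact ⟨⟨q, hq.2⟩, by simp [hq.1.1, hq.1.2.1], rfl⟩
  omega

end Pool.Agent.Helper96.SBM
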