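import Pool.Agent.Helper96.SBMEdges

set_option autoImplicit false

open Filter Topology
open scoped Classical

namespace Pool.Agent.Helper96.SBM

variable {k : ℕ} {prior : Fin k → ℝ} {M : Fin k → Fin k → ℝ}

/-- number of isolated vertices in class `z` -/
noncomputable def isoIn {n : ℕ} (z : Fin k) (σ : Fin n → Fin k) (G : SimpleGraph (Fin n)) : ℕ :=
  (Finset.univ.filter (fun v => σ v = z ∧ ∀ u, ¬ G.Adj v u)).card

theorem sum_indep (n : ℕ) (hn : 100 ≤ n) (z : Fin k) (hz : 100 ≤ M z z)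
    (σ : Fin n → Fin k) (S : Finset (Fin n)) (hS : ∀ v ∈ S, σ v = z) :
    ∑ G : SimpleGraph (Fin n), condProb M σ G *
      (if (∀ p : Pair n, p.1.1 ∈ S ∧ p.1.2 ∈ S → ¬ G.Adj p.1.1 p.1.2) then 1 else 0) ≤
      Real.exp (-(100 / n) * (Finset.univ.filter (fun p : Pair n => p.1.1 ∈ S ∧ p.1.2 ∈ S)).card) := by
  have hn' : (0 : ℝ) < n := by
    have : 0 < n := by omega
    exact_mod_cast this
  have hn100 : (100 : ℝ) ≤ n := by exact_mod_cast hn
  have h1 : ∀ G : SimpleGraph (Fin n), condProb M σ G *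
      (if (∀ p : Pair n, p.1.1 ∈ S ∧ p.1.2 ∈ S → ¬ G.Adj p.1.1 p.1.2) then 1 else 0) =
      ∏ p : Pair n, if G.Adj p.1.1 p.1.2 then
        edgeProb n M (σ p.1.1) (σ p.1.2) * (if (p.1.1 ∈ S ∧ p.1.2 ∈ S) then 0 else 1)
        else 1 - edgeProb n M (σ p.1.1) (σ p.1.2) := by
    intro G
    have h2 : (if (∀ p : Pair n, p.1.1 ∈ S ∧ p.1.2 ∈ S → ¬ G.Adj p.1.1 p.1.2) then (1 : ℝ) else 0) =
        ∏ p : Pair n, if G.Adj p.1.1 p.1.2 ∧ (p.1.1 ∈ S ∧ p.1.2 ∈ S) then (0 : ℝ) else 1 := by
      split_ifs with h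
      · symm
        refine Finset.prod_eq_one fun p _ => ?_
        rw [if_neg]
        rintro ⟨h3, h4⟩
        exact h p h4 h3
      · push Not at h
        obtain ⟨p, hp1, hp2⟩ := h
        symm
        exact Finset.prod_eq_zero (Finset.mem_univ p) (by rw [if_pos ⟨hp2, hp1⟩])
    rw [h2, condProb, ← Finset.prod_mul_distrib]
    refine Finset.prod_congr rfl fun p _ => ?_
    by_cases ha : G.Adj p.1.1 p.1.2 <;> by_cases hb : (p.1.1 ∈ S ∧ p.1.2 ∈ S) <;>
      simp [ha, hb]
  simp_rw [h1]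
  rw [graph_sum n (fun p => edgeProb n M (σ p.1.1) (σ p.1.2) *
      (if (p.1.1 ∈ S ∧ p.1.2 ∈ S) then 0 else 1))
    (fun p => 1 - edgeProb n M (σ p.1.1) (σ p.1.2))]
  have h3 : ∀ p : Pair n, edgeProb n M (σ p.1.1) (σ p.1.2) *
      (if (p.1.1 ∈ S ∧ p.1.2 ∈ S) then 0 else 1) + (1 - edgeProb n M (σ p.1.1) (σ p.1.2))
      ≤ (if (p.1.1 ∈ S ∧ p.1.2 ∈ S) then Real.exp (-(100 / n)) else 1) := by
    intro p
    split_ifs with hb
    · have e1 : σ p.1.1 = z := hS _ hb.1
      have e2 : σ p.1.2 = z := hS _ hb.2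
      have h4 : (100 : ℝ) / n ≤ edgeProb n M (σ p.1.1) (σ p.1.2) := by
        rw [e1, e2]
        refine le_min ?_ ?_
        · rw [div_le_one hn']; exact hn100
        · exact div_le_div_of_nonneg_right hz hn'.le
      have h5 := Real.one_sub_le_exp_neg (100 / (n : ℝ))
      linarith
    · linarith
  have h0 : ∀ p : Pair n, 0 ≤ edgeProb n M (σ p.1.1) (σ p.1.2) *
      (if (p.1.1 ∈ S ∧ p.1.2 ∈ S) then 0 else 1) + (1 - edgeProb n M (σ p.1.1) (σ p.1.2)) := by
    intro p
    have h7 := edgeProb_le_one (n := n) (M := M) (σ p.1.1) (σ p.1.2)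
    split_ifs <;> linarith
  calc _ ≤ ∏ p : Pair n, (if (p.1.1 ∈ S ∧ p.1.2 ∈ S) then Real.exp (-(100 / n)) else 1) :=
        Finset.prod_le_prod (fun p _ => h0 p) (fun p _ => h3 p)
    _ = Real.exp (-(100 / n)) ^ (Finset.univ.filter (fun p : Pair n => p.1.1 ∈ S ∧ p.1.2 ∈ S)).card := by
        rw [Finset.prod_ite]; simp
    _ = _ := by rw [← Real.exp_nat_mul]; ring_nf

theorem log_two_lt : Real.log 2 < 0.6932 := lt_trans Real.log_two_lt_d9 (by norm_num)

theorem prob_iso_large (hv : Valid prior M) (z : Fin k) (hz : 100 ≤ M z z) (n : ℕ) (hn : 250 ≤ n) :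
    prob prior M n {x | 2 / 25 * (n : ℝ) ≤ cnt x.1 z ∧ cnt x.1 z ≤ 2 * isoIn z x.1 x.2}
      ≤ Real.exp (-(n : ℝ) / 100) := by
  have hnpos : (0 : ℝ) < n := by
    have : 0 < n := by omega
    exact_mod_cast this
  have hn250 : (250 : ℝ) ≤ n := by exact_mod_cast hn
  unfold prob
  have hterm : ∀ σ : Fin n → Fin k, ∑ G : SimpleGraph (Fin n),
      (if (σ, G) ∈ {x : (Fin n → Fin k) × SimpleGraph (Fin n) |
          2 / 25 * (n : ℝ) ≤ cnt x.1 z ∧ cnt x.1 z ≤ 2 * isoIn z x.1 x.2} then
        (∏ v, prior (σ v)) * condProb M σ G else 0) ≤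
      (∏ v, prior (σ v)) * Real.exp (-(n : ℝ) / 100) := by
    intro σ
    have hp : 0 ≤ ∏ v, prior (σ v) := Finset.prod_nonneg fun v _ => (hv.1 _).le
    by_cases hcnt : 2 / 25 * (n : ℝ) ≤ cnt σ z
    swap
    · have : ∀ G : SimpleGraph (Fin n),
          (if (σ, G) ∈ {x : (Fin n → Fin k) × SimpleGraph (Fin n) |
            2 / 25 * (n : ℝ) ≤ cnt x.1 z ∧ cnt x.1 z ≤ 2 * isoIn z x.1 x.2} then
            (∏ v, prior (σ v)) * condProb M σ G else 0) = 0 := by
        intro G
        rw [if_neg]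
        intro h
        exact hcnt h.1
      simp_rw [this]
      simp only [Finset.sum_const_zero]
      positivity
    set V0 : Finset (Fin n) := Finset.univ.filter (fun v => σ v = z) with hV0
    have hV0c : V0.card = cnt σ z := rfl
    set T : Finset (Finset (Fin n)) := V0.powerset.filter (fun S => cnt σ z ≤ 2 * S.card) with hT
    have h1 : ∀ G : SimpleGraph (Fin n),
        (if (σ, G) ∈ {x : (Fin n → Fin k) × SimpleGraph (Fin n) |
            2 / 25 * (n : ℝ) ≤ cnt x.1 z ∧ cnt x.1 z ≤ 2 * isoIn z x.1 x.2} then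
            (∏ v, prior (σ v)) * condProb M σ G else 0) ≤
        (∏ v, prior (σ v)) * ∑ S ∈ T, (condProb M σ G *
          (if (∀ p : Pair n, p.1.1 ∈ S ∧ p.1.2 ∈ S → ¬ G.Adj p.1.1 p.1.2) then 1 else 0)) := by
      intro G
      have hc := condProb_nonneg (n := n) hv.2.2.2 σ G
      have hnn : ∀ S ∈ T, 0 ≤ (condProb M σ G *
          (if (∀ p : Pair n, p.1.1 ∈ S ∧ p.1.2 ∈ S → ¬ G.Adj p.1.1 p.1.2) then (1 : ℝ) else 0)) := by
        intro S _
        split_ifs <;> simp [hc]
      split_ifs with h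
      · obtain ⟨-, h2⟩ := h
        refine mul_le_mul_of_nonneg_left ?_ hp
        set S0 : Finset (Fin n) := Finset.univ.filter (fun v => σ v = z ∧ ∀ u, ¬ G.Adj v u) with hS0
        have hS0T : S0 ∈ T := by
          rw [hT, Finset.mem_filter, Finset.mem_powerset]
          refine ⟨?_, h2⟩
          intro v hvv
          rw [hS0, Finset.mem_filter] at hvv
          rw [hV0, Finset.mem_filter]
          exact ⟨hvv.1, hvv.2.1⟩
        have hind : (∀ p : Pair n, p.1.1 ∈ S0 ∧ p.1.2 ∈ S0 → ¬ G.Adj p.1.1 p.1.2) := by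
          rintro p ⟨h3, -⟩
          rw [hS0, Finset.mem_filter] at h3
          exact h3.2.2 _
        calc condProb M σ G = (condProb M σ G *
            (if (∀ p : Pair n, p.1.1 ∈ S0 ∧ p.1.2 ∈ S0 → ¬ G.Adj p.1.1 p.1.2) then 1 else 0)) := by
              rw [if_pos hind, mul_one]
          _ ≤ _ := Finset.single_le_sum hnn hS0T
      · exact mul_nonneg hp (Finset.sum_nonneg hnn)
    have hbound : ∀ S ∈ T, ∑ G : SimpleGraph (Fin n), (condProb M σ G *
          (if (∀ p : Pair n, p.1.1 ∈ S ∧ p.1.2 ∈ S → ¬ G.Adj p.1.1 p.1.2) then (1 : ℝ) else 0))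
          ≤ Real.exp (-(100 / n) * ((cnt σ z : ℝ) ^ 2 / 8 - cnt σ z / 4)) := by
      intro S hS
      rw [hT, Finset.mem_filter, Finset.mem_powerset] at hS
      have hSz : ∀ v ∈ S, σ v = z := by
        intro v hvS
        have := hS.1 hvS
        rw [hV0, Finset.mem_filter] at this
        exact this.2
      refine le_trans (sum_indep n (by omega) z hz σ S hSz) ?_
      apply Real.exp_le_exp.mpr
      have hpairs := card_pairs_in S
      have hcast : 2 * ((Finset.univ.filter (fun p : Pair n => p.1.1 ∈ S ∧ p.1.2 ∈ S)).card : ℝ)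
          = (S.card : ℝ) * S.card - S.card := by
        have hle : S.card ≤ S.card * S.card := Nat.le_mul_self _
        have : ((2 * (Finset.univ.filter (fun p : Pair n => p.1.1 ∈ S ∧ p.1.2 ∈ S)).card : ℕ) : ℝ)
            = ((S.card * S.card - S.card : ℕ) : ℝ) := by rw [hpairs]
        rw [Nat.cast_sub hle] at this
        push_cast at this
        exact this
      have h2s : (cnt σ z : ℝ) ≤ 2 * S.card := by exact_mod_cast hS.2
      have hcpos : (20 : ℝ) ≤ cnt σ z := by linarith
      have hq : (cnt σ z : ℝ) ^ 2 / 8 - cnt σ z / 4 ≤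
          ((Finset.univ.filter (fun p : Pair n => p.1.1 ∈ S ∧ p.1.2 ∈ S)).card : ℝ) := by
        have h3 : ((Finset.univ.filter (fun p : Pair n => p.1.1 ∈ S ∧ p.1.2 ∈ S)).card : ℝ)
          = ((S.card : ℝ) * S.card - S.card) / 2 := by linarith
        rw [h3]
        nlinarith
      have h100 : 0 ≤ 100 / (n : ℝ) := by positivity
      nlinarith
    calc _ ≤ ∑ G : SimpleGraph (Fin n), (∏ v, prior (σ v)) * ∑ S ∈ T, (condProb M σ G *
          (if (∀ p : Pair n, p.1.1 ∈ S ∧ p.1.2 ∈ S → ¬ G.Adj p.1.1 p.1.2) then (1 : ℝ) else 0)) :=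
            Finset.sum_le_sum fun G _ => h1 G
      _ = (∏ v, prior (σ v)) * ∑ S ∈ T, ∑ G : SimpleGraph (Fin n), (condProb M σ G *
          (if (∀ p : Pair n, p.1.1 ∈ S ∧ p.1.2 ∈ S → ¬ G.Adj p.1.1 p.1.2) then (1 : ℝ) else 0)) := by
            rw [← Finset.mul_sum, Finset.sum_comm]
      _ ≤ (∏ v, prior (σ v)) * ∑ _S ∈ T,
            Real.exp (-(100 / n) * ((cnt σ z : ℝ) ^ 2 / 8 - cnt σ z / 4)) :=
            mul_le_mul_of_nonneg_left (Finset.sum_le_sum hbound) hp
      _ ≤ (∏ v, prior (σ v)) * Real.exp (-(n : ℝ) / 100) := by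
            refine mul_le_mul_of_nonneg_left ?_ hp
            rw [Finset.sum_const, nsmul_eq_mul]
            have hTc : (T.card : ℝ) ≤ Real.exp (Real.log 2 * cnt σ z) := by
              have h4 : T.card ≤ 2 ^ (cnt σ z) := by
                calc T.card ≤ V0.powerset.card := Finset.card_filter_le _ _
                  _ = 2 ^ (cnt σ z) := by rw [Finset.card_powerset, hV0c]
              have h5 : (2 : ℝ) ^ (cnt σ z) = Real.exp (Real.log 2 * cnt σ z) := by
                rw [mul_comm, Real.exp_nat_mul, Real.exp_log (by norm_num)]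
              rw [← h5]
              exact_mod_cast h4
            calc (T.card : ℝ) * Real.exp (-(100 / n) * ((cnt σ z : ℝ) ^ 2 / 8 - cnt σ z / 4))
                ≤ Real.exp (Real.log 2 * cnt σ z) *
                  Real.exp (-(100 / n) * ((cnt σ z : ℝ) ^ 2 / 8 - cnt σ z / 4)) :=
                  mul_le_mul_of_nonneg_right hTc (Real.exp_pos _).le
              _ = Real.exp (Real.log 2 * cnt σ z + -(100 / n) * ((cnt σ z : ℝ) ^ 2 / 8 - cnt σ z / 4)) := by
                  rw [Real.exp_add]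
              _ ≤ Real.exp (-(n : ℝ) / 100) := by
                  apply Real.exp_le_exp.mpr
                  set c : ℝ := (cnt σ z : ℝ) with hc
                  have hc0 : 0 < c := by nlinarith
                  have e1 : Real.log 2 * c + -(100 / n) * (c ^ 2 / 8 - c / 4) =
                      c * (Real.log 2 - 100 * c / (8 * n) + 25 / n) := by
                    field_simp
                    ring
                  rw [e1]
                  have e2 : 1 ≤ 100 * c / (8 * n) := by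
                    rw [le_div_iff₀ (by positivity)]
                    nlinarith
                  have e3 : 25 / (n : ℝ) ≤ 1 / 10 := by
                    rw [div_le_div_iff₀ hnpos (by norm_num)]
                    linarith
                  have e4 := log_two_lt
                  have e5 : Real.log 2 - 100 * c / (8 * n) + 25 / n ≤ -(1/5) := by linarith
                  nlinarith
  have hfin : ∑ σ : Fin n → Fin k, (∏ v, prior (σ v)) * Real.exp (-(n : ℝ) / 100)
      = Real.exp (-(n : ℝ) / 100) := by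
    rw [← Finset.sum_mul, sum_prior hv.2.1, one_mul]
  rw [← hfin]
  refine Finset.sum_le_sum fun σ _ => ?_
  refine le_trans (le_of_eq ?_) (hterm σ)
  refine Finset.sum_congr rfl fun G _ => ?_
  congr

end Pool.Agent.Helper96.SBM
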