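import Pool.Agent.Helper96.SBMIso

set_option autoImplicit false

open Filter Topology
open scoped Classical

namespace Pool.Agent.Helper96.SBM

variable {k : ℕ} {prior : Fin k → ℝ} {M : Fin k → Fin k → ℝ}

/-- non-isolated vertices outside class `z` -/
theorem noniso_card {n : ℕ} (z : Fin k) (σ : Fin n → Fin k) (G : SimpleGraph (Fin n)) :
    (Finset.univ.filter (fun v => σ v ≠ z ∧ ∃ u, G.Adj v u)).card ≤ 2 * extra z σ G := by
  set E := Finset.univ.filter (fun p : Pair n =>
    G.Adj p.1.1 p.1.2 ∧ ¬ (σ p.1.1 = z ∧ σ p.1.2 = z)) with hE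
  have hsub : Finset.univ.filter (fun v => σ v ≠ z ∧ ∃ u, G.Adj v u) ⊆
      (E.image (fun p => p.1.1)) ∪ (E.image (fun p => p.1.2)) := by
    intro v hvv
    rw [Finset.mem_filter] at hvv
    obtain ⟨-, h1, u, hu⟩ := hvv
    rw [Finset.mem_union, Finset.mem_image, Finset.mem_image]
    rcases lt_trichotomy v u with h | h | h
    · left
      refine ⟨⟨(v, u), h⟩, ?_, rfl⟩
      rw [hE, Finset.mem_filter]
      exact ⟨Finset.mem_univ _, hu, fun h2 => h1 h2.1⟩
    · subst h
      exact absurd hu (G.loopless.irrefl v)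
    · right
      refine ⟨⟨(u, v), h⟩, ?_, rfl⟩
      rw [hE, Finset.mem_filter]
      exact ⟨Finset.mem_univ _, hu.symm, fun h2 => h1 h2.2⟩
  calc _ ≤ ((E.image (fun p => p.1.1)) ∪ (E.image (fun p => p.1.2))).card := Finset.card_le_card hsub
    _ ≤ (E.image (fun p => p.1.1)).card + (E.image (fun p => p.1.2)).card := Finset.card_union_le _ _
    _ ≤ E.card + E.card := add_le_add Finset.card_image_le Finset.card_image_le
    _ = 2 * extra z σ G := by rw [extra]; ring

/-- The part of the likelihood not involving `v`. -/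
noncomputable def restProb {n : ℕ} (M : Fin k → Fin k → ℝ) (s : Fin n → Fin k)
    (G : SimpleGraph (Fin n)) (v : Fin n) : ℝ :=
  ∏ p ∈ Finset.univ.filter (fun p : Pair n => ¬ (p.1.1 = v ∨ p.1.2 = v)),
    if G.Adj p.1.1 p.1.2 then edgeProb n M (s p.1.1) (s p.1.2)
    else 1 - edgeProb n M (s p.1.1) (s p.1.2)

theorem edgeProb_symm {n : ℕ} (hM : ∀ i j, M i j = M j i) (i j : Fin k) :
    edgeProb n M i j = edgeProb n M j i := by
  unfold edgeProb; rw [hM]

theorem condProb_isolated {n : ℕ} (hM : ∀ i j, M i j = M j i) (s : Fin n → Fin k)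
    (G : SimpleGraph (Fin n)) (v : Fin n) (hiso : ∀ u, ¬ G.Adj v u) :
    condProb M s G = (∏ u ∈ Finset.univ.erase v, (1 - edgeProb n M (s v) (s u))) *
      restProb M s G v := by
  unfold condProb restProb
  rw [← Finset.prod_filter_mul_prod_filter_not Finset.univ
    (fun p : Pair n => (p.1.1 = v ∨ p.1.2 = v))]
  congr 1
  symm
  refine Finset.prod_bij'
    (i := fun u hu => if h : u < v then (⟨(u, v), h⟩ : Pair n)
      else (⟨(v, u), lt_of_le_of_ne (not_lt.mp h) (Ne.symm (Finset.ne_of_mem_erase hu))⟩ : Pair n))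
    (j := fun p _ => if p.1.1 = v then p.1.2 else p.1.1) ?_ ?_ ?_ ?_ ?_
  · intro u hu
    rw [Finset.mem_filter]
    refine ⟨Finset.mem_univ _, ?_⟩
    by_cases h : u < v <;> simp [h]
  · intro p hp
    rw [Finset.mem_filter] at hp
    have hlt := p.2
    rw [Finset.mem_erase]
    refine ⟨?_, Finset.mem_univ _⟩
    by_cases h : p.1.1 = v
    · simp only [h, if_true]
      intro h2
      rw [h, h2] at hlt
      exact lt_irrefl _ hlt
    · simp only [h, if_false]
      exact h
  · intro u hu
    have hne : u ≠ v := Finset.ne_of_mem_erase hu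
    by_cases h : u < v
    · simp [h, hne]
    · simp [h]
  · intro p hp
    rw [Finset.mem_filter] at hp
    have hlt : p.1.1 < p.1.2 := p.2
    rcases hp.2 with h | h
    · have h2 : ¬ p.1.2 < v := by rw [← h]; exact not_lt.mpr hlt.le
      apply Subtype.ext
      simp only [h, if_true, h2, dite_false]
      exact Prod.ext h.symm rfl
    · have h2 : p.1.1 < v := by rw [← h]; exact hlt
      have h3 : ¬ p.1.1 = v := ne_of_lt h2
      apply Subtype.ext
      simp only [h3, if_false, h2, dite_true]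
      exact Prod.ext rfl h.symm
  · intro u hu
    by_cases h : u < v
    · have h1 : ¬ G.Adj u v := fun h2 => hiso u h2.symm
      simp only [h, dite_true, h1, if_false]
      rw [edgeProb_symm hM]
    · have h1 : ¬ G.Adj v u := hiso u
      simp only [h, dite_false, h1, if_false]

theorem restProb_update {n : ℕ} (s : Fin n → Fin k) (G : SimpleGraph (Fin n)) (v : Fin n)
    (j : Fin k) : restProb M (Function.update s v j) G v = restProb M s G v := by
  unfold restProb
  refine Finset.prod_congr rfl fun p hp => ?_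
  rw [Finset.mem_filter] at hp
  push Not at hp
  rw [Function.update_of_ne hp.2.1, Function.update_of_ne hp.2.2]

/-- `1 - x ≥ exp(-x-x²)` for `0 ≤ x ≤ 1/2` -/
theorem one_sub_ge (x : ℝ) (h0 : 0 ≤ x) (h1 : x ≤ 1 / 2) : Real.exp (-(x + x ^ 2)) ≤ 1 - x := by
  have hpos : 0 < 1 - x := by linarith
  have h2 : Real.exp (x + x ^ 2) ≥ 1 / (1 - x) := by
    have h3 : 1 + (x + x ^ 2) + (x + x ^ 2) ^ 2 / 2 ≤ Real.exp (x + x ^ 2) :=
      Real.quadratic_le_exp_of_nonneg (by positivity)
    have h4 : 1 / (1 - x) ≤ 1 + (x + x ^ 2) + (x + x ^ 2) ^ 2 / 2 := by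
      rw [div_le_iff₀ hpos]
      nlinarith [pow_nonneg h0 2, pow_nonneg h0 3, pow_nonneg h0 4, pow_nonneg h0 5,
        mul_nonneg (pow_nonneg h0 2) (by linarith : (0:ℝ) ≤ 1/2 - x),
        mul_nonneg (pow_nonneg h0 3) (by linarith : (0:ℝ) ≤ 1/2 - x),
        mul_nonneg (pow_nonneg h0 4) (by linarith : (0:ℝ) ≤ 1/2 - x)]
    linarith
  rw [Real.exp_neg]
  rw [inv_le_comm₀ (Real.exp_pos _) hpos]
  rw [← one_div]
  exact h2

/-- first-order optimality of a maximum-likelihood labelling at an isolated vertex -/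
theorem ml_opt {n : ℕ} (hv : Valid prior M) (s : Fin n → Fin k) (G : SimpleGraph (Fin n))
    (hpos : 0 < condProb M s G) (hopt : ∀ s', condProb M s' G ≤ condProb M s G)
    (v : Fin n) (hiso : ∀ u, ¬ G.Adj v u) (j : Fin k) (K : ℝ) (hK : ∀ i l, M i l ≤ K)
    (hKn : 2 * K ≤ n) (hn : 0 < n) (δ : ℝ) (hδ : ∀ l, M j l ≤ δ) :
    ∑ l, M (s v) l * cnt s l ≤ ∑ l, M j l * cnt s l + M (s v) (s v) + δ ^ 2 := by
  have hn' : (0 : ℝ) < n := by exact_mod_cast hn
  have hq : ∀ i l, edgeProb n M i l = M i l / n := by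
    intro i l
    unfold edgeProb
    apply min_eq_right
    rw [div_le_one hn']
    have := hK i l
    have h0 := hv.2.2.2 i l
    linarith
  have hqhalf : ∀ i l, M i l / n ≤ 1 / 2 := by
    intro i l
    rw [div_le_iff₀ hn']
    have := hK i l
    linarith
  have h1 := condProb_isolated hv.2.2.1 s G v hiso
  have hrest : 0 < restProb M s G v := by
    rw [h1] at hpos
    have hnn : 0 ≤ ∏ u ∈ Finset.univ.erase v, (1 - edgeProb n M (s v) (s u)) :=
      Finset.prod_nonneg fun u _ => by
        have := edgeProb_le_one (n := n) (M := M) (s v) (s u)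
        linarith
    by_contra hcon
    push Not at hcon
    nlinarith
  have h2 := condProb_isolated hv.2.2.1 (Function.update s v j) G v hiso
  have h3 := hopt (Function.update s v j)
  rw [h2, restProb_update, h1] at h3
  have h4 : ∏ u ∈ Finset.univ.erase v, (1 - edgeProb n M (Function.update s v j v)
      (Function.update s v j u)) = ∏ u ∈ Finset.univ.erase v, (1 - edgeProb n M j (s u)) := by
    refine Finset.prod_congr rfl fun u hu => ?_
    rw [Function.update_self, Function.update_of_ne (Finset.ne_of_mem_erase hu)]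
  rw [h4] at h3
  have h5 : ∏ u ∈ Finset.univ.erase v, (1 - edgeProb n M j (s u)) ≤
      ∏ u ∈ Finset.univ.erase v, (1 - edgeProb n M (s v) (s u)) := le_of_mul_le_mul_right h3 hrest
  have h6 : Real.exp (-∑ u ∈ Finset.univ.erase v, (M j (s u) / n + (M j (s u) / n) ^ 2)) ≤
      ∏ u ∈ Finset.univ.erase v, (1 - edgeProb n M j (s u)) := by
    rw [← Finset.sum_neg_distrib, Real.exp_sum]
    refine Finset.prod_le_prod (fun u _ => (Real.exp_pos _).le) (fun u _ => ?_)
    rw [hq]
    exact one_sub_ge _ (div_nonneg (hv.2.2.2 _ _) hn'.le) (hqhalf _ _)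
  have h7 : ∏ u ∈ Finset.univ.erase v, (1 - edgeProb n M (s v) (s u)) ≤
      Real.exp (-∑ u ∈ Finset.univ.erase v, (M (s v) (s u) / n)) := by
    rw [← Finset.sum_neg_distrib, Real.exp_sum]
    refine Finset.prod_le_prod (fun u _ => ?_) (fun u _ => ?_)
    · have := edgeProb_le_one (n := n) (M := M) (s v) (s u)
      linarith
    · rw [hq]
      exact Real.one_sub_le_exp_neg _
  have h8 := Real.exp_le_exp.mp (le_trans h6 (le_trans h5 h7))
  have h9 : ∑ u ∈ Finset.univ.erase v, (M (s v) (s u) / n) ≤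
      ∑ u ∈ Finset.univ.erase v, (M j (s u) / n + (M j (s u) / n) ^ 2) := by linarith
  -- multiply by n
  have h10 : ∑ u ∈ Finset.univ.erase v, M (s v) (s u) ≤
      ∑ u ∈ Finset.univ.erase v, M j (s u) + δ ^ 2 := by
    have e1 : ∑ u ∈ Finset.univ.erase v, (M (s v) (s u) / n) =
        (∑ u ∈ Finset.univ.erase v, M (s v) (s u)) / n := by rw [Finset.sum_div]
    have e2 : ∑ u ∈ Finset.univ.erase v, (M j (s u) / n + (M j (s u) / n) ^ 2) ≤
        (∑ u ∈ Finset.univ.erase v, M j (s u)) / n + δ ^ 2 / n := by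
      rw [Finset.sum_add_distrib, Finset.sum_div]
      have e3 : ∑ u ∈ Finset.univ.erase v, (M j (s u) / n) ^ 2 ≤ δ ^ 2 / n := by
        calc ∑ u ∈ Finset.univ.erase v, (M j (s u) / n) ^ 2
            ≤ ∑ u ∈ Finset.univ.erase v, (δ / n) ^ 2 := by
              refine Finset.sum_le_sum fun u _ => ?_
              have h0 := hv.2.2.2 j (s u)
              exact pow_le_pow_left₀ (div_nonneg h0 hn'.le)
                (div_le_div_of_nonneg_right (hδ _) hn'.le) 2
          _ = ((Finset.univ.erase v).card : ℝ) * (δ / n) ^ 2 := by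
              rw [Finset.sum_const, nsmul_eq_mul]
          _ ≤ (n : ℝ) * (δ / n) ^ 2 := by
              refine mul_le_mul_of_nonneg_right ?_ (by positivity)
              have : (Finset.univ.erase v).card ≤ n := by
                calc _ ≤ (Finset.univ : Finset (Fin n)).card := Finset.card_le_card (Finset.erase_subset _ _)
                  _ = n := by simp
              exact_mod_cast this
          _ = δ ^ 2 / n := by field_simp
      linarith
    rw [e1] at h9
    have e4 := le_trans h9 e2
    rw [← add_div] at e4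
    exact (div_le_div_iff_of_pos_right hn').mp e4
  have hgroup : ∀ i : Fin k, ∑ u, M i (s u) = ∑ l, M i l * cnt s l := by
    intro i
    rw [← Finset.sum_fiberwise Finset.univ s (fun u => M i (s u))]
    refine Finset.sum_congr rfl fun l _ => ?_
    have : ∀ u ∈ Finset.univ.filter (fun u => s u = l), M i (s u) = M i l := by
      intro u hu
      rw [Finset.mem_filter] at hu
      rw [hu.2]
    rw [Finset.sum_congr rfl this, Finset.sum_const, nsmul_eq_mul, cnt]
    ring
  have e5 : ∑ u ∈ Finset.univ.erase v, M (s v) (s u) = ∑ l, M (s v) l * cnt s l - M (s v) (s v) := by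
    rw [← hgroup, ← Finset.add_sum_erase Finset.univ _ (Finset.mem_univ v)]
    ring
  have e6 : ∑ u ∈ Finset.univ.erase v, M j (s u) ≤ ∑ l, M j l * cnt s l := by
    rw [← hgroup, ← Finset.add_sum_erase Finset.univ _ (Finset.mem_univ v)]
    have := hv.2.2.2 j (s v)
    linarith
  rw [e5] at h10
  linarith

end Pool.Agent.Helper96.SBM
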