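import Pool.Agent.Helper96.SBMML

set_option autoImplicit false

open Filter Topology
open scoped Classical

namespace Pool.Agent.Helper96.SBM

/-- The explicit prior `(1/10, 17/20, 1/20)`. -/
noncomputable def prior₀ : Fin 3 → ℝ := ![1/10, 17/20, 1/20]

/-- The explicit matrix. -/
noncomputable def M₀ : Fin 3 → Fin 3 → ℝ :=
  ![![200, 1/10000, 1/10000], ![1/10000, 1/1000, 1/10000], ![1/10000, 1/10000, 1/1000]]

/-- Being within `1/1000000` of the explicit parameters. -/
structure Near (prior : Fin 3 → ℝ) (M : Fin 3 → Fin 3 → ℝ) : Prop where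
  p0 : |prior 0 - 1/10| < 1/1000000
  p1 : |prior 1 - 17/20| < 1/1000000
  p2 : |prior 2 - 1/20| < 1/1000000
  m00 : |M 0 0 - 200| < 1/1000000
  m01 : |M 0 1 - 1/10000| < 1/1000000
  m02 : |M 0 2 - 1/10000| < 1/1000000
  m10 : |M 1 0 - 1/10000| < 1/1000000
  m11 : |M 1 1 - 1/1000| < 1/1000000
  m12 : |M 1 2 - 1/10000| < 1/1000000
  m20 : |M 2 0 - 1/10000| < 1/1000000
  m21 : |M 2 1 - 1/10000| < 1/1000000
  m22 : |M 2 2 - 1/1000| < 1/1000000

/-- label isolated vertices by `1` and all other vertices by `0` -/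
noncomputable def degEst : Estimator 3 := fun _ G v => if ∃ u, G.Adj v u then 0 else 1

variable {prior : Fin 3 → ℝ} {M : Fin 3 → Fin 3 → ℝ}

theorem sup_prior (h : Near prior M) : ⨆ i, prior i = prior 1 := by
  obtain ⟨hp0, hp1, hp2, -, -, -, -, -, -, -, -, -⟩ := h
  rw [abs_lt] at hp0 hp1 hp2
  apply le_antisymm
  · apply ciSup_le
    intro i
    fin_cases i
    · show prior 0 ≤ prior 1; linarith
    · show prior 1 ≤ prior 1; linarith
    · show prior 2 ≤ prior 1; linarith
  · exact Finite.le_ciSup (fun i => prior i) 1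

theorem small_entries (h : Near prior M) : ∀ i j, ¬ (i = 0 ∧ j = 0) → M i j ≤ 1 / 500 := by
  obtain ⟨-, -, -, h00, h01, h02, h10, h11, h12, h20, h21, h22⟩ := h
  rw [abs_lt] at h00 h01 h02 h10 h11 h12 h20 h21 h22
  intro i j hij
  fin_cases i <;> fin_cases j
  · exact absurd ⟨rfl, rfl⟩ hij
  · show M 0 1 ≤ _; linarith
  · show M 0 2 ≤ _; linarith
  · show M 1 0 ≤ _; linarith
  · show M 1 1 ≤ _; linarith
  · show M 1 2 ≤ _; linarith
  · show M 2 0 ≤ _; linarith
  · show M 2 1 ≤ _; linarith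
  · show M 2 2 ≤ _; linarith

theorem all_entries (h : Near prior M) : ∀ i j, M i j ≤ 201 := by
  intro i j
  by_cases hij : i = 0 ∧ j = 0
  · rw [hij.1, hij.2]
    have := h.m00
    rw [abs_lt] at this
    linarith
  · have := small_entries h i j hij
    linarith

theorem cnt_compl {n : ℕ} (σ : Fin n → Fin 3) (i : Fin 3) :
    (Finset.univ.filter (fun v => σ v ≠ i)).card + cnt σ i = n := by
  have h := Finset.card_filter_add_card_filter_not (s := (Finset.univ : Finset (Fin n)))
    (fun v => σ v = i)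
  rw [Finset.card_univ, Fintype.card_fin] at h
  rw [cnt, add_comm]
  exact h

theorem est_good {n : ℕ} (hn : 0 < n) (h : Near prior M) (σ : Fin n → Fin 3)
    (G : SimpleGraph (Fin n)) (h1 : (prior 1 - 1/200) * n ≤ cnt σ 1)
    (h0 : (prior 0 - 1/200) * n ≤ cnt σ 0) (hX : (extra 0 σ G : ℝ) ≤ 1/300 * n)
    (hI : 2 * isoIn 0 σ G < cnt σ 0) : (⨆ i, prior i) + 1/50 ≤ overlap (degEst n G) σ := by
  have hn' : (0 : ℝ) < n := by exact_mod_cast hn
  rw [sup_prior h]
  obtain ⟨hp0, hp1, hp2, -, -, -, -, -, -, -, -, -⟩ := h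
  rw [abs_lt] at hp0 hp1 hp2
  set A := Finset.univ.filter (fun v => σ v = 1 ∧ ¬ ∃ u, G.Adj v u) with hA
  set A' := Finset.univ.filter (fun v => σ v = 1 ∧ ∃ u, G.Adj v u) with hA'
  set B := Finset.univ.filter (fun v => σ v = 0 ∧ ∃ u, G.Adj v u) with hB
  have hAc : A'.card + A.card = cnt σ 1 := by
    have := Finset.card_filter_add_card_filter_not (s := Finset.univ.filter (fun v => σ v = 1))
      (fun v => ∃ u, G.Adj v u)
    rw [Finset.filter_filter, Finset.filter_filter] at this
    exact this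
  have hBc : B.card + isoIn 0 σ G = cnt σ 0 := by
    have := Finset.card_filter_add_card_filter_not (s := Finset.univ.filter (fun v => σ v = 0))
      (fun v => ∃ u, G.Adj v u)
    rw [Finset.filter_filter, Finset.filter_filter] at this
    push Not at this
    exact this
  have hA'le : A'.card ≤ 2 * extra 0 σ G := by
    refine le_trans (Finset.card_le_card ?_) (noniso_card 0 σ G)
    intro v hv
    rw [hA', Finset.mem_filter] at hv
    rw [Finset.mem_filter]
    refine ⟨hv.1, ?_, hv.2.2⟩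
    rw [hv.2.1]; decide
  have hsub : A ∪ B ⊆ Finset.univ.filter (fun v => (1 : Equiv.Perm (Fin 3)) (degEst n G v) = σ v) := by
    intro v hv
    rw [Finset.mem_filter]
    refine ⟨Finset.mem_univ _, ?_⟩
    rw [Finset.mem_union, hA, hB, Finset.mem_filter, Finset.mem_filter] at hv
    rcases hv with hv | hv
    · simp only [Equiv.Perm.coe_one, id_eq, degEst, if_neg hv.2.2]
      exact hv.2.1.symm
    · simp only [Equiv.Perm.coe_one, id_eq, degEst, if_pos hv.2.2]
      exact hv.2.1.symm
  have hdisj : Disjoint A B := by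
    rw [Finset.disjoint_left]
    intro v h3 h4
    rw [hA, Finset.mem_filter] at h3
    rw [hB, Finset.mem_filter] at h4
    exact h3.2.2 h4.2.2
  have hcard := Finset.card_le_card hsub
  rw [Finset.card_union_of_disjoint hdisj] at hcard
  have hle : ((Finset.univ.filter (fun v => (1 : Equiv.Perm (Fin 3)) (degEst n G v) = σ v)).card : ℝ) / n
      ≤ overlap (degEst n G) σ :=
    Finite.le_ciSup (fun τ : Equiv.Perm (Fin 3) =>
      ((Finset.univ.filter (fun v => τ (degEst n G v) = σ v)).card : ℝ) / n) 1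
  refine le_trans ?_ hle
  rw [le_div_iff₀ hn']
  have e1 : (A'.card : ℝ) + A.card = cnt σ 1 := by exact_mod_cast hAc
  have e2 : (B.card : ℝ) + isoIn 0 σ G = cnt σ 0 := by exact_mod_cast hBc
  have e3 : (A'.card : ℝ) ≤ 2 * extra 0 σ G := by exact_mod_cast hA'le
  have e4 : 2 * (isoIn 0 σ G : ℝ) ≤ cnt σ 0 := by exact_mod_cast hI.le
  have e5 : (A.card : ℝ) + B.card ≤
      (Finset.univ.filter (fun v => (1 : Equiv.Perm (Fin 3)) (degEst n G v) = σ v)).card := by
    exact_mod_cast hcard
  nlinarith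

theorem noniso_total {n : ℕ} (σ : Fin n → Fin 3) (G : SimpleGraph (Fin n)) :
    (Finset.univ.filter (fun v => ∃ u, G.Adj v u)).card + cnt σ 1 ≤ n + 2 * extra 0 σ G := by
  have h1 : Finset.univ.filter (fun v => ∃ u, G.Adj v u) ⊆
      Finset.univ.filter (fun v => σ v = 0) ∪
      Finset.univ.filter (fun v => σ v ≠ 0 ∧ ∃ u, G.Adj v u) := by
    intro v hv
    rw [Finset.mem_filter] at hv
    rw [Finset.mem_union, Finset.mem_filter, Finset.mem_filter]
    by_cases h : σ v = 0
    · left; exact ⟨hv.1, h⟩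
    · right; exact ⟨hv.1, h, hv.2⟩
  have h2 := Finset.card_le_card h1
  have h3 := Finset.card_union_le (Finset.univ.filter (fun v => σ v = 0))
      (Finset.univ.filter (fun v => σ v ≠ 0 ∧ ∃ u, G.Adj v u))
  have h4 := noniso_card 0 σ G
  have h5 : (Finset.univ.filter (fun v => σ v = 0)).card ≤
      (Finset.univ.filter (fun v => σ v ≠ 1)).card := by
    refine Finset.card_le_card fun v hv => ?_
    rw [Finset.mem_filter] at hv ⊢
    refine ⟨hv.1, ?_⟩
    rw [hv.2]; decide
  have h6 := cnt_compl σ 1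
  omega

theorem cnt_sum {n : ℕ} (s : Fin n → Fin 3) : cnt s 0 + cnt s 1 + cnt s 2 = n := by
  have h1 : cnt s 0 + cnt s 2 = (Finset.univ.filter (fun v => s v ≠ 1)).card := by
    rw [cnt, cnt, ← Finset.card_union_of_disjoint]
    · congr 1
      ext v
      simp only [Finset.mem_union, Finset.mem_filter, Finset.mem_univ, true_and]
      generalize s v = x
      revert x
      decide
    · rw [Finset.disjoint_left]
      intro v h3 h4
      rw [Finset.mem_filter] at h3 h4
      rw [h3.2] at h4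
      exact absurd h4.2 (by decide)
  have h2 := cnt_compl s 1
  omega

theorem ml_good {n : ℕ} (hn : 10000000 ≤ n) (hv : Valid prior M) (h : Near prior M)
    (σ s : Fin n → Fin 3)
    (G : SimpleGraph (Fin n)) (hopt : ∀ s', condProb M s' G ≤ condProb M s G)
    (h1 : (prior 1 - 1/200) * n ≤ cnt σ 1) (hX : (extra 0 σ G : ℝ) ≤ 1/300 * n) :
    overlap s σ ≤ (⨆ i, prior i) - 1/100 := by
  have hn0 : 0 < n := by omega
  have hn' : (0 : ℝ) < n := by exact_mod_cast hn0
  have hnbig : (10000000 : ℝ) ≤ n := by exact_mod_cast hn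
  rw [sup_prior h]
  have hent := all_entries h
  have hsm := small_entries h
  have h' := h
  obtain ⟨hp0, hp1, hp2, h00, h01, h02, h10, h11, h12, h20, h21, h22⟩ := h'
  rw [abs_lt] at hp0 hp1 hp2 h00 h01 h02 h10 h11 h12 h20 h21 h22
  -- positivity of the maximal likelihood
  have hpos : 0 < condProb M s G := by
    refine lt_of_lt_of_le ?_ (hopt (fun _ => 0))
    unfold condProb
    refine Finset.prod_pos fun p _ => ?_
    have e1 : edgeProb n M 0 0 = M 0 0 / n := by
      unfold edgeProb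
      apply min_eq_right
      rw [div_le_one hn']
      linarith
    have e2 : 0 < M 0 0 / n := div_pos (by linarith) hn'
    have e3 : M 0 0 / n < 1 := by
      rw [div_lt_one hn']
      linarith
    simp only [e1]
    split_ifs
    · exact e2
    · linarith
  have hKn : 2 * (201 : ℝ) ≤ n := by linarith
  have hsum3 : ((cnt s 0 : ℕ) : ℝ) + cnt s 1 + cnt s 2 = n := by exact_mod_cast cnt_sum s
  have hc0 : (0 : ℝ) ≤ cnt s 0 := Nat.cast_nonneg _
  have hc1 : (0 : ℝ) ≤ cnt s 1 := Nat.cast_nonneg _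
  have hc2 : (0 : ℝ) ≤ cnt s 2 := Nat.cast_nonneg _
  have hnon : ((Finset.univ.filter (fun v => ∃ u, G.Adj v u)).card : ℝ) ≤ 17/100 * n := by
    have e1 : ((Finset.univ.filter (fun v => ∃ u, G.Adj v u)).card : ℝ) + cnt σ 1 ≤
      n + 2 * extra 0 σ G := by exact_mod_cast noniso_total σ G
    nlinarith
  -- all classes of `s` are small
  have hclass : ∀ i : Fin 3, (cnt s i : ℝ) ≤ 6/10 * n := by
    intro i
    by_cases hiso : ∃ v, s v = i ∧ ∀ u, ¬ G.Adj v u
    · obtain ⟨v, hvi, hvu⟩ := hiso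
      have hj1 : ∀ l, M 1 l ≤ 1/500 := fun l => hsm 1 l (by simp)
      have hj2 : ∀ l, M 2 l ≤ 1/500 := fun l => hsm 2 l (by simp)
      have o1 := ml_opt hv s G hpos hopt v hvu 1 201 hent hKn hn0 (1/500) hj1
      have o2 := ml_opt hv s G hpos hopt v hvu 2 201 hent hKn hn0 (1/500) hj2
      rw [hvi] at o1 o2
      rw [Fin.sum_univ_three, Fin.sum_univ_three] at o1 o2
      fin_cases i
      · simp only [Fin.zero_eta, Fin.isValue] at o1 ⊢
        have f1 : 199 * (cnt s 0 : ℝ) ≤ M 0 0 * cnt s 0 :=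
          mul_le_mul_of_nonneg_right (by linarith) hc0
        have f2 : 0 ≤ M 0 1 * cnt s 1 := mul_nonneg (hv.2.2.2 _ _) hc1
        have f3 : 0 ≤ M 0 2 * cnt s 2 := mul_nonneg (hv.2.2.2 _ _) hc2
        have f4 : M 1 0 * cnt s 0 ≤ 1/500 * cnt s 0 := mul_le_mul_of_nonneg_right (hj1 0) hc0
        have f5 : M 1 1 * cnt s 1 ≤ 1/500 * cnt s 1 := mul_le_mul_of_nonneg_right (hj1 1) hc1
        have f6 : M 1 2 * cnt s 2 ≤ 1/500 * cnt s 2 := mul_le_mul_of_nonneg_right (hj1 2) hc2
        norm_num at o1 o2 ⊢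
        linarith
      · simp only [Fin.mk_one, Fin.isValue] at o2 ⊢
        have f1 : (998/1000000 : ℝ) * cnt s 1 ≤ M 1 1 * cnt s 1 :=
          mul_le_mul_of_nonneg_right (by linarith) hc1
        have f2 : (98/1000000 : ℝ) * cnt s 0 ≤ M 1 0 * cnt s 0 :=
          mul_le_mul_of_nonneg_right (by linarith) hc0
        have f3 : (98/1000000 : ℝ) * cnt s 2 ≤ M 1 2 * cnt s 2 :=
          mul_le_mul_of_nonneg_right (by linarith) hc2
        have f4 : M 2 0 * cnt s 0 ≤ (102/1000000 : ℝ) * cnt s 0 :=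
          mul_le_mul_of_nonneg_right (by linarith) hc0
        have f5 : M 2 1 * cnt s 1 ≤ (102/1000000 : ℝ) * cnt s 1 :=
          mul_le_mul_of_nonneg_right (by linarith) hc1
        have f6 : M 2 2 * cnt s 2 ≤ (1002/1000000 : ℝ) * cnt s 2 :=
          mul_le_mul_of_nonneg_right (by linarith) hc2
        norm_num at o1 o2 ⊢
        linarith
      · simp only [Fin.reduceFinMk, Fin.isValue] at o1 ⊢
        have f1 : (998/1000000 : ℝ) * cnt s 2 ≤ M 2 2 * cnt s 2 :=
          mul_le_mul_of_nonneg_right (by linarith) hc2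
        have f2 : (98/1000000 : ℝ) * cnt s 0 ≤ M 2 0 * cnt s 0 :=
          mul_le_mul_of_nonneg_right (by linarith) hc0
        have f3 : (98/1000000 : ℝ) * cnt s 1 ≤ M 2 1 * cnt s 1 :=
          mul_le_mul_of_nonneg_right (by linarith) hc1
        have f4 : M 1 0 * cnt s 0 ≤ (102/1000000 : ℝ) * cnt s 0 :=
          mul_le_mul_of_nonneg_right (by linarith) hc0
        have f5 : M 1 2 * cnt s 2 ≤ (102/1000000 : ℝ) * cnt s 2 :=
          mul_le_mul_of_nonneg_right (by linarith) hc2
        have f6 : M 1 1 * cnt s 1 ≤ (1002/1000000 : ℝ) * cnt s 1 :=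
          mul_le_mul_of_nonneg_right (by linarith) hc1
        norm_num at o1 o2 ⊢
        linarith
    · push Not at hiso
      have hsub : Finset.univ.filter (fun v => s v = i) ⊆
          Finset.univ.filter (fun v => ∃ u, G.Adj v u) := by
        intro v hvv
        rw [Finset.mem_filter] at hvv ⊢
        exact ⟨hvv.1, hiso v hvv.2⟩
      have e1 : (cnt s i : ℝ) ≤ ((Finset.univ.filter (fun v => ∃ u, G.Adj v u)).card : ℝ) := by
        exact_mod_cast Finset.card_le_card hsub
      linarith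
  -- bound the overlap
  unfold overlap
  apply ciSup_le
  intro τ
  rw [div_le_iff₀ hn']
  have hsub : Finset.univ.filter (fun v => τ (s v) = σ v) ⊆
      Finset.univ.filter (fun v => σ v ≠ 1) ∪ Finset.univ.filter (fun v => s v = τ.symm 1) := by
    intro v hvv
    rw [Finset.mem_filter] at hvv
    rw [Finset.mem_union, Finset.mem_filter, Finset.mem_filter]
    by_cases h3 : σ v = 1
    · right
      refine ⟨hvv.1, ?_⟩
      rw [Equiv.eq_symm_apply, hvv.2, h3]
    · left; exact ⟨hvv.1, h3⟩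
  have hle := le_trans (Finset.card_le_card hsub) (Finset.card_union_le _ _)
  have e1 : ((Finset.univ.filter (fun v => τ (s v) = σ v)).card : ℝ) ≤
      ((Finset.univ.filter (fun v => σ v ≠ 1)).card : ℝ) + (cnt s (τ.symm 1) : ℝ) := by
    exact_mod_cast hle
  have e2 : ((Finset.univ.filter (fun v => σ v ≠ 1)).card : ℝ) + cnt σ 1 = n := by
    exact_mod_cast cnt_compl σ 1
  have e3 := hclass (τ.symm 1)
  nlinarith

end Pool.Agent.Helper96.SBM
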